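import Pool.Agent.H34.GC.Def

set_option autoImplicit false

/-! # [H34 GC A0] an involution with at most one fixed point (helper30) -/

namespace Pool.Agent.H34.GC

theorem exists_invol (X : Type) [Finite X] :
    ∃ τ : X → X, (∀ x, τ (τ x) = x) ∧ Nat.card {x // τ x = x} = Nat.card X % 2 := by
  obtain ⟨n, hn⟩ : ∃ n, n = Nat.card X := ⟨_, rfl⟩
  rw [← hn]
  have e : X ≃ Fin n := hn ▸ Finite.equivFin X
  refine ⟨fun x => e.symm (Fin.rev (e x)), fun x => by simp, ?_⟩
  have e2 : {x // e.symm (Fin.rev (e x)) = x} ≃ {i : Fin n // Fin.rev i = i} :=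
    e.subtypeEquiv fun x => by rw [Equiv.symm_apply_eq]
  rw [Nat.card_congr e2]
  rcases Nat.even_or_odd' n with ⟨k, hk | hk⟩
  · have : IsEmpty {i : Fin n // Fin.rev i = i} := ⟨fun ⟨i, hi⟩ => by
      have h1 := congrArg Fin.val hi
      rw [Fin.val_rev] at h1
      have := i.2
      omega⟩
    rw [Nat.card_of_isEmpty]
    omega
  · have : Unique {i : Fin n // Fin.rev i = i} :=
      { default := ⟨⟨k, by omega⟩, by
          apply Fin.ext
          rw [Fin.val_rev]
          simp only
          omega⟩
        uniq := fun ⟨i, hi⟩ => by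
          apply Subtype.ext
          apply Fin.ext
          have h1 := congrArg Fin.val hi
          rw [Fin.val_rev] at h1
          have := i.2
          simp only
          omega }
    rw [Nat.card_unique]
    omega

end Pool.Agent.H34.GC
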