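import Pool.Agent.H34.GC.Def

set_option autoImplicit false

/-! # [H34 GC A1] The dimension of the space of invariant functions of an involution -/

namespace Pool.Agent.H34.GC

open Pool.Agent.H34.PM Finset Module

variable {X : Type}

/-- A1 -/
theorem inv_finrank [Fintype X] (τ : X → X) (h : ∀ x, τ (τ x) = x) :
    2 * finrank (ZMod 2) (inv τ) = Nat.card X + Nat.card {x // τ x = x} := by
  classical
  let _ : LinearOrder X := LinearOrder.lift' (Fintype.equivFin X) (Fintype.equivFin X).injective
  have hS : ∀ x, ¬ x ≤ τ x → τ x ≤ τ (τ x) := fun x hx => by rw [h]; exact (not_le.1 hx).le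
  let g0 : ({x : X // x ≤ τ x} → ZMod 2) → X → ZMod 2 := fun g x =>
    if hx : x ≤ τ x then g ⟨x, hx⟩ else g ⟨τ x, hS x hx⟩
  have hg0 : ∀ g x, g0 g (τ x) = g0 g x := by
    intro g x
    by_cases h1 : x ≤ τ x
    · by_cases h2 : τ x ≤ τ (τ x)
      · have h3 : τ x = x := le_antisymm (by rw [h] at h2; exact h2) h1
        rw [h3]
      · show (if hx : τ x ≤ τ (τ x) then g ⟨τ x, hx⟩ else g ⟨τ (τ x), hS (τ x) hx⟩) =
          if hx : x ≤ τ x then g ⟨x, hx⟩ else g ⟨τ x, hS x hx⟩
        rw [dif_neg h2, dif_pos h1]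
        congr 1
        exact Subtype.ext (h x)
    · have h2 := hS x h1
      show (if hx : τ x ≤ τ (τ x) then g ⟨τ x, hx⟩ else g ⟨τ (τ x), hS (τ x) hx⟩) =
          if hx : x ≤ τ x then g ⟨x, hx⟩ else g ⟨τ x, hS x hx⟩
      rw [dif_pos h2, dif_neg h1]
  let L : inv τ ≃ₗ[ZMod 2] ({x : X // x ≤ τ x} → ZMod 2) :=
    { toFun := fun u x => u.1 x.1
      map_add' := fun _ _ => rfl
      map_smul' := fun _ _ => rfl
      invFun := fun g => ⟨g0 g, hg0 g⟩
      left_inv := by
        rintro ⟨u, hu⟩
        apply Subtype.ext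
        funext x
        show (if hx : x ≤ τ x then u x else u (τ x)) = u x
        by_cases h1 : x ≤ τ x
        · rw [dif_pos h1]
        · rw [dif_neg h1]
          exact hu x
      right_inv := by
        intro g
        funext x
        show (if hx : x.1 ≤ τ x.1 then g ⟨x.1, hx⟩ else g ⟨τ x.1, hS x.1 hx⟩) = g x
        rw [dif_pos x.2] }
  rw [L.finrank_eq, Module.finrank_fintype_fun_eq_card]
  have h1 : Fintype.card {x : X // x ≤ τ x} = Fintype.card {x : X // τ x ≤ x} := by
    refine Fintype.card_congr ⟨fun x => ⟨τ x.1, by rw [h]; exact x.2⟩,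
      fun x => ⟨τ x.1, by rw [h]; exact x.2⟩, fun x => Subtype.ext (h _), fun x => Subtype.ext (h _)⟩
  have h2 : Fintype.card {x : X // x ≤ τ x} + Fintype.card {x : X // τ x ≤ x} =
      Fintype.card X + Fintype.card {x : X // τ x = x} := by
    rw [Fintype.card_subtype, Fintype.card_subtype, Fintype.card_subtype,
      ← Finset.card_union_add_card_inter, ← Finset.filter_or, ← Finset.filter_and]
    congr 1
    · rw [Finset.filter_true_of_mem (fun x _ => le_total x (τ x)), Finset.card_univ]
    · congr 1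
      apply Finset.filter_congr
      intro x _
      constructor
      · rintro ⟨a, b⟩
        exact le_antisymm b a
      · intro a
        exact ⟨a.symm.le, a.le⟩
  rw [Nat.card_eq_fintype_card, Nat.card_eq_fintype_card, ← h2, ← h1]
  ring

end Pool.Agent.H34.GC
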