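import Pool.Agent.H34.GC.Def
import Pool.Agent.H34.GC.A1

set_option autoImplicit false

/-! # [H34 GC A2] lower bound for the functions invariant under two involutions -/

namespace Pool.Agent.H34.GC

open Pool.Agent.H34.PM Finset Module

variable {X V E Φ : Type}

/-- an invariant function has sum 0 over a set without fixed points -/
private theorem sum_inv [Fintype X] (τ : X → X) (h : ∀ x, τ (τ x) = x) (s : Finset X)
    (hs : ∀ x ∈ s, τ x ∈ s) (hf : ∀ x ∈ s, τ x ≠ x) (u : X → ZMod 2) (hu : u ∈ inv τ) :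
    ∑ x ∈ s, u x = 0 := by
  refine Finset.sum_involution (fun a _ => τ a) (fun a _ => ?_) (fun a ha _ => hf a ha)
    (fun a ha => hs a ha) (fun a _ => h a)
  rw [mem_inv.1 hu a]
  exact CharTwo.add_self_eq_zero _

/-- A2, with the dimensions of the two spaces as hypotheses -/
private theorem lb_of [Fintype X] [Fintype V] (σ γ : X → X) (hσ : ∀ x, σ (σ x) = x)
    (hγ : ∀ x, γ (γ x) = x)
    (hne : ∀ x, σ x ≠ x) (g : X → V) (gσ : ∀ x, g (σ x) = g x) (gγ : ∀ x, g (γ x) = g x)
    (I : Finset V) (hI : ∀ x, γ x = x → g x ∉ I) (hs : ∀ i ∈ I, ∃ x, g x = i)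
    (d1 : 2 * finrank (ZMod 2) (inv σ) = Nat.card X + Nat.card {x // σ x = x})
    (d2 : 2 * finrank (ZMod 2) (inv γ) = Nat.card X + Nat.card {x // γ x = x}) :
    Nat.card {x // γ x = x} + 2 * I.card ≤
      2 * finrank (ZMod 2) (inv σ ⊓ inv γ : Submodule (ZMod 2) (X → ZMod 2)) := by
  classical
  let L : (X → ZMod 2) →ₗ[ZMod 2] (I → ZMod 2) :=
    { toFun := fun u i => ∑ x ∈ univ.filter (fun x => g x = i.1), u x
      map_add' := by
        intro a b
        funext i
        simp only [Pi.add_apply, Finset.sum_add_distrib]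
      map_smul' := by
        intro c a
        funext i
        simp only [Pi.smul_apply, smul_eq_mul, RingHom.id_apply, Finset.mul_sum] }
  choose r hr using hs
  have hsurj : Function.Surjective L := by
    intro t
    refine ⟨fun x => if h : g x ∈ I then (if x = r (g x) h then t ⟨g x, h⟩ else 0) else 0, ?_⟩
    funext i
    show ∑ x ∈ univ.filter (fun x => g x = i.1),
      (if h : g x ∈ I then (if x = r (g x) h then t ⟨g x, h⟩ else 0) else 0) = t i
    rw [Finset.sum_eq_single (r i.1 i.2)]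
    · have h1 : g (r i.1 i.2) = i.1 := hr i.1 i.2
      have h2 : g (r i.1 i.2) ∈ I := by rw [h1]; exact i.2
      have h3 : (⟨g (r i.1 i.2), h2⟩ : I) = i := Subtype.ext h1
      rw [dif_pos h2, if_pos (by congr 1; exact h1.symm), h3]
    · intro x hx hxr
      rw [Finset.mem_filter] at hx
      have h2 : g x ∈ I := by rw [hx.2]; exact i.2
      rw [dif_pos h2, if_neg]
      intro h3
      apply hxr
      rw [h3]
      congr 1
      exact hx.2
    · intro h1
      exact (h1 (Finset.mem_filter.2 ⟨Finset.mem_univ _, hr i.1 i.2⟩)).elim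
  have hker : (inv σ ⊔ inv γ : Submodule (ZMod 2) (X → ZMod 2)) ≤ LinearMap.ker L := by
    refine sup_le ?_ ?_
    · intro u hu
      rw [LinearMap.mem_ker]
      funext i
      refine sum_inv σ hσ _ (fun x hx => ?_) (fun x _ => hne x) u hu
      rw [Finset.mem_filter] at hx ⊢
      exact ⟨Finset.mem_univ _, (gσ x).trans hx.2⟩
    · intro u hu
      rw [LinearMap.mem_ker]
      funext i
      refine sum_inv γ hγ _ (fun x hx => ?_) (fun x hx hfix => ?_) u hu
      · rw [Finset.mem_filter] at hx ⊢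
        exact ⟨Finset.mem_univ _, (gγ x).trans hx.2⟩
      · rw [Finset.mem_filter] at hx
        apply hI x hfix
        rw [hx.2]
        exact i.2
  have h1 : finrank (ZMod 2) (inv σ ⊔ inv γ : Submodule (ZMod 2) (X → ZMod 2)) ≤
      finrank (ZMod 2) (LinearMap.ker L) := Submodule.finrank_mono hker
  have h2 := LinearMap.finrank_range_add_finrank_ker L
  rw [LinearMap.range_eq_top.2 hsurj, finrank_top, Module.finrank_fintype_fun_eq_card,
    Module.finrank_fintype_fun_eq_card, Fintype.card_coe] at h2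
  have h3 := Submodule.finrank_sup_add_finrank_inf_eq (inv σ) (inv γ)
  have h4 : Nat.card {x // σ x = x} = 0 := by
    rw [Nat.card_eq_zero]
    exact Or.inl ⟨fun x => hne x.1 x.2⟩
  rw [Nat.card_eq_fintype_card (α := X)] at d1 d2
  omega

/-- A2 -/
theorem lb [Fintype X] [Fintype V] (σ γ : X → X) (hσ : ∀ x, σ (σ x) = x) (hγ : ∀ x, γ (γ x) = x)
    (hne : ∀ x, σ x ≠ x) (g : X → V) (gσ : ∀ x, g (σ x) = g x) (gγ : ∀ x, g (γ x) = g x)
    (I : Finset V) (hI : ∀ x, γ x = x → g x ∉ I) (hs : ∀ i ∈ I, ∃ x, g x = i) :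
    Nat.card {x // γ x = x} + 2 * I.card ≤
      2 * finrank (ZMod 2) (inv σ ⊓ inv γ : Submodule (ZMod 2) (X → ZMod 2)) :=
  lb_of σ γ hσ hγ hne g gσ gγ I hI hs (inv_finrank σ hσ) (inv_finrank γ hγ)

end Pool.Agent.H34.GC
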