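import Pool.Agent.H34.GC.Def

set_option autoImplicit false

/-! # [H34 GC A3] the sums over the flags of the edges -/

namespace Pool.Agent.H34.GC

open Pool.Agent.H34.PM Finset Module

variable {X V E Φ : Type}

open Classical in
private noncomputable def rs [Fintype X] (e : X → E) : (X → ZMod 2) →ₗ[ZMod 2] (E → ZMod 2) where
  toFun u p := ∑ x, if e x = p then u x else 0
  map_add' := by
    intro u w
    funext p
    simp only [Pi.add_apply]
    rw [← Finset.sum_add_distrib]
    refine Finset.sum_congr rfl fun x _ => ?_
    split_ifs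
    · rfl
    · rw [add_zero]
  map_smul' := by
    intro c u
    funext p
    simp only [Pi.smul_apply, RingHom.id_apply]
    rw [Finset.smul_sum]
    refine Finset.sum_congr rfl fun x _ => ?_
    split_ifs
    · rfl
    · rw [smul_zero]

open Classical in
private lemma rs_apply [Fintype X] (e : X → E) (u : X → ZMod 2) (p : E) :
    rs e u p = ∑ x, if e x = p then u x else 0 := rfl

private lemma rs_single [Fintype X] [DecidableEq X] [DecidableEq E] (e : X → E) (y : X) :
    rs e (Pi.single y 1) = Pi.single (e y) 1 := by
  funext p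
  rw [rs_apply, Finset.sum_eq_single y]
  · rw [Pi.single_eq_same]
    by_cases h : e y = p
    · rw [if_pos h, h, Pi.single_eq_same]
    · rw [if_neg h, Pi.single_eq_of_ne (Ne.symm h)]
  · intro x _ hx
    rw [Pi.single_eq_of_ne hx, ite_self]
  · intro h
    exact absurd (Finset.mem_univ y) h

private lemma rs_ker [Fintype X] (e : X → E) (β : X → X) (hβ : ∀ x, β (β x) = x)
    (β_ne : ∀ x, β x ≠ x) (eβ : ∀ x, e (β x) = e x) {u : X → ZMod 2} (hu : ∀ x, u (β x) = u x) :
    rs e u = 0 := by
  classical
  funext p
  rw [rs_apply, Pi.zero_apply]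
  refine Finset.sum_involution (fun x _ => β x) ?_ ?_ ?_ ?_
  · intro x _
    have hself : ∀ t : ZMod 2, t + t = 0 := by decide
    rw [eβ, hu]
    exact hself _
  · intro x _ _
    exact β_ne x
  · intro x _
    exact Finset.mem_univ _
  · intro x _
    exact hβ x

/-- A3 -/
theorem up [Fintype X] [Fintype E] (α β γ : X → X) (hα : ∀ x, α (α x) = x) (hβ : ∀ x, β (β x) = x)
    (hγ : ∀ x, γ (γ x) = x) (α_ne : ∀ x, α x ≠ x) (β_ne : ∀ x, β x ≠ x) (e : X → E)
    (eα : ∀ x, e (α x) = e x) (eβ : ∀ x, e (β x) = e x)
    (hZ : ∀ z : E → ZMod 2, (∀ x, z (e (γ x)) = z (e x)) → (∀ x, γ x = x → z (e x) = 0) → z = 0) :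
    finrank (ZMod 2) ((inv β ⊓ inv γ) ⊔ (inv α ⊓ inv γ) : Submodule (ZMod 2) (X → ZMod 2)) +
      Nat.card E ≤ finrank (ZMod 2) (inv γ) := by
  classical
  set R := (rs e).domRestrict (inv γ) with hR
  have hsurj : LinearMap.range R = ⊤ := by
    by_contra hne
    obtain ⟨φ, hφ0, hφ⟩ := Submodule.exists_le_ker_of_lt_top _ (lt_top_iff_ne_top.mpr hne)
    have hφu : ∀ u ∈ inv γ, φ (rs e u) = 0 := by
      intro u hu
      exact hφ ⟨⟨u, hu⟩, rfl⟩
    have hz0 : (fun p => φ (Pi.single p 1)) = 0 := by
      apply hZ
      · intro y
        have hmem : (Pi.single y 1 + Pi.single (γ y) 1 : X → ZMod 2) ∈ inv γ := by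
          rw [mem_inv]
          intro x
          simp only [Pi.add_apply, Pi.single_apply]
          have h1 : (γ x = y) ↔ (x = γ y) := by
            constructor
            · intro h
              rw [← h, hγ]
            · intro h
              rw [h, hγ]
          have h2 : (γ x = γ y) ↔ (x = y) := by
            constructor
            · intro h
              rw [← hγ x, h, hγ]
            · intro h
              rw [h]
          simp only [h1, h2]
          rw [add_comm]
        have h3 := hφu _ hmem
        rw [map_add, map_add, rs_single, rs_single] at h3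
        have key : ∀ s t : ZMod 2, s + t = 0 → t = s := by decide
        exact key _ _ h3
      · intro y hy
        have hmem : (Pi.single y 1 : X → ZMod 2) ∈ inv γ := by
          rw [mem_inv]
          intro x
          simp only [Pi.single_apply]
          have h1 : (γ x = y) ↔ (x = y) := by
            constructor
            · intro h
              rw [← hγ x, h, hy]
            · intro h
              rw [h, hy]
          simp only [h1]
        have h3 := hφu _ hmem
        rw [rs_single] at h3
        exact h3
    apply hφ0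
    apply LinearMap.pi_ext'
    intro p
    ext
    simpa using congrFun hz0 p
  have hle : ((inv β ⊓ inv γ) ⊔ (inv α ⊓ inv γ) : Submodule (ZMod 2) (X → ZMod 2)) ≤ inv γ :=
    sup_le inf_le_right inf_le_right
  have hker : Submodule.comap (inv γ).subtype
      ((inv β ⊓ inv γ) ⊔ (inv α ⊓ inv γ) : Submodule (ZMod 2) (X → ZMod 2)) ≤
      LinearMap.ker R := by
    intro u hu
    rw [Submodule.mem_comap, Submodule.subtype_apply, Submodule.mem_sup] at hu
    obtain ⟨a, ha, b, hb, hab⟩ := hu
    rw [LinearMap.mem_ker, hR, LinearMap.domRestrict_apply, ← hab, map_add,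
      rs_ker e β hβ β_ne eβ (mem_inv.mp ha.1), rs_ker e α hα α_ne eα (mem_inv.mp hb.1), add_zero]
  have h1 := LinearMap.finrank_range_add_finrank_ker R
  have h2 := Submodule.finrank_mono hker
  have h3 := (Submodule.comapSubtypeEquivOfLe hle).finrank_eq
  rw [hsurj, finrank_top, Module.finrank_fintype_fun_eq_card] at h1
  rw [Nat.card_eq_fintype_card]
  omega

end Pool.Agent.H34.GC
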