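import Pool.Agent.H34.GC.Def

set_option autoImplicit false

/-!
# [H34 GC A4] Functions invariant under `α`, `β`, `γ` (helper22)
-/

namespace Pool.Agent.H34.GC

open Pool.Agent.H34.PM Finset Module

variable {X V E Φ : Type}

/-- A4 -/
theorem kb [Fintype X] (α β γ : X → X)
    (hO : ∀ O : Set X, Cl α β γ O → O.Nonempty → 4 ≤ Nat.card {x // x ∈ O ∧ γ x = x}) :
    4 * finrank (ZMod 2) (inv α ⊓ inv β ⊓ inv γ : Submodule (ZMod 2) (X → ZMod 2)) ≤
      Nat.card {x // γ x = x} := by
  classical
  obtain ⟨W, hW⟩ : ∃ W : Submodule (ZMod 2) (X → ZMod 2), W = inv α ⊓ inv β ⊓ inv γ := ⟨_, rfl⟩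
  rw [← hW]
  have hinv : ∀ u ∈ W, (∀ x, u (α x) = u x) ∧ (∀ x, u (β x) = u x) ∧ ∀ x, u (γ x) = u x := by
    intro u hu
    rw [hW] at hu
    exact ⟨hu.1.1, hu.1.2, hu.2⟩
  let S : Setoid X := ⟨fun x y => ∀ u ∈ W, u x = u y, fun x u _ => rfl,
    fun h u hu => (h u hu).symm, fun h1 h2 u hu => (h1 u hu).trans (h2 u hu)⟩
  have : Fintype (Quotient S) := Fintype.ofFinite _
  have h1 : finrank (ZMod 2) W ≤ Fintype.card (Quotient S) := by
    let φ : W →ₗ[ZMod 2] (Quotient S → ZMod 2) :=
      { toFun := fun u q => Quotient.lift (fun x => u.1 x) (fun x y (h : ∀ u ∈ W, u x = u y) => h u.1 u.2) q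
        map_add' := by
          intro u w
          funext q
          induction q using Quotient.ind
          rfl
        map_smul' := by
          intro c u
          funext q
          induction q using Quotient.ind
          rfl }
    have hφ : Function.Injective φ := by
      intro u w h
      apply Subtype.ext
      funext x
      exact congrFun h (Quotient.mk S x)
    have h2 := LinearMap.finrank_le_finrank_of_injective hφ
    rwa [Module.finrank_fintype_fun_eq_card] at h2
  have h2 : 4 * Fintype.card (Quotient S) ≤ Nat.card {x // γ x = x} := by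
    have h3 : Nat.card {x // γ x = x} =
        ∑ q : Quotient S, Nat.card {x : {x // γ x = x} // Quotient.mk S x.1 = q} := by
      rw [← Nat.card_sigma]
      exact Nat.card_congr (Equiv.sigmaFiberEquiv (fun x : {x // γ x = x} => Quotient.mk S x.1)).symm
    rw [h3]
    have h5 : 4 * Fintype.card (Quotient S) = ∑ _q : Quotient S, 4 := by
      rw [Finset.sum_const, Finset.card_univ, smul_eq_mul, mul_comm]
    rw [h5]
    refine Finset.sum_le_sum fun q _ => ?_
    induction q using Quotient.ind with
    | _ x =>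
    have h4 := hO {y | Quotient.mk S y = Quotient.mk S x} ?_ ⟨x, rfl⟩
    · refine h4.trans (le_of_eq (Nat.card_congr ?_))
      exact ⟨fun y => ⟨⟨y.1, y.2.2⟩, y.2.1⟩, fun y => ⟨y.1.1, y.2, y.1.2⟩, fun _ => rfl, fun _ => rfl⟩
    · intro y hy
      have hy' : Quotient.mk S y = Quotient.mk S x := hy
      refine ⟨?_, ?_, ?_⟩
      · exact (Quotient.sound (s := S) fun u hu => (hinv u hu).1 y).trans hy'
      · exact (Quotient.sound (s := S) fun u hu => (hinv u hu).2.1 y).trans hy'
      · exact (Quotient.sound (s := S) fun u hu => (hinv u hu).2.2 y).trans hy'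
  omega

end Pool.Agent.H34.GC
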