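import Pool.Agent.H34.GC.Def

set_option autoImplicit false

/-!
# [H34 GC Four] Piece A5: a nonempty closed set of flags has at least four fixed points of `γ`
-/

namespace Pool.Agent.H34.GC

open Pool.Agent.H34.PM Finset Module

variable {X V E Φ : Type}

/-- An involution `γ` of a finite set which has also an involution without fixed points has an even
number of fixed points; so a fixed point has a partner. -/
private theorem partner (Z : Finset X) (σ γ : X → X) (hσ : ∀ y ∈ Z, σ y ∈ Z) (σσ : ∀ y, σ (σ y) = y)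
    (σne : ∀ y, σ y ≠ y) (hγ : ∀ y ∈ Z, γ y ∈ Z) (γγ : ∀ y, γ (γ y) = y) (x : X) (hx : x ∈ Z)
    (hxγ : γ x = x) : ∃ y ∈ Z, γ y = y ∧ y ≠ x := by
  classical
  have e1 : ∑ y ∈ Z, (1 : ZMod 2) = 0 :=
    Finset.sum_involution (fun y _ => σ y) (fun y _ => by decide) (fun y _ _ => σne y)
      (fun y hy => hσ y hy) (fun y _ => σσ y)
  have e2 : ∑ y ∈ Z, (if γ y = y then (0 : ZMod 2) else 1) = 0 := by
    refine Finset.sum_involution (fun y _ => γ y) (fun y _ => ?_) (fun y _ hne => ?_)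
      (fun y hy => hγ y hy) (fun y _ => γγ y)
    · by_cases h : γ y = y
      · have h2 : γ (γ y) = γ y := by rw [h, h]
        rw [if_pos h, if_pos h2, add_zero]
      · have h2 : ¬ γ (γ y) = γ y := fun h3 => h (by rw [γγ] at h3; exact h3.symm)
        rw [if_neg h, if_neg h2]
        decide
    · intro h
      rw [if_pos h] at hne
      exact hne rfl
  have e3 : ∑ y ∈ Z, (if γ y = y then (1 : ZMod 2) else 0) = 0 := by
    have e4 : ∑ y ∈ Z, (1 : ZMod 2) = ∑ y ∈ Z, (if γ y = y then (1 : ZMod 2) else 0) +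
        ∑ y ∈ Z, (if γ y = y then (0 : ZMod 2) else 1) := by
      rw [← Finset.sum_add_distrib]
      refine Finset.sum_congr rfl fun y _ => ?_
      by_cases h : γ y = y
      · rw [if_pos h, if_pos h, add_zero]
      · rw [if_neg h, if_neg h, zero_add]
    rw [e1, e2, add_zero] at e4
    exact e4.symm
  rw [Finset.sum_boole, ZMod.natCast_eq_zero_iff] at e3
  have hmem : x ∈ Z.filter fun y => γ y = y := Finset.mem_filter.mpr ⟨hx, hxγ⟩
  have hpos : 0 < (Z.filter fun y => γ y = y).card := Finset.card_pos.mpr ⟨x, hmem⟩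
  have h1 : 1 < (Z.filter fun y => γ y = y).card := by omega
  obtain ⟨y, hy, hne⟩ := Finset.exists_mem_ne h1 x
  rw [Finset.mem_filter] at hy
  exact ⟨y, hy.1, hy.2, hne⟩

/-- A5 -/
theorem four [Fintype X] {α β γ : X → X} {v : X → V} {e : X → E} {f : X → Φ}
    (h : Sys α β γ v e f)
    (hinj : ∀ x y, γ x = x → γ y = y → v x = v y → f x = f y → x = y)
    (hO : ∀ O : Set X, Cl α β γ O → O.Nonempty → ∃ x ∈ O, γ x = x)
    (O : Set X) (hc : Cl α β γ O) (hn : O.Nonempty) : 4 ≤ Nat.card {x // x ∈ O ∧ γ x = x} := by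
  classical
  obtain ⟨x, hxO, hx⟩ := hO O hc hn
  have row : ∀ y ∈ O, γ y = y → ∃ z ∈ O, v z = v y ∧ γ z = z ∧ z ≠ y := by
    intro y hy hyγ
    obtain ⟨z, hz, hz1, hz2⟩ := partner (Finset.univ.filter fun z => z ∈ O ∧ v z = v y) β γ
      (fun z hz => by
        rw [Finset.mem_filter] at hz ⊢
        exact ⟨Finset.mem_univ _, (hc z hz.2.1).2.1, (h.v_β z).trans hz.2.2⟩) h.β_β h.β_ne
      (fun z hz => by
        rw [Finset.mem_filter] at hz ⊢
        exact ⟨Finset.mem_univ _, (hc z hz.2.1).2.2, (h.v_γ z).trans hz.2.2⟩) h.γ_γ y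
      (Finset.mem_filter.mpr ⟨Finset.mem_univ _, hy, rfl⟩) hyγ
    rw [Finset.mem_filter] at hz
    exact ⟨z, hz.2.1, hz.2.2, hz1, hz2⟩
  have col : ∀ y ∈ O, γ y = y → ∃ z ∈ O, f z = f y ∧ γ z = z ∧ z ≠ y := by
    intro y hy hyγ
    obtain ⟨z, hz, hz1, hz2⟩ := partner (Finset.univ.filter fun z => z ∈ O ∧ f z = f y) α γ
      (fun z hz => by
        rw [Finset.mem_filter] at hz ⊢
        exact ⟨Finset.mem_univ _, (hc z hz.2.1).1, (h.f_α z).trans hz.2.2⟩) h.α_α h.α_ne
      (fun z hz => by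
        rw [Finset.mem_filter] at hz ⊢
        exact ⟨Finset.mem_univ _, (hc z hz.2.1).2.2, (h.f_γ z).trans hz.2.2⟩) h.γ_γ y
      (Finset.mem_filter.mpr ⟨Finset.mem_univ _, hy, rfl⟩) hyγ
    rw [Finset.mem_filter] at hz
    exact ⟨z, hz.2.1, hz.2.2, hz1, hz2⟩
  obtain ⟨x1, h1O, h1v, h1, h1n⟩ := row x hxO hx
  obtain ⟨x2, h2O, h2f, h2, h2n⟩ := col x hxO hx
  obtain ⟨x3, h3O, h3v, h3, h3n⟩ := row x2 h2O h2
  have hv : v x2 ≠ v x := fun h4 => h2n (hinj x2 x h2 hx h4 h2f)
  have n20 : x2 ≠ x := h2n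
  have n21 : x2 ≠ x1 := fun h4 => hv (by rw [h4, h1v])
  have n30 : x3 ≠ x := fun h4 => hv (by rw [← h3v, h4])
  have n31 : x3 ≠ x1 := fun h4 => hv (by rw [← h3v, h4, h1v])
  have hcard : ({x, x1, x2, x3} : Finset X).card = 4 := by
    rw [Finset.card_insert_of_notMem, Finset.card_insert_of_notMem, Finset.card_insert_of_notMem,
      Finset.card_singleton]
    · rw [Finset.mem_singleton]
      exact h3n.symm
    · rw [Finset.mem_insert, Finset.mem_singleton]
      rintro (h4 | h4)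
      · exact n21 h4.symm
      · exact n31 h4.symm
    · rw [Finset.mem_insert, Finset.mem_insert, Finset.mem_singleton]
      rintro (h4 | h4 | h4)
      · exact h1n h4.symm
      · exact n20 h4.symm
      · exact n30 h4.symm
  rw [Nat.card_eq_fintype_card, Fintype.card_subtype, ← hcard]
  refine Finset.card_le_card fun y hy => ?_
  rw [Finset.mem_insert, Finset.mem_insert, Finset.mem_insert, Finset.mem_singleton] at hy
  rw [Finset.mem_filter]
  rcases hy with rfl | rfl | rfl | rfl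
  · exact ⟨Finset.mem_univ _, hxO, hx⟩
  · exact ⟨Finset.mem_univ _, h1O, h1⟩
  · exact ⟨Finset.mem_univ _, h2O, h2⟩
  · exact ⟨Finset.mem_univ _, h3O, h3⟩

end Pool.Agent.H34.GC
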