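import Pool.Agent.H34.GC.Def
import Pool.Agent.H34.PM.CU

set_option autoImplicit false

/-!
# [H34 GC B1] A binary matroid with a graphic deletion is a graft (helper22)
-/

namespace Pool.Agent.H34.GC

open Pool.Agent.H34.PM Finset Module Matroid

variable {V E Φ : Type}

/-- B1 -/
theorem exists_graft [Fintype V] [Fintype E] {vtx : E → Finset V} {M : Matroid (Option E)}
    (hE : M.E = Set.univ) (hb : Rep (ZMod 2) M) (hcl : ¬ M.IsColoop none)
    (hd : M ＼ {none} = (cyc vtx).map some (Option.some_injective E).injOn) :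
    ∃ T : V → ZMod 2, M = lin (ZMod 2) (gft vtx T) ∧
      ∃ c : E → ZMod 2, ∀ v, ∑ p, c p * inc vtx p v = T v := by
  classical
  obtain ⟨W, i1, i2, v, hv'⟩ := hb
  have hv : ∀ I : Set (Option E), M.Indep I ↔ LinearIndepOn (ZMod 2) v I := fun I =>
    hv' I (by rw [hE]; exact Set.subset_univ _)
  let u : E → W := fun p => v (some p)
  have hA : ∀ I₀ : Set E, LinearIndepOn (ZMod 2) u I₀ ↔ LinearIndepOn (ZMod 2) (inc vtx) I₀ := by
    intro I₀
    have h1 : (M ＼ {none}).Indep (some '' I₀) ↔ LinearIndepOn (ZMod 2) (inc vtx) I₀ := by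
      rw [hd, map_image_indep_iff (Set.subset_univ _), cyc, lin_indep]
    have hdis : Disjoint (some '' I₀) ({none} : Set (Option E)) := by
      rw [Set.disjoint_singleton_right]
      simp
    rw [← h1, delete_indep_iff, hv]
    constructor
    · intro h3
      exact ⟨LinearIndepOn.image_of_comp some _ h3, hdis⟩
    · rintro ⟨h3, -⟩
      exact h3.comp_of_image (Option.some_injective E).injOn
  have hB : ∀ c : E → ZMod 2, ∑ p, c p • u p = 0 ↔ ∑ p, c p • inc vtx p = 0 := fun c =>
    ⟨rel_unique u (inc vtx) hA c, rel_unique (inc vtx) u (fun I => (hA I).symm) c⟩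
  have hspan : v none ∈ Submodule.span (ZMod 2) (Set.range u) := by
    by_contra hcon
    apply hcl
    rw [isColoop_iff_forall_mem_isBase]
    intro B hB'
    by_contra hn
    have h1 : LinearIndepOn (ZMod 2) v (insert none B) := by
      refine LinearIndepOn.insert ((hv B).1 hB'.indep) fun h2 => hcon ?_
      refine Submodule.span_mono ?_ h2
      rintro _ ⟨i, hi, rfl⟩
      cases i with
      | none => exact absurd hi hn
      | some p => exact ⟨p, rfl⟩
    have h2 := hB'.eq_of_subset_indep ((hv _).2 h1) (Set.subset_insert _ _)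
    exact hn (h2 ▸ Set.mem_insert _ _)
  obtain ⟨c, hc⟩ := (Submodule.mem_span_range_iff_exists_fun (ZMod 2)).1 hspan
  refine ⟨∑ p, c p • inc vtx p, ?_, c, fun x => ?_⟩
  · refine ext_indep (by rw [hE]; rfl) fun I _ => ?_
    rw [hv, lin_indep, ← not_iff_not, exists_rel, exists_rel]
    refine exists_congr fun d => and_congr_right fun _ => and_congr_right fun _ => ?_
    have h1 : ∑ i, d i • v i = ∑ p, (d none * c p + d (some p)) • u p := by
      rw [Fintype.sum_option, ← hc, Finset.smul_sum, ← Finset.sum_add_distrib]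
      refine Finset.sum_congr rfl fun p _ => ?_
      rw [add_smul, mul_smul]
    have h2 : ∑ i, d i • gft vtx (∑ p, c p • inc vtx p) i =
        ∑ p, (d none * c p + d (some p)) • inc vtx p := by
      rw [Fintype.sum_option]
      simp only [gft]
      rw [Finset.smul_sum, ← Finset.sum_add_distrib]
      refine Finset.sum_congr rfl fun p _ => ?_
      rw [add_smul, mul_smul]
    rw [h1, h2]
    exact hB _
  · rw [Finset.sum_apply]
    rfl

end Pool.Agent.H34.GC
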