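import Pool.Agent.H34.GC.Def
import Pool.Agent.H34.PM.CU
import Pool.Agent.H34.PM.Tri

set_option autoImplicit false

/-! # [H34 GC B2] the relations of `M / e` -/

namespace Pool.Agent.H34.GC

open Pool.Agent.H34.PM Finset Module Matroid

variable {V E Φ : Type}

private theorem b2_indep {F W : Type} [Field F] [AddCommGroup W] [Module F W] [Fintype E]
    (u : E → W) (I : Set E) :
    LinearIndepOn F u I ↔ ∀ c : E → F, (∀ p, p ∉ I → c p = 0) →
      ∑ p, c p • u p = 0 → ∀ p, c p = 0 := by
  classical
  rw [linearIndepOn_iff']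
  constructor
  · intro h c hc h0 p
    by_cases hp : p ∈ I
    · exact h (univ.filter (· ∈ I)) c (fun x hx => by simpa using hx)
        (by
          rw [Finset.sum_filter]
          refine Eq.trans ?_ h0
          refine Finset.sum_congr rfl fun q _ => ?_
          by_cases hq : q ∈ I
          · simp [hq]
          · simp [hq, hc q hq]) p (by simpa using hp)
    · exact hc p hp
  · intro h s g hs hg o ho
    have := h (fun q => if q ∈ s then g q else 0)
      (fun q hq => if_neg fun h1 => hq (hs h1)) (by
        rw [← hg]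
        have e1 : ∑ i ∈ s, g i • u i = ∑ i : E, if i ∈ s then g i • u i else 0 := by
          rw [Finset.sum_ite_mem, Finset.univ_inter]
        rw [e1]
        refine Finset.sum_congr rfl fun q _ => ?_
        by_cases hq : q ∈ s
        · simp [hq]
        · simp [hq]) o
    simpa [ho] using this

/-- The cut map. -/
private noncomputable def cutMap [Fintype Φ] (fac : E → Finset Φ) :
    (Φ → ZMod 2) →ₗ[ZMod 2] (E → ZMod 2) where
  toFun x := fun p => ∑ f, x f * inc fac p f
  map_add' x y := by
    ext p
    simp only [Pi.add_apply, add_mul, Finset.sum_add_distrib]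
  map_smul' r x := by
    ext p
    simp only [Pi.smul_apply, smul_eq_mul, RingHom.id_apply, Finset.mul_sum, mul_assoc]

private theorem b2_dual [Fintype E] [Fintype Φ] (fac : E → Finset Φ) (I : Set E) :
    (cyc fac)✶.Indep I ↔ ∀ x : Φ → ZMod 2,
      (∀ p, p ∉ I → ∑ f, x f * inc fac p f = 0) → ∀ p, ∑ f, x f * inc fac p f = 0 := by
  classical
  have hgr : (cyc fac).E = Set.univ := rfl
  have r2 : (cyc fac)✶.Indep I ↔ ∀ p, inc fac p ∈
      Submodule.span (ZMod 2) (inc fac '' Iᶜ) := by
    rw [← Matroid.coindep_def, Matroid.coindep_iff_compl_spanning (by rw [hgr]; exact Set.subset_univ _),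
      Matroid.spanning_iff_closure_eq (by rw [hgr]; exact Set.subset_univ _), hgr, Set.eq_univ_iff_forall,
      ← Set.compl_eq_univ_sdiff]
    exact forall_congr' fun p => lin_closure (ZMod 2) (inc fac) _ p
  rw [r2]
  constructor
  · intro h1 x hx p
    have h2 : Submodule.span (ZMod 2) (inc fac '' Iᶜ) ≤
        LinearMap.ker (Fintype.linearCombination (ZMod 2) (M := ZMod 2) x) := by
      rw [Submodule.span_le]
      rintro _ ⟨q, hq, rfl⟩
      have h3 := hx q hq
      simp only [SetLike.mem_coe, LinearMap.mem_ker, Fintype.linearCombination_apply, smul_eq_mul]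
      rw [← h3]
      exact Finset.sum_congr rfl fun f _ => mul_comm _ _
    have h4 := h2 (h1 p)
    simp only [LinearMap.mem_ker, Fintype.linearCombination_apply, smul_eq_mul] at h4
    rw [← h4]
    exact Finset.sum_congr rfl fun f _ => mul_comm _ _
  · intro h1 p
    by_contra h2
    obtain ⟨F, hF, hker⟩ := Submodule.exists_le_ker_of_notMem h2
    have hrep : ∀ y : Φ → ZMod 2, F y = ∑ f, F (Pi.single f 1) * y f := by
      intro y
      rw [LinearMap.pi_apply_eq_sum_univ F y]
      refine Finset.sum_congr rfl fun f _ => ?_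
      rw [smul_eq_mul, mul_comm]
      congr 2
      ext g
      by_cases hg : f = g
      · subst hg; simp
      · simp [hg, Ne.symm hg]
    apply hF
    rw [hrep]
    refine h1 (fun f => F (Pi.single f 1)) (fun q hq => ?_) p
    rw [← hrep]
    exact hker (Submodule.subset_span ⟨q, hq, rfl⟩)

/-- Independence in the contraction of `none`: independence modulo `T`. -/
private theorem b2_quot [Fintype V] [Fintype E] (vtx : E → Finset V) {T : V → ZMod 2} (hT : T ≠ 0)
    (I : Set E) :
    LinearIndepOn (ZMod 2) (gft vtx T) (insert none (some '' I)) ↔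
      LinearIndepOn (ZMod 2) (fun p => Submodule.mkQ (Submodule.span (ZMod 2) {T}) (inc vtx p)) I := by
  classical
  rw [b2_indep, b2_indep]
  have hs : ∀ c : E → ZMod 2, ∑ p, c p • Submodule.mkQ (Submodule.span (ZMod 2) {T}) (inc vtx p) =
      Submodule.mkQ (Submodule.span (ZMod 2) {T}) (∑ p, c p • inc vtx p) := by
    intro c
    rw [map_sum]
    exact Finset.sum_congr rfl fun p _ => (map_smul _ _ _).symm
  constructor
  · intro h c hc h0 p
    rw [hs, Submodule.mkQ_apply, Submodule.Quotient.mk_eq_zero, Submodule.mem_span_singleton] at h0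
    obtain ⟨a, ha⟩ := h0
    have h1 := h (fun o => match o with | none => - a | some p => c p) (by
      rintro (_ | q) hq
      · exact absurd (Set.mem_insert _ _) hq
      · exact hc q (fun h2 => hq (Set.mem_insert_of_mem _ ⟨q, h2, rfl⟩))) (by
      rw [Fintype.sum_option]
      show - a • T + ∑ p, c p • inc vtx p = 0
      rw [← ha, neg_smul, neg_add_cancel]) (some p)
    exact h1
  · intro h c hc h0
    rw [Fintype.sum_option] at h0
    have h0' : c none • T + ∑ p, c (some p) • inc vtx p = 0 := h0
    have h1 := h (fun p => c (some p)) (fun p hp => hc (some p) (by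
      rintro (h2 | ⟨q, hq, h2⟩)
      · exact Option.some_ne_none _ h2
      · exact hp (Option.some.inj h2 ▸ hq))) (by
      rw [hs, Submodule.mkQ_apply, Submodule.Quotient.mk_eq_zero, Submodule.mem_span_singleton]
      refine ⟨- c none, ?_⟩
      rw [neg_smul]
      exact (eq_neg_of_add_eq_zero_right h0').symm)
    rintro (_ | p)
    · have h2 : c none • T = 0 := by
        rw [← h0']
        have : ∑ p, c (some p) • inc vtx p = 0 :=
          Finset.sum_eq_zero fun p _ => by rw [h1 p, zero_smul]
        rw [this, add_zero]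
      rcases smul_eq_zero.mp h2 with h3 | h3
      · exact h3
      · exact absurd h3 hT
    · exact h1 p

/-- B2 -/
theorem rel_of_contract [Fintype V] [Fintype E] [Fintype Φ] {vtx : E → Finset V}
    {fac : E → Finset Φ} {T : V → ZMod 2} (hT : T ≠ 0)
    (hc : (lin (ZMod 2) (gft vtx T)) ／ {none} =
      ((cyc fac)✶).map some (Option.some_injective E).injOn) (c : E → ZMod 2) :
    (∃ s : ZMod 2, ∀ v, ∑ p, c p * inc vtx p v = s * T v) ↔ IsCut fac c := by
  classical
  let v : E → (V → ZMod 2) ⧸ Submodule.span (ZMod 2) {T} :=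
    fun p => Submodule.mkQ (Submodule.span (ZMod 2) {T}) (inc vtx p)
  let u : E → (E → ZMod 2) ⧸ LinearMap.range (cutMap fac) :=
    fun p => Submodule.mkQ _ (Function.update (0 : E → ZMod 2) p 1)
  have hv : ∀ c : E → ZMod 2, ∑ p, c p • v p = 0 ↔
      ∃ s : ZMod 2, ∀ x, ∑ p, c p * inc vtx p x = s * T x := by
    intro c
    have hs : ∑ p, c p • v p = Submodule.mkQ (Submodule.span (ZMod 2) {T}) (∑ p, c p • inc vtx p) := by
      rw [map_sum]
      exact Finset.sum_congr rfl fun p _ => (map_smul _ _ _).symm
    rw [hs, Submodule.mkQ_apply, Submodule.Quotient.mk_eq_zero, Submodule.mem_span_singleton]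
    refine exists_congr fun a => ?_
    rw [funext_iff]
    refine forall_congr' fun x => ?_
    simp only [Finset.sum_apply, Pi.smul_apply, smul_eq_mul]
    exact eq_comm
  have hu : ∀ c : E → ZMod 2, ∑ p, c p • u p = 0 ↔ IsCut fac c := by
    intro c
    have hs : ∑ p, c p • u p = Submodule.mkQ (LinearMap.range (cutMap fac)) c := by
      simp only [u, ← map_smul, ← map_sum]
      congr 1
      ext q
      simp only [Finset.sum_apply, Pi.smul_apply, smul_eq_mul]
      rw [Finset.sum_eq_single q]
      · simp
      · intro p _ hpq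
        rw [Function.update_of_ne (Ne.symm hpq)]
        simp
      · intro hq
        exact absurd (Finset.mem_univ q) hq
    rw [hs, Submodule.mkQ_apply, Submodule.Quotient.mk_eq_zero]
    constructor
    · rintro ⟨x, rfl⟩
      exact ⟨x, fun p => rfl⟩
    · rintro ⟨x, hx⟩
      exact ⟨x, (funext hx).symm⟩
  have hmain : ∀ I : Set E, LinearIndepOn (ZMod 2) v I ↔ LinearIndepOn (ZMod 2) u I := by
    intro I
    have hnl : (lin (ZMod 2) (gft vtx T)).IsNonloop none := by
      rw [← Matroid.indep_singleton, lin_indep, linearIndepOn_singleton_iff (ZMod 2)]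
      exact hT
    have h1 : LinearIndepOn (ZMod 2) v I ↔
        ((lin (ZMod 2) (gft vtx T)) ／ {none}).Indep (some '' I) := by
      rw [hnl.contractElem_indep_iff, lin_indep, b2_quot vtx hT I]
      constructor
      · intro h
        exact ⟨by simp, h⟩
      · rintro ⟨-, h⟩
        exact h
    have h2 : (((cyc fac)✶).map some (Option.some_injective E).injOn).Indep (some '' I) ↔
        (cyc fac)✶.Indep I := by
      rw [Matroid.map_indep_iff]
      constructor
      · rintro ⟨J, hJ, hIJ⟩
        rwa [(Option.some_injective E).image_injective hIJ]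
      · intro hJ
        exact ⟨_, hJ, rfl⟩
    rw [h1, hc, h2, b2_dual, b2_indep u I]
    constructor
    · intro h c hc h0
      obtain ⟨x, hx⟩ := (hu c).1 h0
      intro p
      rw [hx p]
      exact h x (fun q hq => by rw [← hx q]; exact hc q hq) p
    · intro h x hx p
      exact h (fun p => ∑ f, x f * inc fac p f) hx ((hu _).2 ⟨x, fun p => rfl⟩) p
  rw [← hv c, ← hu c]
  exact ⟨rel_unique v u hmain c, rel_unique u v (fun I => (hmain I).symm) c⟩

end Pool.Agent.H34.GC
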