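import Pool.Agent.H34.GC.Def
import Pool.Agent.H34.PM.Sig3

set_option autoImplicit false

/-! # [H34 GC B3] Euler's formula (helper3) -/

namespace Pool.Agent.H34.GC

open Pool.Agent.H34.PM Finset Module

variable {V E Φ : Type}

variable [Fintype V] [Fintype E] [Fintype Φ] {vtx : E → Finset V} {fac : E → Finset Φ}
  {T : V → ZMod 2}

/-- B3 -/
theorem GPair.euler [Nonempty V] [Nonempty Φ] (h : GPair vtx fac T) :
    Fintype.card V + Fintype.card Φ = Fintype.card E + 3 := by
  classical
  have d1 := rank_incM h.two_v h.conn_v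
  have d2 : Module.finrank (ZMod 2) (LinearMap.range (incM fac).mulVecLin) + 1 = Fintype.card Φ :=
    rank_incM h.two_f h.conn_f
  rw [← Matrix.rank_transpose] at d1
  let A : (E → ZMod 2) →ₗ[ZMod 2] (V → ZMod 2) := ((incM vtx).transpose).mulVecLin
  have hA : ∀ c v, A c v = ∑ p, c p * inc vtx p v := by
    intro c v
    simp only [A, Matrix.mulVecLin_apply, Matrix.mulVec, dotProduct, Matrix.transpose_apply, incM,
      Matrix.of_apply]
    exact Finset.sum_congr rfl fun p _ => mul_comm _ _
  have h1 := LinearMap.finrank_range_add_finrank_ker A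
  have h3 : Module.finrank (ZMod 2) (LinearMap.range A) = ((incM vtx).transpose).rank := rfl
  rw [h3, Module.finrank_fintype_fun_eq_card] at h1
  let L : Submodule (ZMod 2) (E → ZMod 2) := (Submodule.span (ZMod 2) {T}).comap A
  have hr : LinearMap.range (incM fac).mulVecLin = L := by
    ext c
    have h4 : c ∈ LinearMap.range (incM fac).mulVecLin ↔ IsCut fac c := by
      constructor
      · rintro ⟨x, rfl⟩
        refine ⟨x, fun p => ?_⟩
        simp [incM, Matrix.mulVec, dotProduct, mul_comm]
      · rintro ⟨x, hx⟩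
        refine ⟨x, ?_⟩
        ext p
        rw [hx]
        simp [incM, Matrix.mulVec, dotProduct, mul_comm]
    rw [h4, ← h.rel c, Submodule.mem_comap, Submodule.mem_span_singleton]
    constructor
    · rintro ⟨s, hs⟩
      refine ⟨s, ?_⟩
      funext v
      rw [hA, hs v, Pi.smul_apply, smul_eq_mul]
    · rintro ⟨s, hs⟩
      refine ⟨s, fun v => ?_⟩
      rw [← hA, ← hs, Pi.smul_apply, smul_eq_mul]
  have h5 := LinearMap.finrank_range_add_finrank_ker (A.domRestrict L)
  have h6 : (LinearMap.ker (A.domRestrict L)).map L.subtype = LinearMap.ker A := by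
    ext c
    simp only [Submodule.mem_map, LinearMap.mem_ker]
    constructor
    · rintro ⟨⟨y, hy⟩, h7, rfl⟩
      exact h7
    · intro ha
      refine ⟨⟨c, ?_⟩, ha, rfl⟩
      rw [Submodule.mem_comap, ha]
      exact Submodule.zero_mem _
  have h7 : LinearMap.range (A.domRestrict L) = Submodule.span (ZMod 2) {T} := by
    apply le_antisymm
    · rintro _ ⟨⟨y, hy⟩, rfl⟩
      exact hy
    · rw [Submodule.span_singleton_le_iff_mem]
      obtain ⟨c, hc⟩ := h.join
      have hcT : A c = T := by
        funext v
        rw [hA, hc v]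
      refine ⟨⟨c, ?_⟩, hcT⟩
      rw [Submodule.mem_comap, hcT]
      exact Submodule.mem_span_singleton_self T
  rw [h7, finrank_span_singleton h.ne, ← Submodule.finrank_map_subtype_eq, h6, ← hr] at h5
  omega

end Pool.Agent.H34.GC
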