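import Pool.Agent.H34.GC.Def

set_option autoImplicit false

/-! # [H34 GC B4] The vertex set of the second graph; cycles of `fac` are cuts of `vtx` -/

namespace Pool.Agent.H34.GC

open Pool.Agent.H34.PM Finset Module

variable {V E Φ : Type} [Fintype V] [Fintype E] [Fintype Φ] {vtx : E → Finset V} {fac : E → Finset Φ}
  {T : V → ZMod 2}

/-- B4a -/
theorem GPair.dual (h : GPair vtx fac T) :
    ∃ T' : Φ → ZMod 2, (∀ v f, ∑ p, inc vtx p v * inc fac p f = T v * T' f) ∧ T' ≠ 0 := by
  classical
  have h1 : ∀ f, ∃ s : ZMod 2, ∀ v, ∑ p, inc fac p f * inc vtx p v = s * T v := by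
    intro f
    refine (h.rel _).2 ⟨Pi.single f 1, fun p => ?_⟩
    rw [Finset.sum_eq_single f]
    · rw [Pi.single_eq_same, one_mul]
    · intro g _ hg
      rw [Pi.single_eq_of_ne hg, zero_mul]
    · intro hg
      exact absurd (Finset.mem_univ f) hg
  choose s hs using h1
  have h2 : ∀ v f, ∑ p, inc vtx p v * inc fac p f = T v * s f := by
    intro v f
    rw [mul_comm (T v), ← hs f v]
    exact Finset.sum_congr rfl fun p _ => mul_comm _ _
  refine ⟨s, h2, fun h0 => h.ne ?_⟩
  obtain ⟨c, hc⟩ := h.join
  obtain ⟨x, hx⟩ := (h.rel c).1 ⟨1, fun v => by rw [hc v, one_mul]⟩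
  funext v
  rw [← hc v]
  have h3 : ∀ p, c p * inc vtx p v = ∑ f, x f * (inc vtx p v * inc fac p f) := by
    intro p
    rw [hx p, Finset.sum_mul]
    exact Finset.sum_congr rfl fun f _ => by ring
  simp only [h3]
  rw [Finset.sum_comm]
  refine Finset.sum_eq_zero fun f _ => ?_
  rw [← Finset.mul_sum, h2 v f, h0]
  simp

/-- B4b -/
theorem GPair.cyc_cut (h : GPair vtx fac T) (d : E → ZMod 2) (hd : IsCyc fac d) : IsCut vtx d := by
  classical
  let L : (V → ZMod 2) →ₗ[ZMod 2] (E → ZMod 2) :=
    { toFun := fun y p => ∑ v, y v * inc vtx p v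
      map_add' := by
        intro a b
        funext p
        simp only [Pi.add_apply, add_mul, Finset.sum_add_distrib]
      map_smul' := by
        intro r a
        funext p
        simp only [Pi.smul_apply, smul_eq_mul, RingHom.id_apply, Finset.mul_sum, mul_assoc] }
  have hmem : d ∈ LinearMap.range L := by
    by_contra hcon
    obtain ⟨F, hF, hker⟩ := Submodule.exists_le_ker_of_notMem hcon
    have hrep : ∀ z : E → ZMod 2, F z = ∑ p, F (Pi.single p 1) * z p := by
      intro z
      rw [LinearMap.pi_apply_eq_sum_univ F z]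
      refine Finset.sum_congr rfl fun f _ => ?_
      rw [smul_eq_mul, mul_comm]
      congr 2
      ext g
      by_cases hg : f = g
      · subst hg; simp
      · simp [hg, Ne.symm hg]
    have h0 : ∀ z, F (L z) = 0 := fun z => hker ⟨z, rfl⟩
    have hc1 : ∀ v, ∑ p, F (Pi.single p 1) * inc vtx p v = 0 := by
      intro v
      have h1 := h0 (Pi.single v 1)
      rw [hrep] at h1
      rw [← h1]
      refine Finset.sum_congr rfl fun p _ => ?_
      congr 1
      show inc vtx p v = ∑ u, (Pi.single v 1 : V → ZMod 2) u * inc vtx p u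
      rw [Finset.sum_eq_single v]
      · rw [Pi.single_eq_same, one_mul]
      · intro u _ hu
        rw [Pi.single_eq_of_ne hu, zero_mul]
      · intro hu
        exact absurd (Finset.mem_univ v) hu
    obtain ⟨x, hx⟩ := (h.rel fun p => F (Pi.single p 1)).1 ⟨0, fun v => by rw [hc1 v, zero_mul]⟩
    apply hF
    rw [hrep]
    have h2 : ∀ p, F (Pi.single p 1) * d p = ∑ f, x f * (d p * inc fac p f) := by
      intro p
      have hxp : F (Pi.single p 1) = ∑ f, x f * inc fac p f := hx p
      rw [hxp, Finset.sum_mul]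
      exact Finset.sum_congr rfl fun f _ => by ring
    simp only [h2]
    rw [Finset.sum_comm]
    refine Finset.sum_eq_zero fun f _ => ?_
    rw [← Finset.mul_sum, hd f, mul_zero]
  obtain ⟨y, hy⟩ := hmem
  exact ⟨y, fun p => by rw [← hy]; rfl⟩

end Pool.Agent.H34.GC
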