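import Pool.Agent.H34.GC.Def
import Pool.Agent.H34.PM.CF

set_option autoImplicit false

/-!
# [H34 GC B5] a set of edges which meets every pair of a vertex and a face evenly is empty (helper74)
-/

namespace Pool.Agent.H34.GC

open Pool.Agent.H34.PM Finset Module Matroid

variable {V E Φ : Type}

variable [Fintype V] [Fintype E] [Fintype Φ] {vtx : E → Finset V} {fac : E → Finset Φ}
  {T : V → ZMod 2}

theorem h0_aux (h : GPair vtx fac T)
    (hdual : ∃ T' : Φ → ZMod 2, (∀ v f, ∑ p, inc vtx p v * inc fac p f = T v * T' f) ∧ T' ≠ 0)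
    (hcut : ∀ d : E → ZMod 2, IsCyc fac d → IsCut vtx d) (D : Set E)
    (hD : ∀ v f, Even (Nat.card {p // p ∈ D ∧ v ∈ vtx p ∧ f ∈ fac p})) : D = ∅ := by
  classical
  obtain ⟨T', hT', hne'⟩ := hdual
  -- the part of the star of `v` in `D` is a cycle of the second graph
  have hcyc : ∀ v, IsCyc fac (fun p => if p ∈ D ∧ v ∈ vtx p then 1 else 0) := by
    intro v f
    have h1 : ∀ p, (if p ∈ D ∧ v ∈ vtx p then (1 : ZMod 2) else 0) * inc fac p f =
        if p ∈ D ∧ v ∈ vtx p ∧ f ∈ fac p then 1 else 0 := by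
      intro p
      simp only [inc]
      by_cases h1 : p ∈ D <;> by_cases h2 : v ∈ vtx p <;> by_cases h3 : f ∈ fac p <;>
        simp [h1, h2, h3]
    rw [Finset.sum_congr rfl fun p _ => h1 p, Finset.sum_boole]
    have h2 := hD v f
    rw [Nat.card_eq_fintype_card, Fintype.card_subtype] at h2
    rw [ZMod.natCast_eq_zero_iff]
    exact h2.two_dvd
  have hor : ∀ v, (∀ p, v ∈ vtx p → p ∉ D) ∨ (∀ p, v ∈ vtx p → p ∈ D) ∧ T v = 0 := by
    intro v
    rcases bond h.two_v h.conn2_v v _ (hcut _ (hcyc v)) (fun p hp => by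
      by_contra hc
      exact hp (if_neg fun h1 => hc h1.2)) with h1 | h1
    · left
      intro p hvp hpD
      have h2 := congrFun h1 p
      simp [hvp, hpD] at h2
    · right
      refine ⟨fun p hvp => ?_, ?_⟩
      · by_contra hpD
        have h2 := congrFun h1 p
        simp [inc, hvp, hpD] at h2
      · obtain ⟨f, hf⟩ : ∃ f, T' f ≠ 0 := by
          by_contra hc
          push Not at hc
          exact hne' (funext hc)
        have h2 := hcyc v f
        rw [h1] at h2
        have h3 : T v * T' f = 0 := by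
          rw [← hT' v f]
          exact h2
        exact (mul_eq_zero.1 h3).resolve_right hf
  by_contra hDe
  obtain ⟨p0, hp0⟩ := Set.nonempty_iff_ne_empty.2 hDe
  have hS : ({v | ∀ p, v ∈ vtx p → p ∈ D} ∩ {v | T v = 0} : Set V) = Set.univ := by
    refine h.conn_v _ ?_ ?_
    · obtain ⟨v, hv⟩ : (vtx p0).Nonempty := by
        rw [← Finset.card_pos, h.two_v]
        norm_num
      rcases hor v with h1 | h1
      · exact absurd hp0 (h1 p0 hv)
      · exact ⟨v, h1⟩
    · intro p x hx hxS y hy
      have hpD : p ∈ D := hxS.1 p hx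
      rcases hor y with h1 | h1
      · exact absurd hpD (h1 p hy)
      · exact h1
  apply h.ne
  funext v
  have hv : v ∈ ({v | ∀ p, v ∈ vtx p → p ∈ D} ∩ {v | T v = 0} : Set V) := by
    rw [hS]
    trivial
  exact hv.2

private theorem h0_dual (h : GPair vtx fac T) :
    ∃ T' : Φ → ZMod 2, (∀ v f, ∑ p, inc vtx p v * inc fac p f = T v * T' f) ∧ T' ≠ 0 := by
  classical
  have h1 : ∀ f, ∃ s : ZMod 2, ∀ v, ∑ p, inc fac p f * inc vtx p v = s * T v := by
    intro f
    refine (h.rel fun p => inc fac p f).2 ⟨Pi.single f 1, fun p => ?_⟩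
    rw [Finset.sum_eq_single f]
    · simp
    · intro g _ hg
      rw [Pi.single_eq_of_ne hg, zero_mul]
    · intro hf
      exact absurd (Finset.mem_univ f) hf
  choose T' hT' using h1
  refine ⟨T', fun v f => ?_, ?_⟩
  · rw [mul_comm, ← hT' f v]
    exact Finset.sum_congr rfl fun p _ => mul_comm _ _
  · intro h0
    apply h.ne
    obtain ⟨c, hc⟩ := h.join
    obtain ⟨x, hx⟩ := (h.rel c).1 ⟨1, fun v => by rw [hc v, one_mul]⟩
    funext v
    rw [← hc v]
    have h2 : ∀ p, c p * inc vtx p v = ∑ f, x f * (inc fac p f * inc vtx p v) := by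
      intro p
      rw [hx p, Finset.sum_mul]
      exact Finset.sum_congr rfl fun f _ => by ring
    rw [Finset.sum_congr rfl fun p _ => h2 p, Finset.sum_comm]
    refine Finset.sum_eq_zero fun f _ => ?_
    rw [← Finset.mul_sum, hT' f v, h0]
    simp

private theorem h0_cut (h : GPair vtx fac T) (d : E → ZMod 2) (hd : IsCyc fac d) : IsCut vtx d := by
  classical
  let L : (V → ZMod 2) →ₗ[ZMod 2] (E → ZMod 2) :=
    { toFun := fun z p => ∑ v, z v * inc vtx p v
      map_add' := by
        intro a b
        funext p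
        simp only [Pi.add_apply, add_mul, Finset.sum_add_distrib]
      map_smul' := by
        intro r a
        funext p
        simp only [Pi.smul_apply, smul_eq_mul, RingHom.id_apply, Finset.mul_sum, mul_assoc] }
  have hmem : d ∈ LinearMap.range L := by
    by_contra hcon
    obtain ⟨F, hF, hker⟩ := Submodule.exists_le_ker_of_notMem hcon
    have hrep : ∀ z : E → ZMod 2, F z = ∑ p, F (Pi.single p 1) * z p := by
      intro z
      rw [LinearMap.pi_apply_eq_sum_univ F z]
      refine Finset.sum_congr rfl fun f _ => ?_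
      rw [smul_eq_mul, mul_comm]
      congr 2
      ext g
      by_cases hg : f = g
      · subst hg; simp
      · simp [hg, Ne.symm hg]
    have h0 : ∀ z, F (L z) = 0 := fun z => hker ⟨z, rfl⟩
    have hc1 : ∀ v, ∑ p, F (Pi.single p 1) * inc vtx p v = 0 := by
      intro v
      have h1 := h0 (Pi.single v 1)
      rw [hrep] at h1
      rw [← h1]
      refine Finset.sum_congr rfl fun p _ => ?_
      congr 1
      show inc vtx p v = ∑ u, (Pi.single v 1 : V → ZMod 2) u * inc vtx p u
      rw [Finset.sum_eq_single v]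
      · simp
      · intro u _ hu
        rw [Pi.single_eq_of_ne hu, zero_mul]
      · intro hu
        exact absurd (Finset.mem_univ v) hu
    obtain ⟨x, hx⟩ := (h.rel fun p => F (Pi.single p 1)).1 ⟨0, fun v => by rw [hc1 v, zero_mul]⟩
    apply hF
    rw [hrep]
    have h2 : ∀ p, F (Pi.single p 1) * d p = ∑ f, x f * (d p * inc fac p f) := by
      intro p
      have hxp : F (Pi.single p 1) = ∑ f, x f * inc fac p f := hx p
      rw [hxp, Finset.sum_mul]
      exact Finset.sum_congr rfl fun f _ => by ring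
    rw [Finset.sum_congr rfl fun p _ => h2 p, Finset.sum_comm]
    refine Finset.sum_eq_zero fun f _ => ?_
    rw [← Finset.mul_sum, hd f, mul_zero]
  obtain ⟨y, hy⟩ := hmem
  exact ⟨y, fun p => (congrFun hy p).symm⟩

/-- B5 -/
theorem GPair.h0 (h : GPair vtx fac T) (D : Set E)
    (hD : ∀ v f, Even (Nat.card {p // p ∈ D ∧ v ∈ vtx p ∧ f ∈ fac p})) : D = ∅ :=
  h0_aux h (h0_dual h) (h0_cut h) D hD

end Pool.Agent.H34.GC
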