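import Pool.Agent.H34.GC.A0
import Pool.Agent.H34.GC.A1
import Pool.Agent.H34.GC.A2
import Pool.Agent.H34.GC.A3
import Pool.Agent.H34.GC.A4
import Pool.Agent.H34.GC.A5
import Pool.Agent.H34.GC.A7

set_option autoImplicit false

/-!
# [H34 GC Core] The count of flags
-/

namespace Pool.Agent.H34.GC

open Pool.Agent.H34.PM Finset Module

variable {X V E Φ : Type}

theorem core [Fintype X] [Fintype V] [Fintype E] [Fintype Φ] {α β γ : X → X} {v : X → V} {e : X → E}
    {f : X → Φ} (h : Sys α β γ v e f) (T : Finset V) (T' : Finset Φ)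
    (hcard : Nat.card X = 4 * Nat.card E) (hfix : Nat.card {x // γ x = x} = T.card * T'.card)
    (hfT : ∀ x, γ x = x → v x ∈ T ∧ f x ∈ T')
    (hinj : ∀ x y, γ x = x → γ y = y → v x = v y → f x = f y → x = y)
    (hO : ∀ O : Set X, Cl α β γ O → O.Nonempty → ∃ x ∈ O, γ x = x)
    (heul : Nat.card V + Nat.card Φ = Nat.card E + 3) :
    T.card * T'.card + 12 ≤ 4 * T.card + 4 * T'.card := by
  classical
  have h1 := inv_finrank γ h.γ_γ
  have h2 := lb β γ h.β_β h.γ_γ h.β_ne v h.v_β h.v_γ Tᶜ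
    (fun x hx => by simpa using (hfT x hx).1) (fun i _ => h.v_surj i)
  have h3 := lb α γ h.α_α h.γ_γ h.α_ne f h.f_α h.f_γ T'ᶜ
    (fun x hx => by simpa using (hfT x hx).2) (fun i _ => h.f_surj i)
  have h4 := up α β γ h.α_α h.β_β h.γ_γ h.α_ne h.β_ne e h.e_α h.e_β (by
    intro z hz1 hz2
    have hcl : Cl α β γ {x | z (e x) ≠ 0} := by
      intro x hx
      refine ⟨?_, ?_, ?_⟩
      · show z (e (α x)) ≠ 0
        rw [h.e_α]; exact hx
      · show z (e (β x)) ≠ 0
        rw [h.e_β]; exact hx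
      · show z (e (γ x)) ≠ 0
        rw [hz1]; exact hx
    by_contra hne
    obtain ⟨p, hp⟩ : ∃ p, z p ≠ 0 := by
      by_contra hcon
      push Not at hcon
      exact hne (funext hcon)
    obtain ⟨x, rfl⟩ := h.e_surj p
    obtain ⟨y, hy1, hy2⟩ := hO _ hcl ⟨x, hp⟩
    exact hy1 (hz2 y hy2))
  have h5 := kb α β γ (fun O hc hn => four h hinj hO O hc hn)
  have h6 := Submodule.finrank_sup_add_finrank_inf_eq
    (inv β ⊓ inv γ : Submodule (ZMod 2) (X → ZMod 2)) (inv α ⊓ inv γ)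
  have h7 : ((inv β ⊓ inv γ) ⊓ (inv α ⊓ inv γ) : Submodule (ZMod 2) (X → ZMod 2)) =
      inv α ⊓ inv β ⊓ inv γ := by
    ext u
    simp only [Submodule.mem_inf]
    tauto
  rw [h7] at h6
  have h8 : (Tᶜ).card + T.card = Nat.card V := by
    rw [Nat.card_eq_fintype_card, Finset.card_compl]
    have := Finset.card_le_univ T
    omega
  have h9 : (T'ᶜ).card + T'.card = Nat.card Φ := by
    rw [Nat.card_eq_fintype_card, Finset.card_compl]
    have := Finset.card_le_univ T'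
    omega
  rw [hfix] at h1 h2 h3 h5
  generalize T.card * T'.card = φ at *
  omega

theorem core_graph [Fintype V] [Fintype E] [Fintype Φ] (vtx : E → Finset V) (fac : E → Finset Φ)
    (two_v : ∀ p, (vtx p).card = 2) (two_f : ∀ p, (fac p).card = 2) (iso_v : NoIso vtx)
    (iso_f : NoIso fac) (T : Finset V) (T' : Finset Φ)
    (hn : ∀ v f, Nat.card {p // v ∈ vtx p ∧ f ∈ fac p} % 2 = 1 ↔ v ∈ T ∧ f ∈ T')
    (h0 : ∀ D : Set E, (∀ v f, Even (Nat.card {p // p ∈ D ∧ v ∈ vtx p ∧ f ∈ fac p})) → D = ∅)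
    (heul : Nat.card V + Nat.card Φ = Nat.card E + 3) :
    T.card * T'.card + 12 ≤ 4 * T.card + 4 * T'.card :=
  core_graph_of exists_invol (fun h T T' a b c d e f => core h T T' a b c d e f)
    vtx fac two_v two_f iso_v iso_f T T' hn h0 heul

end Pool.Agent.H34.GC
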