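import Pool.Agent.H34.GC.Def

set_option autoImplicit false

/-! # [H34 GC U1] classes of flags, any number -/

namespace Pool.Agent.H34.GC

open Pool.Agent.H34.PM Finset Module

variable {X : Type}

/-- U1 -/
theorem classes_n [Fintype X] (α β γ : X → X)
    (hO : ∀ O : Set X, Cl α β γ O → O.Nonempty → 4 ≤ Nat.card {x // x ∈ O ∧ γ x = x}) (m : ℕ)
    (hk : m ≤ finrank (ZMod 2) (inv α ⊓ inv β ⊓ inv γ : Submodule (ZMod 2) (X → ZMod 2))) :
    ∃ (n : ℕ) (q : X → Fin n), m ≤ n ∧ (∀ x, q (α x) = q x ∧ q (β x) = q x ∧ q (γ x) = q x) ∧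
      ∀ i, 4 ≤ Nat.card {x // q x = i ∧ γ x = x} := by
  classical
  set K : Submodule (ZMod 2) (X → ZMod 2) := inv α ⊓ inv β ⊓ inv γ with hK
  have hKm : ∀ u ∈ K, (∀ x, u (α x) = u x) ∧ (∀ x, u (β x) = u x) ∧ ∀ x, u (γ x) = u x := by
    rintro u ⟨⟨h1, h2⟩, h3⟩
    exact ⟨mem_inv.1 h1, mem_inv.1 h2, mem_inv.1 h3⟩
  let r : Setoid X := ⟨fun x y => ∀ u ∈ K, u x = u y, fun _ _ _ => rfl,
    fun h u hu => (h u hu).symm, fun h1 h2 u hu => (h1 u hu).trans (h2 u hu)⟩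
  let Q := Quotient r
  let mk : X → Q := Quotient.mk r
  have hle : K ≤ LinearMap.range (LinearMap.funLeft (ZMod 2) (ZMod 2) mk) := by
    intro u hu
    refine ⟨fun q => Quotient.lift (s := r) u (fun x y h => h u hu) q, ?_⟩
    funext x
    rfl
  have h1 : finrank (ZMod 2) K ≤ Fintype.card Q := by
    refine (Submodule.finrank_mono hle).trans ((LinearMap.finrank_range_le _).trans ?_)
    rw [Module.finrank_fintype_fun_eq_card]
  have hinv : ∀ x, mk (α x) = mk x ∧ mk (β x) = mk x ∧ mk (γ x) = mk x := fun x =>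
    ⟨Quotient.sound fun u hu => (hKm u hu).1 x, Quotient.sound fun u hu => (hKm u hu).2.1 x,
      Quotient.sound fun u hu => (hKm u hu).2.2 x⟩
  let ψ : Q ≃ Fin (Fintype.card Q) := Fintype.equivFin Q
  refine ⟨Fintype.card Q, fun x => ψ (mk x), hk.trans h1, fun x => ⟨congrArg ψ (hinv x).1,
    congrArg ψ (hinv x).2.1, congrArg ψ (hinv x).2.2⟩, fun i => ?_⟩
  obtain ⟨x0, hx0⟩ := Quotient.exists_rep (ψ.symm i)
  have h3 := hO {x | ψ (mk x) = i} (fun x hx => by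
    have hx' : ψ (mk x) = i := hx
    exact ⟨(congrArg ψ (hinv x).1).trans hx', (congrArg ψ (hinv x).2.1).trans hx',
      (congrArg ψ (hinv x).2.2).trans hx'⟩) ⟨x0, by
      change ψ (mk x0) = i
      rw [show mk x0 = ψ.symm i from hx0, Equiv.apply_symm_apply]⟩
  exact h3

end Pool.Agent.H34.GC
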