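import Pool.Agent.H34.GC.Def

set_option autoImplicit false

/-! # [H34 GC T1] the tight case of `kb` -/

namespace Pool.Agent.H34.GC

open Pool.Agent.H34.PM Finset Module

variable {X : Type}

/-- T1 -/
theorem classes [Fintype X] (α β γ : X → X)
    (hO : ∀ O : Set X, Cl α β γ O → O.Nonempty → 4 ≤ Nat.card {x // x ∈ O ∧ γ x = x})
    (h36 : Nat.card {x // γ x = x} = 36)
    (hk : 9 ≤ finrank (ZMod 2) (inv α ⊓ inv β ⊓ inv γ : Submodule (ZMod 2) (X → ZMod 2))) :
    ∃ q : X → Fin 9, (∀ x, q (α x) = q x ∧ q (β x) = q x ∧ q (γ x) = q x) ∧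
      ∀ i, Nat.card {x // q x = i ∧ γ x = x} = 4 := by
  classical
  set K : Submodule (ZMod 2) (X → ZMod 2) := inv α ⊓ inv β ⊓ inv γ with hK
  have hKm : ∀ u ∈ K, (∀ x, u (α x) = u x) ∧ (∀ x, u (β x) = u x) ∧ ∀ x, u (γ x) = u x := by
    rintro u ⟨⟨h1, h2⟩, h3⟩
    exact ⟨mem_inv.1 h1, mem_inv.1 h2, mem_inv.1 h3⟩
  let r : Setoid X := ⟨fun x y => ∀ u ∈ K, u x = u y, fun _ _ _ => rfl,
    fun h u hu => (h u hu).symm, fun h1 h2 u hu => (h1 u hu).trans (h2 u hu)⟩
  let Q := Quotient r
  let m : X → Q := Quotient.mk r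
  have hle : K ≤ LinearMap.range (LinearMap.funLeft (ZMod 2) (ZMod 2) m) := by
    intro u hu
    refine ⟨fun q => Quotient.lift (s := r) u (fun x y h => h u hu) q, ?_⟩
    funext x
    rfl
  have h1 : finrank (ZMod 2) K ≤ Fintype.card Q := by
    refine (Submodule.finrank_mono hle).trans ((LinearMap.finrank_range_le _).trans ?_)
    rw [Module.finrank_fintype_fun_eq_card]
  have hinv : ∀ x, m (α x) = m x ∧ m (β x) = m x ∧ m (γ x) = m x := fun x =>
    ⟨Quotient.sound fun u hu => (hKm u hu).1 x, Quotient.sound fun u hu => (hKm u hu).2.1 x,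
      Quotient.sound fun u hu => (hKm u hu).2.2 x⟩
  have h2 : ∀ q : Q, 4 ≤ ((univ.filter fun x : X => γ x = x).filter fun x => m x = q).card := by
    intro q
    obtain ⟨x0, rfl⟩ := Quotient.exists_rep q
    have h3 := hO {x | m x = m x0} (fun x hx => by
      have hx' : m x = m x0 := hx
      exact ⟨(hinv x).1.trans hx', (hinv x).2.1.trans hx', (hinv x).2.2.trans hx'⟩) ⟨x0, rfl⟩
    refine h3.trans (le_of_eq ?_)
    rw [Nat.card_eq_fintype_card, Fintype.card_subtype]
    congr 1
    ext x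
    simp only [mem_filter, mem_univ, true_and, Set.mem_ofPred_eq]
    exact and_comm
  have h4 : (univ.filter fun x : X => γ x = x).card =
      ∑ q : Q, ((univ.filter fun x : X => γ x = x).filter fun x => m x = q).card :=
    card_eq_sum_card_fiberwise fun x _ => mem_univ _
  have h5 : Nat.card {x // γ x = x} = (univ.filter fun x : X => γ x = x).card := by
    rw [Nat.card_eq_fintype_card, Fintype.card_subtype]
  rw [h5, h4] at h36
  have h6 : ∑ _q : Q, 4 = 4 * Fintype.card Q := by
    rw [sum_const, smul_eq_mul, card_univ, mul_comm]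
  have h7 : ∑ _q : Q, 4 ≤ ∑ q : Q,
      ((univ.filter fun x : X => γ x = x).filter fun x => m x = q).card :=
    sum_le_sum fun q _ => h2 q
  have hQ : Fintype.card Q = 9 := by omega
  have h8 : ∀ q : Q, ((univ.filter fun x : X => γ x = x).filter fun x => m x = q).card = 4 := by
    intro q
    have h9 : ∑ _q : Q, 4 = ∑ q : Q,
        ((univ.filter fun x : X => γ x = x).filter fun x => m x = q).card := by omega
    exact ((sum_eq_sum_iff_of_le fun q _ => h2 q).1 h9 q (mem_univ q)).symm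
  let ψ : Q ≃ Fin 9 := Fintype.equivFinOfCardEq hQ
  refine ⟨fun x => ψ (m x), fun x => ⟨congrArg ψ (hinv x).1, congrArg ψ (hinv x).2.1,
    congrArg ψ (hinv x).2.2⟩, fun i => ?_⟩
  rw [← h8 (ψ.symm i), Nat.card_eq_fintype_card, Fintype.card_subtype]
  congr 1
  ext x
  simp only [mem_filter, mem_univ, true_and]
  rw [Equiv.eq_symm_apply]
  exact and_comm

end Pool.Agent.H34.GC
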