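import Pool.Agent.H34.GC.Def

set_option autoImplicit false

/-!
# [H34 GC A7] from the count for flags to graphs, with `core` and `exists_invol` as hypotheses
-/

namespace Pool.Agent.H34.GC

open Pool.Agent.H34.PM Finset Module

/-- the other element of a set with two elements -/
theorem exists_oth {V : Type} {s : Finset V} (h : s.card = 2) : ∃ o : V → V, ∀ v ∈ s,
    o v ∈ s ∧ o v ≠ v ∧ o (o v) = v ∧ ∀ w ∈ s, w = v ∨ w = o v := by
  classical
  obtain ⟨a, b, hab, rfl⟩ := Finset.card_eq_two.1 h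
  refine ⟨fun v => if v = a then b else a, fun v hv => ?_⟩
  rw [Finset.mem_insert, Finset.mem_singleton] at hv
  rcases hv with rfl | rfl
  · simp [hab.symm]
  · simp [hab.symm, hab, or_comm]

/-- an involution without fixed points on an invariant set of elements -/
theorem even_of_invol {Y : Type} [Finite Y] (τ : Y → Y) (h : ∀ y, τ (τ y) = y) (S : Set Y)
    (hS : ∀ y ∈ S, τ y ∈ S) (hf : ∀ y ∈ S, τ y ≠ y) : Even (Nat.card S) := by
  classical
  have := Fintype.ofFinite Y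
  have h1 : ∑ y ∈ S.toFinset, (1 : ZMod 2) = 0 := by
    refine Finset.sum_involution (fun y _ => τ y) ?_ ?_ ?_ ?_
    · intro y _
      decide
    · intro y hy _
      exact hf y (by simpa using hy)
    · intro y hy
      simpa using hS y (by simpa using hy)
    · intro y _
      exact h y
  rw [Finset.sum_const, nsmul_eq_mul, mul_one] at h1
  rw [Nat.card_eq_card_toFinset S]
  exact (ZMod.natCast_eq_zero_iff_even).1 h1

/-- A7 with A0 and A6 as hypotheses -/
theorem core_graph_of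
    (hinv : ∀ (X : Type) [Finite X],
      ∃ τ : X → X, (∀ x, τ (τ x) = x) ∧ Nat.card {x // τ x = x} = Nat.card X % 2)
    (hcore : ∀ (X V E Φ : Type) [Fintype X] [Fintype V] [Fintype E] [Fintype Φ] (α β γ : X → X)
      (v : X → V) (e : X → E) (f : X → Φ), Sys α β γ v e f → ∀ (T : Finset V) (T' : Finset Φ),
      Nat.card X = 4 * Nat.card E → Nat.card {x // γ x = x} = T.card * T'.card →
      (∀ x, γ x = x → v x ∈ T ∧ f x ∈ T') →
      (∀ x y, γ x = x → γ y = y → v x = v y → f x = f y → x = y) →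
      (∀ O : Set X, Cl α β γ O → O.Nonempty → ∃ x ∈ O, γ x = x) →
      Nat.card V + Nat.card Φ = Nat.card E + 3 →
      T.card * T'.card + 12 ≤ 4 * T.card + 4 * T'.card)
    {V E Φ : Type} [Fintype V] [Fintype E] [Fintype Φ] (vtx : E → Finset V) (fac : E → Finset Φ)
    (two_v : ∀ p, (vtx p).card = 2) (two_f : ∀ p, (fac p).card = 2) (iso_v : NoIso vtx)
    (iso_f : NoIso fac) (T : Finset V) (T' : Finset Φ)
    (hn : ∀ v f, Nat.card {p // v ∈ vtx p ∧ f ∈ fac p} % 2 = 1 ↔ v ∈ T ∧ f ∈ T')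
    (h0 : ∀ D : Set E, (∀ v f, Even (Nat.card {p // p ∈ D ∧ v ∈ vtx p ∧ f ∈ fac p})) → D = ∅)
    (heul : Nat.card V + Nat.card Φ = Nat.card E + 3) :
    T.card * T'.card + 12 ≤ 4 * T.card + 4 * T'.card := by
  classical
  choose ov hov using fun p => exists_oth (two_v p)
  choose of hof using fun p => exists_oth (two_f p)
  choose τ hτ hτf using fun (v : V) (f : Φ) => hinv {p // v ∈ vtx p ∧ f ∈ fac p}
  let X : Type := {x : V × E × Φ // x.1 ∈ vtx x.2.1 ∧ x.2.2 ∈ fac x.2.1}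
  let α : X → X := fun x => ⟨(ov x.1.2.1 x.1.1, x.1.2.1, x.1.2.2), (hov _ _ x.2.1).1, x.2.2⟩
  let β : X → X := fun x => ⟨(x.1.1, x.1.2.1, of x.1.2.1 x.1.2.2), x.2.1, (hof _ _ x.2.2).1⟩
  let γ : X → X := fun x => ⟨(x.1.1, (τ x.1.1 x.1.2.2 ⟨x.1.2.1, x.2⟩).1, x.1.2.2),
    (τ x.1.1 x.1.2.2 ⟨x.1.2.1, x.2⟩).2⟩
  let v : X → V := fun x => x.1.1
  let e : X → E := fun x => x.1.2.1
  let f : X → Φ := fun x => x.1.2.2
  have hne_v : ∀ p, ∃ a, a ∈ vtx p := fun p =>
    Finset.card_pos.1 (by rw [two_v p]; norm_num)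
  have hne_f : ∀ p, ∃ a, a ∈ fac p := fun p =>
    Finset.card_pos.1 (by rw [two_f p]; norm_num)
  have hγfix : ∀ x : X, γ x = x ↔ τ x.1.1 x.1.2.2 ⟨x.1.2.1, x.2⟩ = ⟨x.1.2.1, x.2⟩ := by
    rintro ⟨⟨a, p, b⟩, hx⟩
    constructor
    · intro h
      have h1 := congrArg (fun z : X => z.1.2.1) h
      exact Subtype.ext h1
    · intro h
      apply Subtype.ext
      have h1 := congrArg Subtype.val h
      exact Prod.ext rfl (Prod.ext h1 rfl)
  have hsys : Sys α β γ v e f := by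
    refine ⟨?_, ?_, ?_, ?_, ?_, fun _ => rfl, fun _ => rfl, fun _ => rfl, fun _ => rfl,
      fun _ => rfl, fun _ => rfl, ?_, ?_, ?_, ?_⟩
    · rintro ⟨⟨a, p, b⟩, hx⟩
      exact Subtype.ext (Prod.ext (hov p a hx.1).2.2.1 rfl)
    · rintro ⟨⟨a, p, b⟩, hx⟩
      exact Subtype.ext (Prod.ext rfl (Prod.ext rfl (hof p b hx.2).2.2.1))
    · rintro ⟨⟨a, p, b⟩, hx⟩
      apply Subtype.ext
      refine Prod.ext rfl (Prod.ext ?_ rfl)
      exact congrArg Subtype.val (hτ a b ⟨p, hx⟩)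
    · rintro ⟨⟨a, p, b⟩, hx⟩ h
      exact (hov p a hx.1).2.1 (congrArg (fun z : X => z.1.1) h)
    · rintro ⟨⟨a, p, b⟩, hx⟩ h
      exact (hof p b hx.2).2.1 (congrArg (fun z : X => z.1.2.2) h)
    · rintro ⟨⟨a, p, b⟩, hx⟩ ⟨⟨a', p', b'⟩, hy⟩ h
      have h' : p = p' := h
      subst h'
      rcases (hov p a hx.1).2.2.2 a' hy.1 with ha | ha <;>
        rcases (hof p b hx.2).2.2.2 b' hy.2 with hb | hb
      · left
        exact Subtype.ext (Prod.ext ha (Prod.ext rfl hb))
      · right; right; left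
        exact Subtype.ext (Prod.ext ha (Prod.ext rfl hb))
      · right; left
        exact Subtype.ext (Prod.ext ha (Prod.ext rfl hb))
      · right; right; right
        exact Subtype.ext (Prod.ext ha (Prod.ext rfl hb))
    · intro a
      obtain ⟨p, hp⟩ := iso_v a
      obtain ⟨b, hb⟩ := hne_f p
      exact ⟨⟨(a, p, b), hp, hb⟩, rfl⟩
    · intro p
      obtain ⟨a, ha⟩ := hne_v p
      obtain ⟨b, hb⟩ := hne_f p
      exact ⟨⟨(a, p, b), ha, hb⟩, rfl⟩
    · intro b
      obtain ⟨p, hp⟩ := iso_f b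
      obtain ⟨a, ha⟩ := hne_v p
      exact ⟨⟨(a, p, b), ha, hp⟩, rfl⟩
  have hcard : Nat.card X = 4 * Nat.card E := by
    let eqv : X ≃ Σ p : E, {a // a ∈ vtx p} × {b // b ∈ fac p} :=
      { toFun := fun x => ⟨x.1.2.1, ⟨x.1.1, x.2.1⟩, ⟨x.1.2.2, x.2.2⟩⟩
        invFun := fun s => ⟨(s.2.1.1, s.1, s.2.2.1), s.2.1.2, s.2.2.2⟩
        left_inv := fun x => rfl
        right_inv := fun s => rfl }
    rw [Nat.card_congr eqv, Nat.card_sigma]
    have h1 : ∀ p, Nat.card ({a // a ∈ vtx p} × {b // b ∈ fac p}) = 4 := by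
      intro p
      rw [Nat.card_prod, Nat.card_eq_fintype_card, Nat.card_eq_fintype_card, Fintype.card_coe,
        Fintype.card_coe, two_v, two_f]
    rw [Finset.sum_congr rfl fun p _ => h1 p, Finset.sum_const, smul_eq_mul,
      Finset.card_univ, Nat.card_eq_fintype_card, mul_comm]
  have hfT : ∀ x, γ x = x → v x ∈ T ∧ f x ∈ T' := by
    rintro ⟨⟨a, p, b⟩, hx⟩ h
    rw [hγfix] at h
    apply (hn a b).1
    rw [← hτf a b]
    have h1 : 0 < Nat.card {y // τ a b y = y} := by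
      have : Nonempty {y // τ a b y = y} := ⟨⟨⟨p, hx⟩, h⟩⟩
      exact Nat.card_pos
    have h2 := hτf a b
    have h3 : Nat.card {p // a ∈ vtx p ∧ b ∈ fac p} % 2 < 2 := Nat.mod_lt _ (by norm_num)
    omega
  have hinj : ∀ x y, γ x = x → γ y = y → v x = v y → f x = f y → x = y := by
    rintro ⟨⟨a, p, b⟩, hx⟩ ⟨⟨a', p', b'⟩, hy⟩ h1 h2 h3 h4
    have h3' : a = a' := h3
    have h4' : b = b' := h4
    subst h3'
    subst h4'
    rw [hγfix] at h1 h2
    have h5 : Nat.card {y // τ a b y = y} ≤ 1 := by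
      rw [hτf]
      have h3 : Nat.card {p // a ∈ vtx p ∧ b ∈ fac p} % 2 < 2 := Nat.mod_lt _ (by norm_num)
      omega
    have h6 : Subsingleton {y // τ a b y = y} := Finite.card_le_one_iff_subsingleton.1 h5
    have h7 := h6.elim ⟨⟨p, hx⟩, h1⟩ ⟨⟨p', hy⟩, h2⟩
    have h8 : p = p' := congrArg (fun z => z.1.1) h7
    subst h8
    rfl
  have hfix : Nat.card {x // γ x = x} = T.card * T'.card := by
    have hbij : Function.Bijective (fun x : {x // γ x = x} =>
        (⟨(v x.1, f x.1), Finset.mem_product.2 (hfT x.1 x.2)⟩ : {ab // ab ∈ T ×ˢ T'})) := by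
      constructor
      · rintro ⟨x, hx⟩ ⟨y, hy⟩ h
        have h1 : (v x, f x) = (v y, f y) := congrArg Subtype.val h
        exact Subtype.ext (hinj x y hx hy (Prod.ext_iff.1 h1).1 (Prod.ext_iff.1 h1).2)
      · rintro ⟨⟨a, b⟩, hab⟩
        have h1 : Nat.card {y // τ a b y = y} = 1 := by
          rw [hτf]; exact (hn a b).2 (Finset.mem_product.1 hab)
        have h2 : Nonempty {y // τ a b y = y} := by
          by_contra h3
          rw [not_nonempty_iff] at h3
          rw [Nat.card_of_isEmpty] at h1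
          exact absurd h1 (by norm_num)
        obtain ⟨⟨⟨p, hp⟩, hy⟩⟩ := h2
        exact ⟨⟨⟨(a, p, b), hp⟩, (hγfix _).2 hy⟩, rfl⟩
    rw [Nat.card_eq_of_bijective _ hbij, Nat.card_eq_fintype_card, Fintype.card_coe,
      Finset.card_product]
  have hO : ∀ O : Set X, Cl α β γ O → O.Nonempty → ∃ x ∈ O, γ x = x := by
    intro O hcl hne
    by_contra hcon
    push Not at hcon
    have hD := h0 {p | ∃ x ∈ O, e x = p} (fun a b => ?_)
    · obtain ⟨x, hx⟩ := hne
      have : e x ∈ ({p | ∃ x ∈ O, e x = p} : Set E) := ⟨x, hx, rfl⟩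
      rw [hD] at this
      exact this
    · -- every flag of an edge of `D` is in `O`
      have hall : ∀ p ∈ ({p | ∃ x ∈ O, e x = p} : Set E), ∀ y : X, e y = p → y ∈ O := by
        rintro p ⟨x, hx, rfl⟩ y hy
        rcases hsys.flags x y hy.symm with h | h | h | h
        · rw [h]; exact hx
        · rw [h]; exact (hcl x hx).1
        · rw [h]; exact (hcl x hx).2.1
        · rw [h]; exact (hcl _ (hcl x hx).2.1).1
      have hev := even_of_invol (τ a b) (hτ a b)
        {y | (⟨(a, y.1, b), y.2⟩ : X) ∈ O} (fun y hy => (hcl _ hy).2.2) (fun y hy h => ?_)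
      · rw [← Nat.card_congr (α := ({y | (⟨(a, y.1, b), y.2⟩ : X) ∈ O} :
          Set {p // a ∈ vtx p ∧ b ∈ fac p}))]
        · exact hev
        · exact
            { toFun := fun z => ⟨z.1.1, ⟨_, z.2, rfl⟩, z.1.2⟩
              invFun := fun z => ⟨⟨z.1, z.2.2⟩, hall _ z.2.1 _ rfl⟩
              left_inv := fun z => rfl
              right_inv := fun z => rfl }
      · exact hcon _ hy ((hγfix _).2 h)
  exact hcore X V E Φ α β γ v e f hsys T T' hcard hfix hfT hinj hO heul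

end Pool.Agent.H34.GC
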