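import Pool.Agent.H34.PM.CN
import Pool.Agent.H34.PM.Pair

set_option autoImplicit false

/-!
# [H34 GC Def] Matroids with a graphic deletion and a cographic contraction (MP_367fb1_co)

`gft`: vectors of a graft. `inv τ`: functions invariant under `τ`. `Sys`: flags of a pair of graphs on
the same edges.
-/

namespace Pool.Agent.H34.GC

open Pool.Agent.H34.PM Finset

/-- Vectors of the graft with graph `vtx` and vertex set `t` (`none` is the added element). -/
noncomputable def gft {V E : Type} (vtx : E → Finset V) (t : V → ZMod 2) : Option E → (V → ZMod 2)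
  | none => t
  | some p => inc vtx p

/-- Functions invariant under `τ`. -/
def inv {X : Type} (τ : X → X) : Submodule (ZMod 2) (X → ZMod 2) where
  carrier := {u | ∀ x, u (τ x) = u x}
  add_mem' := by
    intro a b ha hb x
    simp only [Set.mem_setOf_eq, Pi.add_apply] at *
    rw [ha, hb]
  zero_mem' := by intro x; rfl
  smul_mem' := by
    intro c a ha x
    simp only [Set.mem_setOf_eq, Pi.smul_apply] at *
    rw [ha]

theorem mem_inv {X : Type} {τ : X → X} {u : X → ZMod 2} : u ∈ inv τ ↔ ∀ x, u (τ x) = u x := Iff.rfl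

/-- Flags `x` with vertex `v x`, edge `e x`, face `f x`; `α`: other vertex, `β`: other face,
`γ`: another edge with the same vertex and face. -/
structure Sys {X V E Φ : Type} (α β γ : X → X) (v : X → V) (e : X → E) (f : X → Φ) : Prop where
  α_α : ∀ x, α (α x) = x
  β_β : ∀ x, β (β x) = x
  γ_γ : ∀ x, γ (γ x) = x
  α_ne : ∀ x, α x ≠ x
  β_ne : ∀ x, β x ≠ x
  e_α : ∀ x, e (α x) = e x
  f_α : ∀ x, f (α x) = f x
  e_β : ∀ x, e (β x) = e x
  v_β : ∀ x, v (β x) = v x
  v_γ : ∀ x, v (γ x) = v x
  f_γ : ∀ x, f (γ x) = f x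
  flags : ∀ x y, e x = e y → y = x ∨ y = α x ∨ y = β x ∨ y = α (β x)
  v_surj : Function.Surjective v
  e_surj : Function.Surjective e
  f_surj : Function.Surjective f

/-- Closed sets of flags. -/
def Cl {X : Type} (α β γ : X → X) (O : Set X) : Prop :=
  ∀ x ∈ O, α x ∈ O ∧ β x ∈ O ∧ γ x ∈ O

/-- Two 2-connected graphs with the same edges and a vertex set `T` of the first one, for which the
edge sets with boundary `0` or `T` are the cuts of the second one. -/
structure GPair {V E Φ : Type} [Fintype V] [Fintype E] [Fintype Φ] (vtx : E → Finset V)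
    (fac : E → Finset Φ) (T : V → ZMod 2) : Prop where
  two_v : ∀ p, (vtx p).card = 2
  two_f : ∀ p, (fac p).card = 2
  conn_v : Conn vtx
  conn_f : Conn fac
  conn2_v : Conn2 vtx
  conn2_f : Conn2 fac
  rel : ∀ c : E → ZMod 2, (∃ s : ZMod 2, ∀ v, ∑ p, c p * inc vtx p v = s * T v) ↔ IsCut fac c
  ne : T ≠ 0
  join : ∃ c : E → ZMod 2, ∀ v, ∑ p, c p * inc vtx p v = T v

end Pool.Agent.H34.GC
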