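import Pool.Agent.H34.GC.Def

set_option autoImplicit false

/-!
# [H34 GC Def2] Incidence vectors over a field
-/

namespace Pool.Agent.H34.GC

/-- Incidence vectors (without signs) over `F`. -/
noncomputable def incF (F : Type) [Field F] {V E : Type} (e : E → Finset V) (p : E) : V → F := by
  classical exact fun x => if x ∈ e p then 1 else 0

end Pool.Agent.H34.GC
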