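import Pool.Agent.H34.GC.Def2

set_option autoImplicit false

/-!
# [H34 GC Def3] Odd corners of a set of edges, gadgets
-/

namespace Pool.Agent.H34.GC

/-- `v` and `f` have an odd number of common edges in `D`. -/
def Od {V E Φ : Type} (vtx : E → Finset V) (fac : E → Finset Φ) (D : Set E) (v : V) (f : Φ) : Prop :=
  Nat.card {p // p ∈ D ∧ v ∈ vtx p ∧ f ∈ fac p} % 2 = 1

/-- A vertex `g` of degree two, with neighbours `a`, `b`, all in `T`. -/
def Gad {E Φ : Type} [DecidableEq Φ] (fac : E → Finset Φ) (T : Finset Φ) (g a b : Φ) (p q : E) :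
    Prop :=
  p ≠ q ∧ g ≠ a ∧ g ≠ b ∧ a ≠ b ∧ g ∈ T ∧ a ∈ T ∧ b ∈ T ∧ fac p = {g, a} ∧ fac q = {g, b} ∧
    ∀ r, g ∈ fac r → r = p ∨ r = q

/-- No component of `G - S` is adjacent to all vertices of `S`: `c v ∈ S` is, for `v ∉ S`, a vertex
of `S` which is not adjacent to the component of `v`. -/
def Apart {V E : Type} (vtx : E → Finset V) (S : Finset V) : Prop :=
  ∃ c : V → V, ∀ v, v ∉ S → c v ∈ S ∧
    ∀ p, v ∈ vtx p → ∀ w ∈ vtx p, w ≠ c v ∧ (w ∉ S → c w = c v)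

end Pool.Agent.H34.GC
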