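import Pool.Agent.H34.GC.Def3

set_option autoImplicit false

/-!
# [H34 GC Def4] The grafts on four vertices which are not regular
-/

namespace Pool.Agent.H34.GC

/-- No component of `G - S` is adjacent to all vertices of `S`; for `v ∉ S` the vertex `c v` of `S`
is not adjacent to the component of `v`. -/
def ApartBy {V E : Type} (vtx : E → Finset V) (S : Finset V) (c : V → V) : Prop :=
  ∀ v, v ∉ S → c v ∈ S ∧ ∀ p, v ∈ vtx p → ∀ w ∈ vtx p, w ≠ c v ∧ (w ∉ S → c w = c v)

/-- `a` and `b` are joined in the subgraph induced on `a`, `b` and the vertices `v ∉ S` with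
`c v ≠ a`, `c v ≠ b` (no set `Z` separates them). -/
def Lk {V E : Type} (vtx : E → Finset V) (S : Finset V) (c : V → V) (a b : V) : Prop :=
  ∀ Z : Set V, a ∈ Z → b ∉ Z → ∃ p,
    (∀ v ∈ vtx p, v = a ∨ v = b ∨ (v ∉ S ∧ c v ≠ a ∧ c v ≠ b)) ∧
    ∃ v ∈ vtx p, ∃ w ∈ vtx p, v ∈ Z ∧ w ∉ Z

/-- `S` has four vertices, no component of `G - S` is adjacent to all of them, and any two of them
are joined as in `Lk`. -/
def Quad {V E : Type} (vtx : E → Finset V) (S : Finset V) : Prop :=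
  S.card = 4 ∧ ∃ c : V → V, ApartBy vtx S c ∧ ∀ a ∈ S, ∀ b ∈ S, a ≠ b → Lk vtx S c a b

end Pool.Agent.H34.GC
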