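import Pool.Agent.H34.GC.Def
import Pool.Agent.H34.PM.CU
import Pool.Agent.H34.PM.Tri

set_option autoImplicit false

/-! # [H34 GC Orth] vectors of a binary matroid and of its dual are orthogonal -/

namespace Pool.Agent.H34.GC

open Pool.Agent.H34.PM Finset Matroid

variable {α A B : Type}

theorem or_indep {F W : Type} [Field F] [AddCommGroup W] [Module F W] [Fintype α]
    (u : α → W) (I : Set α) :
    LinearIndepOn F u I ↔ ∀ c : α → F, (∀ p, p ∉ I → c p = 0) →
      ∑ p, c p • u p = 0 → ∀ p, c p = 0 := by
  classical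
  rw [linearIndepOn_iff']
  constructor
  · intro h c hc h0 p
    by_cases hp : p ∈ I
    · exact h (univ.filter (· ∈ I)) c (fun x hx => by simpa using hx)
        (by
          rw [Finset.sum_filter]
          refine Eq.trans ?_ h0
          refine Finset.sum_congr rfl fun q _ => ?_
          by_cases hq : q ∈ I
          · simp [hq]
          · simp [hq, hc q hq]) p (by simpa using hp)
    · exact hc p hp
  · intro h s g hs hg o ho
    have := h (fun q => if q ∈ s then g q else 0)
      (fun q hq => if_neg fun h1 => hq (hs h1)) (by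
        rw [← hg]
        have e1 : ∑ i ∈ s, g i • u i = ∑ i : α, if i ∈ s then g i • u i else 0 := by
          rw [Finset.sum_ite_mem, Finset.univ_inter]
        rw [e1]
        refine Finset.sum_congr rfl fun q _ => ?_
        by_cases hq : q ∈ s
        · simp [hq]
        · simp [hq]) o
    simpa [ho] using this

/-- The row map. -/
noncomputable def rowMap [Fintype A] (v : α → A → ZMod 2) :
    (A → ZMod 2) →ₗ[ZMod 2] (α → ZMod 2) where
  toFun x := fun p => ∑ f, x f * v p f
  map_add' x y := by
    ext p
    simp only [Pi.add_apply, add_mul, Finset.sum_add_distrib]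
  map_smul' r x := by
    ext p
    simp only [Pi.smul_apply, smul_eq_mul, RingHom.id_apply, Finset.mul_sum, mul_assoc]

theorem dual_indep [Fintype α] [Fintype A] (v : α → A → ZMod 2) (I : Set α) :
    (lin (ZMod 2) v)✶.Indep I ↔ ∀ x : A → ZMod 2,
      (∀ p, p ∉ I → ∑ f, x f * v p f = 0) → ∀ p, ∑ f, x f * v p f = 0 := by
  classical
  have hgr : (lin (ZMod 2) v).E = Set.univ := rfl
  have r2 : (lin (ZMod 2) v)✶.Indep I ↔ ∀ p, v p ∈
      Submodule.span (ZMod 2) (v '' Iᶜ) := by
    rw [← Matroid.coindep_def, Matroid.coindep_iff_compl_spanning (by rw [hgr]; exact Set.subset_univ _),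
      Matroid.spanning_iff_closure_eq (by rw [hgr]; exact Set.subset_univ _), hgr, Set.eq_univ_iff_forall,
      ← Set.compl_eq_univ_sdiff]
    exact forall_congr' fun p => lin_closure (ZMod 2) v _ p
  rw [r2]
  constructor
  · intro h1 x hx p
    have h2 : Submodule.span (ZMod 2) (v '' Iᶜ) ≤
        LinearMap.ker (Fintype.linearCombination (ZMod 2) (M := ZMod 2) x) := by
      rw [Submodule.span_le]
      rintro _ ⟨q, hq, rfl⟩
      have h3 := hx q hq
      simp only [SetLike.mem_coe, LinearMap.mem_ker, Fintype.linearCombination_apply, smul_eq_mul]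
      rw [← h3]
      exact Finset.sum_congr rfl fun f _ => mul_comm _ _
    have h4 := h2 (h1 p)
    simp only [LinearMap.mem_ker, Fintype.linearCombination_apply, smul_eq_mul] at h4
    rw [← h4]
    exact Finset.sum_congr rfl fun f _ => mul_comm _ _
  · intro h1 p
    by_contra h2
    obtain ⟨F, hF, hker⟩ := Submodule.exists_le_ker_of_notMem h2
    have hrep : ∀ y : A → ZMod 2, F y = ∑ f, F (Pi.single f 1) * y f := by
      intro y
      rw [LinearMap.pi_apply_eq_sum_univ F y]
      refine Finset.sum_congr rfl fun f _ => ?_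
      rw [smul_eq_mul, mul_comm]
      congr 2
      ext g
      by_cases hg : f = g
      · subst hg; simp
      · simp [hg, Ne.symm hg]
    apply hF
    rw [hrep]
    refine h1 (fun f => F (Pi.single f 1)) (fun q hq => ?_) p
    rw [← hrep]
    exact hker (Submodule.subset_span ⟨q, hq, rfl⟩)

theorem orth [Fintype α] [Fintype A] (v : α → A → ZMod 2) (u : α → B → ZMod 2)
    (h : (lin (ZMod 2) v)✶ = lin (ZMod 2) u) (a : A) (b : B) : ∑ o, v o a * u o b = 0 := by
  classical
  let u' : α → (α → ZMod 2) ⧸ LinearMap.range (rowMap v) :=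
    fun p => Submodule.mkQ _ (Function.update (0 : α → ZMod 2) p 1)
  have hu : ∀ c : α → ZMod 2, ∑ p, c p • u' p = 0 ↔ ∃ x : A → ZMod 2, ∀ p, c p = ∑ f, x f * v p f := by
    intro c
    have hs : ∑ p, c p • u' p = Submodule.mkQ (LinearMap.range (rowMap v)) c := by
      simp only [u', ← map_smul, ← map_sum]
      congr 1
      ext q
      simp only [Finset.sum_apply, Pi.smul_apply, smul_eq_mul]
      rw [Finset.sum_eq_single q]
      · simp
      · intro p _ hpq
        rw [Function.update_of_ne (Ne.symm hpq)]
        simp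
      · intro hq
        exact absurd (Finset.mem_univ q) hq
    rw [hs, Submodule.mkQ_apply, Submodule.Quotient.mk_eq_zero]
    constructor
    · rintro ⟨x, rfl⟩
      exact ⟨x, fun p => rfl⟩
    · rintro ⟨x, hx⟩
      exact ⟨x, (funext hx).symm⟩
  have hmain : ∀ I : Set α, LinearIndepOn (ZMod 2) u' I ↔ LinearIndepOn (ZMod 2) u I := by
    intro I
    rw [← lin_indep (ZMod 2) u, ← h, dual_indep, or_indep u' I]
    constructor
    · intro h x hx p
      exact h (fun p => ∑ f, x f * v p f) hx ((hu _).2 ⟨x, fun p => rfl⟩) p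
    · intro h c hc h0
      obtain ⟨x, hx⟩ := (hu c).1 h0
      intro p
      rw [hx p]
      exact h x (fun q hq => by rw [← hx q]; exact hc q hq) p
  have key := rel_unique u' u hmain (fun o => v o a)
    ((hu _).2 ⟨Pi.single a 1, fun p => by simp [Pi.single_apply]⟩)
  have := congrFun key b
  simpa only [Finset.sum_apply, Pi.smul_apply, smul_eq_mul, Pi.zero_apply] using this

end Pool.Agent.H34.GC
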