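import Pool.Agent.H34.GC.Def2
import Pool.Agent.H34.PM.CU
import Pool.Agent.H34.PM.Tri

set_option autoImplicit false

/-! # [H34 GC R3] independent sets of the dual of a represented matroid -/

namespace Pool.Agent.H34.GC

open Pool.Agent.H34.PM Finset Matroid

theorem dual_indepF {α A : Type} [Fintype α] [Fintype A] (F : Type) [Field F] (v : α → A → F)
    (I : Set α) :
    (lin F v)✶.Indep I ↔ ∀ x : A → F,
      (∀ p, p ∉ I → ∑ f, x f * v p f = 0) → ∀ p, ∑ f, x f * v p f = 0 := by
  classical
  have hgr : (lin F v).E = Set.univ := rfl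
  have r2 : (lin F v)✶.Indep I ↔ ∀ p, v p ∈
      Submodule.span F (v '' Iᶜ) := by
    rw [← Matroid.coindep_def, Matroid.coindep_iff_compl_spanning (by rw [hgr]; exact Set.subset_univ _),
      Matroid.spanning_iff_closure_eq (by rw [hgr]; exact Set.subset_univ _), hgr, Set.eq_univ_iff_forall,
      ← Set.compl_eq_univ_sdiff]
    exact forall_congr' fun p => lin_closure F v _ p
  rw [r2]
  constructor
  · intro h1 x hx p
    have h2 : Submodule.span F (v '' Iᶜ) ≤
        LinearMap.ker (Fintype.linearCombination F (M := F) x) := by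
      rw [Submodule.span_le]
      rintro _ ⟨q, hq, rfl⟩
      have h3 := hx q hq
      simp only [SetLike.mem_coe, LinearMap.mem_ker, Fintype.linearCombination_apply, smul_eq_mul]
      rw [← h3]
      exact Finset.sum_congr rfl fun f _ => mul_comm _ _
    have h4 := h2 (h1 p)
    simp only [LinearMap.mem_ker, Fintype.linearCombination_apply, smul_eq_mul] at h4
    rw [← h4]
    exact Finset.sum_congr rfl fun f _ => mul_comm _ _
  · intro h1 p
    by_contra h2
    obtain ⟨G, hF, hker⟩ := Submodule.exists_le_ker_of_notMem h2
    have hrep : ∀ y : A → F, G y = ∑ f, G (Pi.single f 1) * y f := by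
      intro y
      rw [LinearMap.pi_apply_eq_sum_univ G y]
      refine Finset.sum_congr rfl fun f _ => ?_
      rw [smul_eq_mul, mul_comm]
      congr 2
      ext g
      by_cases hg : f = g
      · subst hg; simp
      · simp [hg, Ne.symm hg]
    apply hF
    rw [hrep]
    refine h1 (fun f => G (Pi.single f 1)) (fun q hq => ?_) p
    rw [← hrep]
    exact hker (Submodule.subset_span ⟨q, hq, rfl⟩)

end Pool.Agent.H34.GC
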