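import Pool.Agent.H34.GC.Def2
import Pool.Agent.H34.PM.Lem

set_option autoImplicit false

/-! # [H34 GC R5] vectors with constant sums at the vertices are in the row space of the faces -/

namespace Pool.Agent.H34.GC

open Pool.Agent.H34.PM Finset Module Matroid

variable {X V E Φ : Type}

private noncomputable def mf (F : Type) [Field F] {X : Type} (e : E → Finset X) : Matrix E X F :=
  Matrix.of (fun p x => incF F e p x)

private lemma sum_incF (F : Type) [Field F] {X : Type} [Fintype X] (e : E → Finset X) (p : E)
    (y : X → F) : ∑ x, incF F e p x * y x = ∑ x ∈ e p, y x := by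
  classical
  simp only [incF, ite_mul, one_mul, zero_mul]
  rw [Finset.sum_ite_mem, Finset.univ_inter]

private lemma kerF_le (F : Type) [Field F] {X : Type} [Fintype X] [Nonempty X]
    (e : E → Finset X) (h2 : ∀ p, (e p).card = 2) (hc : Conn e) :
    finrank F (LinearMap.ker (mf F e).mulVecLin) ≤ 1 := by
  classical
  obtain ⟨x0⟩ := ‹Nonempty X›
  let ev : LinearMap.ker (mf F e).mulVecLin →ₗ[F] F :=
    (LinearMap.proj x0).comp (LinearMap.ker (mf F e).mulVecLin).subtype
  have hinj : Function.Injective ev := by
    rw [← LinearMap.ker_eq_bot, LinearMap.ker_eq_bot']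
    rintro ⟨y, hy⟩ h0
    have h0' : y x0 = 0 := h0
    rw [LinearMap.mem_ker, Matrix.mulVecLin_apply] at hy
    have hS : {x | y x = 0} = Set.univ := by
      apply hc {x | y x = 0} ⟨x0, h0'⟩
      intro p a ha haS b hb
      by_cases hab : a = b
      · rw [← hab]; exact haS
      · have hp : ({a, b} : Finset X) = e p := by
          apply Finset.eq_of_subset_of_card_le
          · intro t ht
            rw [Finset.mem_insert, Finset.mem_singleton] at ht
            rcases ht with rfl | rfl
            · exact ha
            · exact hb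
          · rw [h2 p, Finset.card_pair hab]
        have h1 : ∑ x, incF F e p x * y x = 0 := congrFun hy p
        rw [sum_incF, ← hp, Finset.sum_pair hab] at h1
        have haS' : y a = 0 := haS
        rw [haS', zero_add] at h1
        exact h1
    apply Subtype.ext
    funext x
    have hx : x ∈ {x | y x = 0} := hS ▸ Set.mem_univ x
    exact hx
  have h3 := LinearMap.finrank_le_finrank_of_injective hinj
  rwa [Module.finrank_self] at h3

/-- R5 -/
theorem row_of_const [Fintype V] [Fintype E] [Fintype Φ] [Nonempty V] [Nonempty Φ]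
    {vtx : E → Finset V} {fac : E → Finset Φ}
    (two_v : ∀ p, (vtx p).card = 2) (two_f : ∀ p, (fac p).card = 2) (conn_v : Conn vtx)
    (conn_f : Conn fac) (by_ : ∃ y : V → ZMod 2, ∀ p, ∑ v, y v * inc vtx p v = 1)
    (bz : ∃ z : Φ → ZMod 2, ∀ p, ∑ f, z f * inc fac p f = 1)
    (heul : Fintype.card V + Fintype.card Φ = Fintype.card E + 3)
    (h1 : ∀ v f, Nat.card {p // v ∈ vtx p ∧ f ∈ fac p} = 1) (F : Type) [Field F]
    (c : E → F) (s : F) (hc : ∀ v, ∑ p, c p * incF F vtx p v = s) :
    ∃ x : Φ → F, ∀ p, c p = ∑ f, x f * incF F fac p f := by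
  classical
  have k1 := kerF_le F vtx two_v conn_v
  have k2 := kerF_le F fac two_f conn_f
  have r1 : (mf F vtx).rank + finrank F (LinearMap.ker (mf F vtx).mulVecLin)
      = Fintype.card V := by
    rw [Matrix.rank, LinearMap.finrank_range_add_finrank_ker, Module.finrank_fintype_fun_eq_card]
  have r2 : (mf F vtx).transpose.rank +
      finrank F (LinearMap.ker (mf F vtx).transpose.mulVecLin) = Fintype.card E := by
    rw [Matrix.rank, LinearMap.finrank_range_add_finrank_ker, Module.finrank_fintype_fun_eq_card]
  have r3 : (mf F fac).rank + finrank F (LinearMap.ker (mf F fac).mulVecLin)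
      = Fintype.card Φ := by
    rw [Matrix.rank, LinearMap.finrank_range_add_finrank_ker, Module.finrank_fintype_fun_eq_card]
  have r4 : (mf F vtx).transpose.rank = (mf F vtx).rank := Matrix.rank_transpose _
  obtain ⟨A, hA⟩ : ∃ A : (E → F) →ₗ[F] (V → F), A = (mf F vtx).transpose.mulVecLin := ⟨_, rfl⟩
  rw [← hA] at r2
  have hAv : ∀ (d : E → F) (v : V), A d v = ∑ p, d p * incF F vtx p v := by
    intro d v
    rw [hA, Matrix.mulVecLin_apply]
    change ∑ p, incF F vtx p v * d p = _
    exact Finset.sum_congr rfl fun p _ => mul_comm _ _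
  obtain ⟨U, hU⟩ : ∃ U : Submodule F (E → F),
      U = Submodule.comap A (Submodule.span F {(fun _ => 1 : V → F)}) := ⟨_, rfl⟩
  have memU : ∀ d : E → F, d ∈ U ↔ ∃ t : F, ∀ v, ∑ p, d p * incF F vtx p v = t := by
    intro d
    rw [hU, Submodule.mem_comap, Submodule.mem_span_singleton]
    constructor
    · rintro ⟨t, ht⟩
      refine ⟨t, fun v => ?_⟩
      rw [← hAv, ← ht]
      simp
    · rintro ⟨t, ht⟩
      refine ⟨t, ?_⟩
      funext v
      rw [hAv, ht]
      simp
  have hUdim : finrank F U ≤ finrank F (LinearMap.ker A) + 1 := by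
    have h2 := LinearMap.finrank_range_add_finrank_ker (A.domRestrict U)
    have h3 : finrank F (LinearMap.range (A.domRestrict U)) ≤ 1 := by
      have h4 : LinearMap.range (A.domRestrict U) ≤
          Submodule.span F {(fun _ => 1 : V → F)} := by
        rintro _ ⟨⟨u, hu⟩, rfl⟩
        rw [hU] at hu
        exact hu
      exact (Submodule.finrank_mono h4).trans ((finrank_span_le_card _).trans (by simp))
    have h5 : finrank F (LinearMap.ker (A.domRestrict U)) ≤ finrank F (LinearMap.ker A) := by
      rw [← Submodule.finrank_map_subtype_eq U (LinearMap.ker (A.domRestrict U))]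
      apply Submodule.finrank_mono
      rintro _ ⟨⟨u, hu⟩, hu2, rfl⟩
      exact hu2
    omega
  have hle : LinearMap.range (mf F fac).mulVecLin ≤ U := by
    rintro _ ⟨x, rfl⟩
    rw [Matrix.mulVecLin_apply, memU]
    refine ⟨∑ f, x f, fun v => ?_⟩
    have hx : ∀ p, (mf F fac).mulVec x p = ∑ f, incF F fac p f * x f := fun p => rfl
    simp only [hx, Finset.sum_mul]
    rw [Finset.sum_comm]
    refine Finset.sum_congr rfl fun f _ => ?_
    have h2 : ∑ p, incF F fac p f * x f * incF F vtx p v =
        x f * ∑ p, incF F fac p f * incF F vtx p v := by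
      rw [Finset.mul_sum]
      exact Finset.sum_congr rfl fun p _ => by ring
    have h3 : ∑ p, incF F fac p f * incF F vtx p v = 1 := by
      have h4 : ∀ p, incF F fac p f * incF F vtx p v =
          if (v ∈ vtx p ∧ f ∈ fac p) then 1 else 0 := by
        intro p
        simp only [incF]
        by_cases h5 : f ∈ fac p
        · by_cases h6 : v ∈ vtx p
          · simp [h5, h6]
          · simp [h5, h6]
        · simp [h5]
      simp only [h4]
      rw [Finset.sum_boole]
      have h7 := h1 v f
      rw [Nat.card_eq_fintype_card, Fintype.card_subtype] at h7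
      rw [h7, Nat.cast_one]
    rw [h2, h3, mul_one]
  have heq : LinearMap.range (mf F fac).mulVecLin = U := by
    apply Submodule.eq_of_le_of_finrank_le hle
    have h5 : finrank F (LinearMap.range (mf F fac).mulVecLin) = (mf F fac).rank := rfl
    have h6 : (mf F vtx).transpose.rank = finrank F (LinearMap.range A) := by
      rw [hA]
      rfl
    omega
  have hcU : c ∈ U := (memU c).mpr ⟨s, hc⟩
  rw [← heq] at hcU
  obtain ⟨x, hx⟩ := hcU
  refine ⟨x, fun p => ?_⟩
  rw [← hx, Matrix.mulVecLin_apply]
  change ∑ f, incF F fac p f * x f = _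
  exact Finset.sum_congr rfl fun f _ => mul_comm _ _

end Pool.Agent.H34.GC
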