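import Pool.Agent.H34.GC.R1
import Pool.Agent.H34.GC.R3
import Pool.Agent.H34.GC.R5
import Pool.Agent.H34.GC.Orth

set_option autoImplicit false

/-! # [H34 GC R4] the extremal matroid is regular -/

namespace Pool.Agent.H34.GC

open Pool.Agent.H34.PM Finset Module Matroid

variable {V E Φ : Type}

/-- The vectors over `F`. -/
noncomputable def uF (F : Type) [Field F] (vtx : E → Finset V) : Option E → (V → F)
  | none => fun _ => 1
  | some p => incF F vtx p

theorem regular_tight [Fintype V] [Fintype E] [Fintype Φ] [Nonempty V] [Nonempty Φ]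
    {vtx : E → Finset V} {fac : E → Finset Φ}
    (two_v : ∀ p, (vtx p).card = 2) (two_f : ∀ p, (fac p).card = 2) (conn_v : Conn vtx)
    (conn_f : Conn fac) (by_ : ∃ y : V → ZMod 2, ∀ p, ∑ v, y v * inc vtx p v = 1)
    (bz : ∃ z : Φ → ZMod 2, ∀ p, ∑ f, z f * inc fac p f = 1)
    (heul : Fintype.card V + Fintype.card Φ = Fintype.card E + 3)
    (h1 : ∀ v f, Nat.card {p // v ∈ vtx p ∧ f ∈ fac p} = 1)
    (M : Matroid (Option E)) (hE : M.E = Set.univ) (hl : M.IsNonloop none)
    (hd : M ＼ {none} = (cyc vtx).map some (Option.some_injective E).injOn)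
    (hc : M ／ {none} = ((cyc fac)✶).map some (Option.some_injective E).injOn) : Regular M := by
  classical
  intro F _
  have hinc : ∀ v f, ∑ p, incF F vtx p v * incF F fac p f = 1 := by
    intro v f
    have h2 : ∀ p, incF F vtx p v * incF F fac p f = if v ∈ vtx p ∧ f ∈ fac p then 1 else 0 := by
      intro p
      by_cases h1 : v ∈ vtx p <;> by_cases h2 : f ∈ fac p <;> simp [incF, h1, h2]
    rw [Finset.sum_congr rfl fun p _ => h2 p, Finset.sum_boole]
    have h3 := h1 v f
    rw [Nat.card_eq_fintype_card, Fintype.card_subtype] at h3
    rw [h3, Nat.cast_one]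
  have hmap : ∀ (N : Matroid E) (J : Set E),
      (N.map some (Option.some_injective E).injOn).Indep (some '' J) ↔ N.Indep J := by
    intro N J
    rw [Matroid.map_indep_iff]
    constructor
    · rintro ⟨J', hJ', h⟩
      rwa [(Option.some_injective E).image_injective h]
    · intro hJ
      exact ⟨_, hJ, rfl⟩
  refine ⟨V → F, inferInstance, inferInstance, uF F vtx, fun I _ => ?_⟩
  by_cases hn : none ∈ I
  · -- with `none`
    obtain ⟨J, rfl⟩ : ∃ J : Set E, I = insert none (some '' J) := by
      refine ⟨some ⁻¹' I, ?_⟩
      ext o
      rcases o with _ | p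
      · simp [hn]
      · simp
    have h2 : M.Indep (insert none (some '' J)) ↔ (cyc fac)✶.Indep J := by
      rw [← hmap, ← hc, hl.contractElem_indep_iff]
      simp
    have h3 : (cyc fac)✶ = (lin F (incF F fac))✶ := by
      have : cyc fac = lin F (incF F fac) := by
        refine Matroid.ext_indep rfl fun K _ => ?_
        rw [lin_indep, bip_indep two_f bz F K]
        exact lin_indep _ _ _
      rw [this]
    rw [h2, h3, dual_indepF]
    have hli : LinearIndepOn F (uF F vtx) (insert none (some '' J)) ↔
        ∀ (c : E → F) (s : F), (∀ p, p ∉ J → c p = 0) →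
          (∀ v, s + ∑ p, c p * incF F vtx p v = 0) → (∀ p, c p = 0) ∧ s = 0 := by
      rw [or_indep]
      constructor
      · intro h c s hcJ hcs
        have h7 := h (fun o => o.elim s c) (by
          rintro (_ | p) hp
          · exact absurd (Set.mem_insert _ _) hp
          · exact hcJ p (fun hpJ => hp (Or.inr ⟨p, hpJ, rfl⟩))) (by
          rw [Fintype.sum_option]
          funext v
          simpa [uF, Finset.sum_apply] using hcs v)
        exact ⟨fun p => h7 (some p), h7 none⟩
      · intro h c hc0 h0
        have h7 := h (fun p => c (some p)) (c none) (fun p hp => hc0 _ (by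
          rintro (h | ⟨q, hq, h⟩)
          · cases h
          · exact hp (Option.some_injective E h ▸ hq))) (fun v => by
          have := congrFun h0 v
          rw [Fintype.sum_option] at this
          simpa [uF, Finset.sum_apply] using this)
        rintro (_ | p)
        · exact h7.2
        · exact h7.1 p
    rw [hli]
    constructor
    · intro h c s hcJ hcs
      obtain ⟨x, hx⟩ := row_of_const two_v two_f conn_v conn_f by_ bz heul h1 F c (-s) (fun v => by
        have := hcs v
        linear_combination this)
      have h4 := h x (fun p hp => by rw [← hx]; exact hcJ p hp)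
      have h5 : ∀ p, c p = 0 := fun p => by rw [hx]; exact h4 p
      refine ⟨h5, ?_⟩
      obtain ⟨v⟩ := ‹Nonempty V›
      have := hcs v
      simpa [h5] using this
    · intro h x hx p
      refine (h (fun p => ∑ f, x f * incF F fac p f) (-∑ f, x f) hx (fun v => ?_)).1 p
      have h6 : ∑ p, (∑ f, x f * incF F fac p f) * incF F vtx p v = ∑ f, x f := by
        simp only [Finset.sum_mul]
        rw [Finset.sum_comm]
        refine Finset.sum_congr rfl fun f _ => ?_
        calc ∑ p, x f * incF F fac p f * incF F vtx p v
            = x f * ∑ p, incF F vtx p v * incF F fac p f := by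
              rw [Finset.mul_sum]
              exact Finset.sum_congr rfl fun p _ => by ring
          _ = x f := by rw [hinc, mul_one]
      rw [h6]; ring
  · -- without `none`
    obtain ⟨J, rfl⟩ : ∃ J : Set E, I = some '' J := by
      refine ⟨some ⁻¹' I, ?_⟩
      ext o
      rcases o with _ | p
      · simp [hn]
      · simp
    have h2 : M.Indep (some '' J) ↔ (cyc vtx).Indep J := by
      rw [← hmap, ← hd, Matroid.deleteElem_indep_iff]
      simp
    rw [h2]
    have h3 : (cyc vtx).Indep J ↔ LinearIndepOn (ZMod 2) (inc vtx) J := lin_indep _ _ _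
    rw [h3, ← bip_indep two_v by_ F J]
    constructor
    · intro h
      exact LinearIndepOn.image_of_comp some (uF F vtx) h
    · intro h
      exact h.comp_of_image (Option.some_injective E).injOn

end Pool.Agent.H34.GC
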