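import Pool.Agent.H34.GC.Def

set_option autoImplicit false

/-!
# [H34 GC T4] Four odd pairs lie in at most two rows
-/

namespace Pool.Agent.H34.GC

open Pool.Agent.H34.PM Finset

variable {X V E Φ : Type}

/-- T4 -/
theorem two_rows [Fintype V] [Fintype E] [Fintype Φ] (vtx : E → Finset V) (fac : E → Finset Φ)
    (two_f : ∀ p, (fac p).card = 2) (D : Set E)
    (h : Nat.card {x : V × Φ // Nat.card {p // p ∈ D ∧ x.1 ∈ vtx p ∧ x.2 ∈ fac p} % 2 = 1} = 4) :
    ∃ a b : V, ∀ v, v ≠ a → v ≠ b →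
      ∀ f, Even (Nat.card {p // p ∈ D ∧ v ∈ vtx p ∧ f ∈ fac p}) := by
  classical
  obtain ⟨n, hn⟩ : ∃ n : V → Φ → ℕ, n = fun v f => Nat.card {p // p ∈ D ∧ v ∈ vtx p ∧ f ∈ fac p} :=
    ⟨_, rfl⟩
  have hn1 : ∀ v f, n v f = ∑ p, (if p ∈ D ∧ v ∈ vtx p ∧ f ∈ fac p then 1 else 0) := by
    intro v f
    rw [hn]
    show Nat.card {p // p ∈ D ∧ v ∈ vtx p ∧ f ∈ fac p} = _
    rw [Nat.card_eq_fintype_card, Fintype.card_subtype, Finset.card_filter]
  have hrow : ∀ v, Even (∑ f, n v f) := by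
    intro v
    simp only [hn1]
    rw [Finset.sum_comm]
    refine Finset.even_sum _ fun p _ => ?_
    by_cases h1 : p ∈ D ∧ v ∈ vtx p
    · have h2 : ∑ f, (if p ∈ D ∧ v ∈ vtx p ∧ f ∈ fac p then 1 else 0) = (fac p).card := by
        rw [← Finset.card_filter]
        congr 1
        ext f
        rw [Finset.mem_filter]
        exact ⟨fun h3 => h3.2.2.2, fun h3 => ⟨Finset.mem_univ _, h1.1, h1.2, h3⟩⟩
      rw [h2, two_f]
      exact even_two
    · have h2 : ∑ f, (if p ∈ D ∧ v ∈ vtx p ∧ f ∈ fac p then 1 else 0) = 0 :=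
        Finset.sum_eq_zero fun f _ => if_neg fun h3 => h1 ⟨h3.1, h3.2.1⟩
      rw [h2]
      exact Even.zero
  have hO : ∀ v, (∑ f, n v f % 2) % 2 = 0 := by
    intro v
    rw [← Finset.sum_nat_mod]
    exact Nat.even_iff.mp (hrow v)
  have htot : ∑ v, ∑ f, n v f % 2 = 4 := by
    rw [← h, Nat.card_eq_fintype_card, Fintype.card_subtype, Finset.card_filter,
      Fintype.sum_prod_type]
    refine Finset.sum_congr rfl fun v _ => Finset.sum_congr rfl fun f _ => ?_
    have h1 : Nat.card {p // p ∈ D ∧ v ∈ vtx p ∧ f ∈ fac p} = n v f := by rw [hn]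
    simp only [h1]
    rcases Nat.mod_two_eq_zero_or_one (n v f) with h2 | h2
    · rw [h2, if_neg (by norm_num)]
    · rw [h2, if_pos rfl]
  obtain ⟨S, hS⟩ : ∃ S : Finset V, S = Finset.univ.filter fun v => ∑ f, n v f % 2 ≠ 0 := ⟨_, rfl⟩
  have hcard : S.card ≤ 2 := by
    have h1 : S.card • 2 ≤ ∑ v ∈ S, ∑ f, n v f % 2 := by
      refine Finset.card_nsmul_le_sum _ _ _ fun v hv => ?_
      rw [hS, Finset.mem_filter] at hv
      have h2 := hO v
      have h3 := hv.2
      omega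
    have h2 : ∑ v ∈ S, ∑ f, n v f % 2 ≤ ∑ v, ∑ f, n v f % 2 :=
      Finset.sum_le_sum_of_subset (Finset.subset_univ _)
    rw [htot] at h2
    rw [smul_eq_mul] at h1
    omega
  have hne : Nonempty V := by
    by_contra hcon
    rw [not_nonempty_iff] at hcon
    rw [Finset.univ_eq_empty, Finset.sum_empty] at htot
    omega
  obtain ⟨v0⟩ := hne
  obtain ⟨a, b, hab⟩ : ∃ a b : V, ∀ v ∈ S, v = a ∨ v = b := by
    rcases Nat.lt_or_ge S.card 1 with h1 | h1
    · have h2 : S = ∅ := Finset.card_eq_zero.mp (by omega)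
      exact ⟨v0, v0, fun v hv => by rw [h2] at hv; exact absurd hv (Finset.notMem_empty v)⟩
    · rcases Nat.lt_or_ge S.card 2 with h2 | h2
      · obtain ⟨a, ha⟩ := Finset.card_eq_one.mp (show S.card = 1 by omega)
        exact ⟨a, a, fun v hv => by rw [ha, Finset.mem_singleton] at hv; exact Or.inl hv⟩
      · obtain ⟨a, b, -, ha⟩ := Finset.card_eq_two.mp (show S.card = 2 by omega)
        exact ⟨a, b, fun v hv => by
          rw [ha, Finset.mem_insert, Finset.mem_singleton] at hv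
          exact hv⟩
  refine ⟨a, b, fun v hva hvb f => ?_⟩
  have h1 : v ∉ S := fun h2 => (hab v h2).elim hva hvb
  have h2 : ∑ f, n v f % 2 = 0 := by
    by_contra h3
    exact h1 (by rw [hS, Finset.mem_filter]; exact ⟨Finset.mem_univ _, h3⟩)
  have h3 : n v f % 2 = 0 := Finset.sum_eq_zero_iff.mp h2 f (Finset.mem_univ _)
  have h4 : Nat.card {p // p ∈ D ∧ v ∈ vtx p ∧ f ∈ fac p} = n v f := by rw [hn]
  rw [h4]
  exact Nat.even_iff.mpr h3

end Pool.Agent.H34.GC
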