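import Pool.Agent.H34.GC.B4
import Pool.Agent.H34.PM.CF

set_option autoImplicit false

/-!
# [H34 GC T5] the star of a vertex which a set of edges meets evenly (helper74)
-/

namespace Pool.Agent.H34.GC

open Pool.Agent.H34.PM Finset Module Matroid

variable {V E Φ : Type}

/-- T5 -/
theorem GPair.star_cases [Fintype V] [Fintype E] [Fintype Φ] {vtx : E → Finset V}
    {fac : E → Finset Φ} {t : V → ZMod 2} (h : GPair vtx fac t) (D : Set E) (v : V)
    (hD : ∀ f, Even (Nat.card {p // p ∈ D ∧ v ∈ vtx p ∧ f ∈ fac p})) :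
    (∀ p ∈ D, v ∉ vtx p) ∨ (t v = 0 ∧ ∀ p, v ∈ vtx p → p ∈ D) := by
  classical
  obtain ⟨T', hT', hne'⟩ := h.dual
  have hcyc : IsCyc fac (fun p => if p ∈ D ∧ v ∈ vtx p then 1 else 0) := by
    intro f
    have h1 : ∀ p, (if p ∈ D ∧ v ∈ vtx p then (1 : ZMod 2) else 0) * inc fac p f =
        if p ∈ D ∧ v ∈ vtx p ∧ f ∈ fac p then 1 else 0 := by
      intro p
      simp only [inc]
      by_cases h1 : p ∈ D <;> by_cases h2 : v ∈ vtx p <;> by_cases h3 : f ∈ fac p <;>
        simp [h1, h2, h3]
    rw [Finset.sum_congr rfl fun p _ => h1 p, Finset.sum_boole]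
    have h2 := hD f
    rw [Nat.card_eq_fintype_card, Fintype.card_subtype] at h2
    rw [ZMod.natCast_eq_zero_iff]
    exact h2.two_dvd
  rcases bond h.two_v h.conn2_v v _ (h.cyc_cut _ hcyc) (fun p hp => by
    by_contra hc
    exact hp (if_neg fun h1 => hc h1.2)) with h1 | h1
  · left
    intro p hpD hvp
    have h2 := congrFun h1 p
    simp [hvp, hpD] at h2
  · right
    refine ⟨?_, fun p hvp => ?_⟩
    · obtain ⟨f, hf⟩ : ∃ f, T' f ≠ 0 := by
        by_contra hc
        push Not at hc
        exact hne' (funext hc)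
      have h2 := hcyc f
      rw [h1] at h2
      have h3 : t v * T' f = 0 := by
        rw [← hT' v f]
        exact h2
      exact (mul_eq_zero.1 h3).resolve_right hf
    · by_contra hpD
      have h2 := congrFun h1 p
      simp [inc, hvp, hpD] at h2

end Pool.Agent.H34.GC
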