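import Pool.Agent.H34.GC.Def2
import Pool.Agent.H34.PM.Tri

set_option autoImplicit false

/-! # [H34 GC T6] a 2-separation (helper3) -/

namespace Pool.Agent.H34.GC

open Pool.Agent.H34.PM Finset Module Matroid

variable {X V E Φ : Type}

/-- ranks in `lin` are dimensions of spans -/
theorem lin_eRk (F : Type) {α W : Type} [Field F] [Finite α] [AddCommGroup W] [Module F W]
    (v : α → W) (X : Set α) :
    (lin F v).eRk X = (finrank F (Submodule.span F (v '' X)) : ℕ) := by
  obtain ⟨I, hI⟩ := (lin F v).exists_isBasis' X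
  have h1 : Submodule.span F (v '' X) = Submodule.span F (v '' I) := by
    apply le_antisymm
    · rw [Submodule.span_le]
      rintro _ ⟨x, hx, rfl⟩
      have h2 : x ∈ (lin F v).closure I := by
        rw [hI.closure_eq_closure]
        exact (lin F v).subset_closure X (Set.subset_univ X) hx
      exact (lin_closure F v I x).mp h2
    · exact Submodule.span_mono (Set.image_mono hI.subset)
  have hIi := (lin_indep F v I).1 hI.indep
  have := Fintype.ofFinite I
  have e1 := finrank_span_eq_card (R := F) (b := fun i : I => v i) hIi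
  have r1 : Set.range (fun i : I => v i) = v '' I := by ext x; simp
  rw [r1] at e1
  rw [hI.eRk_eq_encard, h1, e1, ← Nat.card_eq_fintype_card, Nat.card_coe_set_eq]
  exact (Set.toFinite I).cast_ncard_eq.symm

theorem span_supp [Fintype V] {B : Type} {e : B → Finset V} (hev : ∀ p, Even (e p).card)
    (Z : Set B) (T : Set V) (hZ : ∀ p ∈ Z, ∀ x ∈ e p, x ∈ T) :
    ∀ z ∈ Submodule.span (ZMod 2) (inc e '' Z), (∀ x, x ∉ T → z x = 0) ∧ ∑ x, z x = 0 := by
  classical
  intro z hz
  induction hz using Submodule.span_induction with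
  | mem z hz =>
    obtain ⟨p, hp, rfl⟩ := hz
    refine ⟨fun x hx => ?_, ?_⟩
    · simp only [inc]
      rw [if_neg (fun h => hx (hZ p hp x h))]
    · simp only [inc]
      rw [Finset.sum_ite_mem, Finset.univ_inter, Finset.sum_const, nsmul_eq_mul, mul_one]
      exact (ZMod.natCast_eq_zero_iff_even).mpr (hev p)
  | zero => simp
  | add y z _ _ hy hz =>
    refine ⟨fun x hx => ?_, ?_⟩
    · rw [Pi.add_apply, hy.1 x hx, hz.1 x hx, add_zero]
    · simp only [Pi.add_apply, Finset.sum_add_distrib, hy.2, hz.2, add_zero]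
  | smul c y _ hy =>
    refine ⟨fun x hx => ?_, ?_⟩
    · rw [Pi.smul_apply, hy.1 x hx, smul_zero]
    · simp only [Pi.smul_apply, ← Finset.smul_sum, hy.2, smul_zero]

/-- T6 -/
theorem two_sep [Fintype V] [Fintype E] {vtx : E → Finset V} (two : ∀ p, (vtx p).card = 2)
    (hc : Conn vtx) (S : Finset V) (hS : Even S.card)
    (h3 : ThreeConnected (cyc (fun o : Option E => o.elim S vtx))) (D : Set E) (a b : V)
    (hD : ∀ v, v ≠ a → v ≠ b → (∀ p ∈ D, v ∉ vtx p) ∨ (v ∉ S ∧ ∀ p, v ∈ vtx p → p ∈ D))
    (hne : ∃ p, p ∉ D) : D.Subsingleton := by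
  classical
  by_contra hsub
  rw [Set.not_subsingleton_iff] at hsub
  obtain ⟨p, hp, q, hq, hpq⟩ := hsub
  obtain ⟨r, hr⟩ := hne
  let e : Option E → Finset V := fun o => o.elim S vtx
  have hev : ∀ o, Even (e o).card := by
    rintro (_ | p)
    · exact hS
    · change Even (vtx p).card
      rw [two p]
      exact even_two
  let A : Set (Option E) := some '' D
  have hY : (Aᶜ : Set (Option E)) = {o | ∀ p, o = some p → p ∉ D} := by
    ext o
    simp only [A, Set.mem_compl_iff, Set.mem_image, Set.mem_ofPred_eq, not_exists, not_and]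
    exact ⟨fun h p hp hpD => h p hpD hp.symm, fun h p hpD hp => h p hp.symm hpD⟩
  refine h3 2 (Or.inr rfl) A Aᶜ (Set.union_compl_self A) disjoint_compl_right ?_ ?_ ?_
  · have h1 : ({some p, some q} : Set (Option E)) ⊆ A := by
      rintro o (rfl | rfl)
      · exact ⟨p, hp, rfl⟩
      · exact ⟨q, hq, rfl⟩
    have h2 := Set.encard_le_encard h1
    rw [Set.encard_pair (fun h => hpq (Option.some_injective _ h))] at h2
    exact h2
  · have h1 : ({none, some r} : Set (Option E)) ⊆ Aᶜ := by
      rw [hY]
      rintro o (rfl | rfl)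
      · intro p hp
        cases hp
      · intro p hp hpD
        rw [← Option.some_injective _ hp] at hpD
        exact hr hpD
    have h2 := Set.encard_le_encard h1
    rw [Set.encard_pair (by simp)] at h2
    exact h2
  · -- ranks
    let P := Submodule.span (ZMod 2) (inc e '' A)
    let Q := Submodule.span (ZMod 2) (inc e '' Aᶜ)
    let R := Submodule.span (ZMod 2) (inc e '' Set.univ)
    have hsup : P ⊔ Q ≤ R :=
      sup_le (Submodule.span_mono (Set.image_mono (Set.subset_univ _)))
        (Submodule.span_mono (Set.image_mono (Set.subset_univ _)))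
    have hinf : P ⊓ Q ≤ Submodule.span (ZMod 2) {(Pi.single a 1 + Pi.single b 1 : V → ZMod 2)} := by
      rintro z ⟨hz1, hz2⟩
      obtain ⟨h1, h2⟩ := span_supp hev A {v | v = a ∨ v = b ∨ (v ∉ S ∧ ∀ p, v ∈ vtx p → p ∈ D)} (by
        rintro _ ⟨p, hp, rfl⟩ x hx
        by_cases ha : x = a
        · exact Or.inl ha
        · by_cases hb : x = b
          · exact Or.inr (Or.inl hb)
          · rcases hD x ha hb with h | h
            · exact absurd hx (h p hp)
            · exact Or.inr (Or.inr h)) z hz1
      obtain ⟨h4, -⟩ := span_supp hev Aᶜ {v | ¬ (v ≠ a ∧ v ≠ b ∧ v ∉ S ∧ ∀ p, v ∈ vtx p → p ∈ D)} (by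
        intro o ho x hx
        rw [hY] at ho
        rintro ⟨-, -, hxS, hxD⟩
        rcases o with _ | p
        · exact hxS hx
        · exact ho p rfl (hxD p hx)) z hz2
      have h5 : ∀ x, x ≠ a → x ≠ b → z x = 0 := by
        intro x hxa hxb
        by_cases h6 : x ∉ S ∧ ∀ p, x ∈ vtx p → p ∈ D
        · exact h4 x (fun h => h ⟨hxa, hxb, h6.1, h6.2⟩)
        · apply h1 x
          rintro (h | h | h)
          · exact hxa h
          · exact hxb h
          · exact h6 h
      rw [Submodule.mem_span_singleton]
      refine ⟨z a, ?_⟩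
      have h01 : ∀ x : ZMod 2, x + x = 0 := by decide
      by_cases hab : a = b
      · subst hab
        rw [Finset.sum_eq_single a (fun y _ hy => h5 y hy hy)
          (fun h => absurd (Finset.mem_univ a) h)] at h2
        funext x
        rw [h2, zero_smul]
        by_cases hx : x = a
        · rw [hx, h2]
          rfl
        · rw [h5 x hx hx]
          rfl
      · have h6 : z a + z b = 0 := by
          rw [← Finset.sum_pair hab, ← h2]
          apply Finset.sum_subset (Finset.subset_univ _)
          intro x _ hx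
          rw [Finset.mem_insert, Finset.mem_singleton, not_or] at hx
          exact h5 x hx.1 hx.2
        have h7 : z b = z a := by
          have : ∀ x y : ZMod 2, x + y = 0 → y = x := by decide
          exact this _ _ h6
        funext x
        simp only [Pi.smul_apply, Pi.add_apply, smul_eq_mul]
        by_cases hxa : x = a
        · rw [hxa, Pi.single_eq_same, Pi.single_eq_of_ne hab]
          ring
        · by_cases hxb : x = b
          · rw [hxb, Pi.single_eq_same, Pi.single_eq_of_ne (Ne.symm hab), h7]
            ring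
          · rw [Pi.single_eq_of_ne hxa, Pi.single_eq_of_ne hxb, h5 x hxa hxb]
            ring
    have f1 := Submodule.finrank_mono hsup
    have f2 := Submodule.finrank_mono hinf
    have f3 : finrank (ZMod 2) (Submodule.span (ZMod 2)
        {(Pi.single a 1 + Pi.single b 1 : V → ZMod 2)}) ≤ 1 := by
      have := finrank_span_le_card (R := ZMod 2)
        ({(Pi.single a 1 + Pi.single b 1 : V → ZMod 2)} : Set (V → ZMod 2))
      simpa using this
    have f4 := Submodule.finrank_sup_add_finrank_inf_eq P Q
    have hrk : (cyc e).eRank = (finrank (ZMod 2) R : ℕ) := by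
      rw [← eRk_ground]
      exact lin_eRk (ZMod 2) (inc e) Set.univ
    have hP : (cyc e).eRk A = (finrank (ZMod 2) P : ℕ) := lin_eRk (ZMod 2) (inc e) A
    have hQ : (cyc e).eRk Aᶜ = (finrank (ZMod 2) Q : ℕ) := lin_eRk (ZMod 2) (inc e) Aᶜ
    change (cyc e).eRk A + (cyc e).eRk Aᶜ + 1 ≤ (cyc e).eRank + ((2 : ℕ) : ℕ∞)
    rw [hrk, hP, hQ]
    norm_cast
    omega

end Pool.Agent.H34.GC
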