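import Pool.Agent.H34.GC.Def2

set_option autoImplicit false

/-! # [H34 GC T8] exactly one common edge of each vertex and each face -/

namespace Pool.Agent.H34.GC

open Pool.Agent.H34.PM Finset

variable {X V E Φ : Type}

/-- T8 -/
theorem one_edge [Fintype V] [Fintype E] [Fintype Φ] (vtx : E → Finset V) (fac : E → Finset Φ)
    (two_v : ∀ p, (vtx p).card = 2) (two_f : ∀ p, (fac p).card = 2) (hV : Fintype.card V = 6)
    (hF : Fintype.card Φ = 6) (hE : Fintype.card E = 9)
    (hodd : ∀ v f, Nat.card {p // v ∈ vtx p ∧ f ∈ fac p} % 2 = 1) (v : V) (f : Φ) :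
    Nat.card {p // v ∈ vtx p ∧ f ∈ fac p} = 1 := by
  classical
  have hn : ∀ v f, Nat.card {p // v ∈ vtx p ∧ f ∈ fac p} =
      ∑ p, (if v ∈ vtx p then 1 else 0) * (if f ∈ fac p then 1 else 0) := by
    intro v f
    rw [Nat.card_eq_fintype_card, Fintype.card_subtype, Finset.card_filter]
    refine Finset.sum_congr rfl fun p _ => ?_
    by_cases h1 : v ∈ vtx p <;> by_cases h2 : f ∈ fac p <;> simp [h1, h2]
  have hsum : ∑ x : V × Φ, Nat.card {p // x.1 ∈ vtx p ∧ x.2 ∈ fac p} = ∑ _x : V × Φ, 1 := by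
    simp only [hn]
    rw [Finset.sum_comm]
    have h1 : ∀ p, ∑ x : V × Φ, (if x.1 ∈ vtx p then 1 else 0) * (if x.2 ∈ fac p then 1 else 0) = 4 := by
      intro p
      rw [Fintype.sum_prod_type]
      have h2 : ∀ v : V, ∑ f : Φ, (if v ∈ vtx p then 1 else 0) * (if f ∈ fac p then 1 else 0) =
          (if v ∈ vtx p then 1 else 0) * 2 := by
        intro v
        rw [← Finset.mul_sum, Finset.sum_boole, Finset.filter_mem_eq_inter, Finset.univ_inter, two_f p]
        rfl
      simp only [h2]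
      rw [← Finset.sum_mul, Finset.sum_boole, Finset.filter_mem_eq_inter, Finset.univ_inter, two_v p]
      rfl
    simp only [h1]
    rw [Finset.sum_const, Finset.card_univ, hE, Finset.sum_const, Finset.card_univ,
      Fintype.card_prod, hV, hF]
    rfl
  have hle : ∀ x ∈ (Finset.univ : Finset (V × Φ)), 1 ≤ Nat.card {p // x.1 ∈ vtx p ∧ x.2 ∈ fac p} := by
    intro x _
    have := hodd x.1 x.2
    omega
  have h := (Finset.sum_eq_sum_iff_of_le hle).1 hsum.symm (v, f) (Finset.mem_univ _)
  exact h.symm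

end Pool.Agent.H34.GC
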