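import Pool.Agent.H34.GC.Def2

set_option autoImplicit false

/-! # [H34 GC T9] The first graph is bipartite -/

namespace Pool.Agent.H34.GC

open Pool.Agent.H34.PM Finset

variable {V E Φ : Type}

/-- T9 -/
theorem bip_of [Fintype V] [Fintype E] [Fintype Φ] (vtx : E → Finset V) (fac : E → Finset Φ)
    (two_v : ∀ p, (vtx p).card = 2) (hV : Fintype.card V = 6)
    (h1 : ∀ v f, Nat.card {p // v ∈ vtx p ∧ f ∈ fac p} = 1)
    (hrel : ∀ c : E → ZMod 2, IsCyc vtx c → IsCut fac c) :
    ∃ y : V → ZMod 2, ∀ p, ∑ v, y v * inc vtx p v = 1 := by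
  classical
  have hn : ∀ v f, (univ.filter fun p => v ∈ vtx p ∧ f ∈ fac p).card = 1 := by
    intro v f
    rw [← h1 v f, Nat.card_eq_fintype_card, Fintype.card_subtype]
  have h3 : ∀ f, (univ.filter fun p => f ∈ fac p).card = 3 := by
    intro f
    have h4 : ∑ v : V, (univ.filter fun p => v ∈ vtx p ∧ f ∈ fac p).card = 6 := by
      simp only [hn]
      simp [hV]
    have h5 : ∑ v : V, (univ.filter fun p => v ∈ vtx p ∧ f ∈ fac p).card =
        2 * (univ.filter fun p => f ∈ fac p).card := by
      simp only [Finset.card_filter]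
      rw [Finset.sum_comm, Finset.mul_sum]
      refine Finset.sum_congr rfl fun p _ => ?_
      by_cases hf : f ∈ fac p
      · simp only [hf, and_true, if_true, mul_one]
        rw [← Finset.card_filter, Finset.filter_mem_eq_inter, Finset.univ_inter, two_v]
      · simp [hf]
    omega
  have hs : ∀ f, ∑ p, inc fac p f = 1 := by
    intro f
    have h4 : ∀ p, inc fac p f = if f ∈ fac p then (1 : ZMod 2) else 0 := by
      intro p
      by_cases hf : f ∈ fac p
      · simp [inc, hf]
      · simp [inc, hf]
    simp only [h4]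
    rw [← Finset.sum_filter, Finset.sum_const, h3 f]
    decide
  have hb : ∀ v f, ∑ p, inc vtx p v * inc fac p f = 1 := by
    intro v f
    have h4 : ∀ p, inc vtx p v * inc fac p f = if v ∈ vtx p ∧ f ∈ fac p then (1 : ZMod 2) else 0 := by
      intro p
      by_cases hv : v ∈ vtx p
      · by_cases hf : f ∈ fac p
        · simp [inc, hv, hf]
        · simp [inc, hf]
      · simp [inc, hv]
    simp only [h4]
    rw [← Finset.sum_filter, Finset.sum_const, hn v f]
    decide
  have hne : Nonempty V := by
    rw [← Fintype.card_pos_iff, hV]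
    decide
  obtain ⟨v0⟩ := hne
  have hc : ∀ c : E → ZMod 2, IsCyc vtx c → ∑ p, c p = 0 := by
    intro c hcyc
    obtain ⟨x, hx⟩ := hrel c hcyc
    have h4 : ∑ f, x f = 0 := by
      have h5 := hcyc v0
      have h6 : ∀ p, c p * inc vtx p v0 = ∑ f, x f * (inc vtx p v0 * inc fac p f) := by
        intro p
        rw [hx p, Finset.sum_mul]
        exact Finset.sum_congr rfl fun f _ => by ring
      simp only [h6] at h5
      rw [Finset.sum_comm] at h5
      rw [← h5]
      refine Finset.sum_congr rfl fun f _ => ?_
      rw [← Finset.mul_sum, hb v0 f, mul_one]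
    rw [← h4]
    have h7 : ∑ p, c p = ∑ p, ∑ f, x f * inc fac p f := Finset.sum_congr rfl fun p _ => hx p
    rw [h7, Finset.sum_comm]
    refine Finset.sum_congr rfl fun f _ => ?_
    rw [← Finset.mul_sum, hs f, mul_one]
  let L : (V → ZMod 2) →ₗ[ZMod 2] (E → ZMod 2) :=
    { toFun := fun y p => ∑ v, y v * inc vtx p v
      map_add' := by
        intro a b
        funext p
        simp only [Pi.add_apply, add_mul, Finset.sum_add_distrib]
      map_smul' := by
        intro r a
        funext p
        simp only [Pi.smul_apply, smul_eq_mul, RingHom.id_apply, Finset.mul_sum, mul_assoc] }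
  have hmem : (fun _ : E => (1 : ZMod 2)) ∈ LinearMap.range L := by
    by_contra hcon
    obtain ⟨F, hF, hker⟩ := Submodule.exists_le_ker_of_notMem hcon
    have hrep : ∀ z : E → ZMod 2, F z = ∑ p, F (Pi.single p 1) * z p := by
      intro z
      rw [LinearMap.pi_apply_eq_sum_univ F z]
      refine Finset.sum_congr rfl fun f _ => ?_
      rw [smul_eq_mul, mul_comm]
      congr 2
      ext g
      by_cases hg : f = g
      · subst hg; simp
      · simp [hg, Ne.symm hg]
    have h0 : ∀ z, F (L z) = 0 := fun z => hker ⟨z, rfl⟩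
    have hc1 : IsCyc vtx (fun p => F (Pi.single p 1)) := by
      intro v
      have h1 := h0 (Pi.single v 1)
      rw [hrep] at h1
      rw [← h1]
      refine Finset.sum_congr rfl fun p _ => ?_
      congr 1
      show inc vtx p v = ∑ u, (Pi.single v 1 : V → ZMod 2) u * inc vtx p u
      rw [Finset.sum_eq_single v]
      · rw [Pi.single_eq_same, one_mul]
      · intro u _ hu
        rw [Pi.single_eq_of_ne hu, zero_mul]
      · intro hu
        exact absurd (Finset.mem_univ v) hu
    apply hF
    rw [hrep, ← hc _ hc1]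
    exact Finset.sum_congr rfl fun p _ => mul_one _
  obtain ⟨y, hy⟩ := hmem
  exact ⟨y, fun p => congrFun hy p⟩

end Pool.Agent.H34.GC
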