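import Pool.Agent.H34.GC.Core6
import Pool.Agent.H34.GC.A0
import Pool.Agent.H34.GC.B4
import Pool.Agent.H34.GC.B5
import Pool.Agent.H34.GC.T3
import Pool.Agent.H34.GC.T4
import Pool.Agent.H34.GC.T5
import Pool.Agent.H34.GC.T6
import Pool.Agent.H34.GC.T8
import Pool.Agent.H34.GC.T9
import Pool.Agent.H34.GC.R4

set_option autoImplicit false

/-!
# [H34 GC Fin6] The case `|S| = |T| = 6`
-/

namespace Pool.Agent.H34.GC

open Pool.Agent.H34.PM Finset Module Matroid

variable {V E Φ : Type}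

theorem fib_nonempty [Fintype V] [Fintype E] [Fintype Φ] {vtx : E → Finset V} {fac : E → Finset Φ}
    {D : Set E}
    (h : Nat.card {x : V × Φ // Nat.card {p // p ∈ D ∧ x.1 ∈ vtx p ∧ x.2 ∈ fac p} % 2 = 1} = 4) :
    D.Nonempty := by
  by_contra hne
  rw [Set.not_nonempty_iff_eq_empty] at hne
  subst hne
  have h0 : ∀ x : V × Φ, Nat.card {p // p ∈ (∅ : Set E) ∧ x.1 ∈ vtx p ∧ x.2 ∈ fac p} = 0 := by
    intro x
    have : IsEmpty {p // p ∈ (∅ : Set E) ∧ x.1 ∈ vtx p ∧ x.2 ∈ fac p} := ⟨fun p => p.2.1⟩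
    exact Nat.card_of_isEmpty
  have h1 : IsEmpty {x : V × Φ //
      Nat.card {p // p ∈ (∅ : Set E) ∧ x.1 ∈ vtx p ∧ x.2 ∈ fac p} % 2 = 1} :=
    ⟨fun x => by have := x.2; rw [h0] at this; omega⟩
  rw [Nat.card_of_isEmpty] at h
  omega

theorem regular_of_six [Fintype V] [Fintype E] [Fintype Φ] {vtx : E → Finset V}
    {fac : E → Finset Φ} (iso_v : NoIso vtx) (iso_f : NoIso fac) {t : V → ZMod 2}
    (hp : GPair vtx fac t) (S : Finset V) (T : Finset Φ) (hS : ∀ v, v ∈ S ↔ t v ≠ 0)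
    (hn : ∀ v f, Nat.card {p // v ∈ vtx p ∧ f ∈ fac p} % 2 = 1 ↔ v ∈ S ∧ f ∈ T)
    (heul : Fintype.card V + Fintype.card Φ = Fintype.card E + 3) (S6 : S.card = 6)
    (T6 : T.card = 6) (M : Matroid (Option E)) (hM : M = cyc (fun o : Option E => o.elim S vtx))
    (h3 : ThreeConnected M) (hl : M.IsNonloop none)
    (hd : M ＼ {none} = (cyc vtx).map some (Option.some_injective E).injOn)
    (hc : M ／ {none} = ((cyc fac)✶).map some (Option.some_injective E).injOn) : Regular M := by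
  classical
  obtain ⟨c, hc4⟩ := tight_graph_of exists_invol
    (fun h T T' a b c d e f g i => core6 h T T' a b c d e f g i) vtx fac hp.two_v hp.two_f iso_v iso_f S T hn
    (fun D hD => hp.h0 D hD) (by simpa only [Nat.card_eq_fintype_card] using heul) S6 T6
  have hsub : ∀ i, {p : E | c p = i}.Subsingleton := by
    intro i
    obtain ⟨a, b, hab⟩ := two_rows vtx fac hp.two_f {p : E | c p = i} (hc4 i)
    refine two_sep hp.two_v hp.conn_v S (by rw [S6]; decide) (hM ▸ h3) _ a b ?_ ?_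
    · intro v hva hvb
      rcases hp.star_cases {p : E | c p = i} v (hab v hva hvb) with h | ⟨h1, h2⟩
      · exact Or.inl h
      · exact Or.inr ⟨fun h => (hS v).1 h h1, h2⟩
    · obtain ⟨j, hj⟩ : ∃ j : Fin 9, j ≠ i := exists_ne i
      obtain ⟨p, hp'⟩ := fib_nonempty (hc4 j)
      exact ⟨p, fun h => hj (hp'.symm.trans h)⟩
  have hinj : Function.Injective c := fun p q h => hsub (c q) h rfl
  have h9 : Fintype.card E ≤ 9 := by
    simpa using Fintype.card_le_of_injective c hinj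
  have hSV := Finset.card_le_univ S
  have hTF := Finset.card_le_univ T
  have hV : Fintype.card V = 6 := by omega
  have hF : Fintype.card Φ = 6 := by omega
  have hE9 : Fintype.card E = 9 := by omega
  have hSu : S = univ := Finset.eq_univ_of_card S (by omega)
  have hTu : T = univ := Finset.eq_univ_of_card T (by omega)
  have h1 : ∀ v f, Nat.card {p // v ∈ vtx p ∧ f ∈ fac p} = 1 :=
    one_edge vtx fac hp.two_v hp.two_f hV hF hE9 (fun v f => (hn v f).2 (by simp [hSu, hTu]))
  have h1' : ∀ f v, Nat.card {p // f ∈ fac p ∧ v ∈ vtx p} = 1 := by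
    intro f v
    rw [← h1 v f]
    exact Nat.card_congr (Equiv.subtypeEquivRight fun p => and_comm)
  have by_ := bip_of vtx fac hp.two_v hV h1 (fun c hc => (hp.rel c).1 ⟨0, fun v => by
    rw [zero_mul]; exact hc v⟩)
  have bz := bip_of fac vtx hp.two_f hF h1' (fun d hd => hp.cyc_cut d hd)
  have : Nonempty V := Fintype.card_pos_iff.1 (by omega)
  have : Nonempty Φ := Fintype.card_pos_iff.1 (by omega)
  exact regular_tight hp.two_v hp.two_f hp.conn_v hp.conn_f by_ bz heul h1 M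
    (by rw [hM]; rfl) hl hd hc

end Pool.Agent.H34.GC
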