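import Pool.Agent.H34.GC.Def3

set_option autoImplicit false

/-! # [H34 GC U10] `{e, p, q}` is not a triangle and a triad -/

namespace Pool.Agent.H34.GC

open Pool.Agent.H34.PM Finset Module Matroid

variable {V E Φ : Type}

theorem U10_pair {α : Type} (a b : α) : ({a, b} : Set α).encard ≤ 2 := by
  refine (Set.encard_insert_le _ _).trans ?_
  rw [Set.encard_singleton]
  norm_num

/-- three vectors with sum 0 have rank at most 2 -/
theorem U10_rank {W : Type} [Finite E] (fac : E → Finset W) (T : Finset W) (p q : E)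
    (hT : ∀ f, f ∈ T ↔ ¬ (f ∈ fac p ↔ f ∈ fac q)) :
    (cyc (fun o : Option E => o.elim T fac)).eRk {none, some p, some q} ≤ 2 := by
  classical
  set u : Option E → Finset W := fun o => o.elim T fac with hu
  have hsum : inc u none = inc u (some p) + inc u (some q) := by
    funext f
    simp only [inc, Pi.add_apply, hu, Option.elim_none, Option.elim_some]
    by_cases h1 : f ∈ fac p <;> by_cases h2 : f ∈ fac q <;> simp [hT f, h1, h2]
    decide
  have hdep : ∀ I : Set (Option E), (cyc u).Indep I → I ⊆ {none, some p, some q} →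
      I.encard ≤ 2 := by
    intro I hI hsub
    by_contra hcon
    rw [not_le] at hcon
    have h3 : (3 : ℕ∞) ≤ I.encard := by
      have := Order.add_one_le_of_lt hcon
      norm_num at this
      exact this
    have hfull : I = {none, some p, some q} := by
      apply Set.Finite.eq_of_subset_of_encard_le (Set.toFinite _) hsub
      refine le_trans ?_ h3
      refine (Set.encard_insert_le _ _).trans ?_
      have : (({some p, some q} : Set (Option E))).encard ≤ 2 := U10_pair _ _
      calc _ ≤ (2 : ℕ∞) + 1 := by gcongr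
        _ = 3 := by norm_num
    rw [hfull] at hI h3
    have hpq : p ≠ q := by
      rintro rfl
      have h4 : ({none, some p, some p} : Set (Option E)).encard ≤ 2 := by
        rw [Set.pair_eq_singleton]
        exact U10_pair _ _
      exact absurd (h3.trans h4) (by decide)
    have hI' := (lin_indep (ZMod 2) (inc u) _).1 hI
    have hmem : inc u none ∈ Submodule.span (ZMod 2) (inc u '' {some p, some q}) := by
      rw [hsum]
      exact Submodule.add_mem _ (Submodule.subset_span ⟨_, by simp, rfl⟩)
        (Submodule.subset_span ⟨_, by simp, rfl⟩)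
    rw [linearIndepOn_insert (by simp)] at hI'
    exact hI'.2 hmem
  obtain ⟨I, hI⟩ := (cyc u).exists_isBasis' {none, some p, some q}
  rw [hI.eRk_eq_encard]
  exact hdep I hI.indep hI.subset

/-- U10 -/
theorem no_tri [Fintype V] [Fintype E] [Fintype Φ] {M : Matroid (Option E)} (vtx : E → Finset V)
    (fac : E → Finset Φ) (S : Finset V) (T : Finset Φ)
    (hM : M = cyc (fun o : Option E => o.elim S vtx))
    (hM' : M✶ = cyc (fun o : Option E => o.elim T fac)) (h3 : ThreeConnected M) (p q : E)
    (hpq : p ≠ q) (hS : ∀ v, v ∈ S ↔ ¬ (v ∈ vtx p ↔ v ∈ vtx q))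
    (hT : ∀ f, f ∈ T ↔ ¬ (f ∈ fac p ↔ f ∈ fac q)) (hcard : 4 ≤ Fintype.card E) : False := by
  classical
  have hE : M.E = Set.univ := by rw [hM]; rfl
  set X : Set (Option E) := {none, some p, some q} with hX
  have r1 : M.eRk X ≤ 2 := by
    rw [hM]
    exact U10_rank vtx S p q hS
  have r2 : M✶.eRk X ≤ 2 := by
    rw [hM']
    exact U10_rank fac T p q hT
  have hXc : X.encard = 3 := by
    rw [hX, Set.encard_insert_of_notMem (by simp), Set.encard_pair (by simpa using hpq)]
    norm_num
  have hdual := M.eRk_dual_add_eRank X (by rw [hE]; exact Set.subset_univ _)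
  have hYc : (2 : ℕ∞) ≤ (M.E \ X).encard := by
    have h1 : (M.E \ X).encard + X.encard = M.E.encard :=
      Set.encard_sdiff_add_encard_of_subset (by rw [hE]; exact Set.subset_univ _)
    have h2 : M.E.encard = Fintype.card E + 1 := by
      rw [hE, Set.encard_univ, ENat.card_eq_coe_fintype_card, Fintype.card_option]
      push_cast
      rfl
    rw [hXc, h2] at h1
    by_contra hcon
    rw [not_le] at hcon
    obtain ⟨a, ha⟩ := ENat.ne_top_iff_exists.1 (ne_top_of_lt hcon)
    rw [← ha] at h1 hcon
    norm_cast at h1 hcon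
    omega
  refine h3 2 (Or.inr rfl) X (M.E \ X) ?_ disjoint_sdiff_self_right ?_ ?_ ?_
  · rw [hE]
    exact Set.union_sdiff_cancel (Set.subset_univ _)
  · rw [hXc]
    norm_num
  · exact_mod_cast hYc
  · -- ranks
    have fin : ∀ (N : Matroid (Option E)) (Z : Set (Option E)), ∃ a : ℕ, N.eRk Z = a := by
      intro N Z
      obtain ⟨a, ha⟩ := ENat.ne_top_iff_exists.1
        (ne_top_of_le_ne_top (Set.encard_ne_top_iff.2 (Set.toFinite Z)) (N.eRk_le_encard Z))
      exact ⟨a, ha.symm⟩
    obtain ⟨a, ha⟩ := fin M X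
    obtain ⟨b, hb⟩ := fin M (M.E \ X)
    obtain ⟨c, hc⟩ := fin M✶ X
    obtain ⟨m, hm⟩ := fin M M.E
    rw [eRk_ground] at hm
    rw [hc, hm, hb, hXc] at hdual
    rw [ha] at r1
    rw [hc] at r2
    rw [ha, hb, hm]
    norm_cast at hdual r1 r2 ⊢
    omega

end Pool.Agent.H34.GC
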