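import Pool.Agent.H34.GC.A7
import Pool.Agent.H34.GC.Def3

set_option autoImplicit false

/-!
# [H34 GC U2] the classes of flags of two graphs with the same edges, `|T| = 4` (helper36)
-/

namespace Pool.Agent.H34.GC

open Pool.Agent.H34.PM Finset Module

variable {V E Φ : Type}

private theorem other_end4 {W : Type} (s : Finset W) (h : s.card = 2) (a : W) (ha : a ∈ s) :
    ∃ b ∈ s, b ≠ a ∧ ∀ c ∈ s, c = a ∨ c = b := by
  classical
  obtain ⟨x, y, hxy, rfl⟩ := Finset.card_eq_two.1 h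
  simp only [Finset.mem_insert, Finset.mem_singleton] at ha ⊢
  rcases ha with rfl | rfl
  · exact ⟨y, Or.inr rfl, fun h => hxy h.symm, fun c hc => hc⟩
  · exact ⟨x, Or.inl rfl, hxy, fun c hc => hc.symm⟩

private theorem even_of_invol4 {Y : Type} [Finite Y] (τ : Y → Y) (h : ∀ y, τ (τ y) = y)
    (hne : ∀ y, τ y ≠ y) : Even (Nat.card Y) := by
  classical
  have := Fintype.ofFinite Y
  have h1 : ∑ _y : Y, (1 : ZMod 2) = 0 :=
    Finset.sum_involution (fun y _ => τ y) (fun _ _ => by decide) (fun y _ _ => hne y)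
      (fun _ _ => Finset.mem_univ _) (fun y _ => h y)
  rw [Finset.sum_const, Finset.card_univ, nsmul_eq_mul, mul_one] at h1
  rw [Nat.card_eq_fintype_card]
  exact (ZMod.natCast_eq_zero_iff_even).1 h1

private theorem card_flag4 [Fintype V] [Fintype E] [Fintype Φ] (vtx : E → Finset V)
    (fac : E → Finset Φ) (two_v : ∀ p, (vtx p).card = 2) (two_f : ∀ p, (fac p).card = 2) :
    Nat.card (Flag vtx fac) = 4 * Nat.card E := by
  classical
  have e1 : Flag vtx fac ≃ Σ p : E, {v // v ∈ vtx p} × {f // f ∈ fac p} :=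
    { toFun := fun x => ⟨x.1.2.1, ⟨x.1.1, x.2.1⟩, ⟨x.1.2.2, x.2.2⟩⟩
      invFun := fun y => ⟨(y.2.1.1, y.1, y.2.2.1), y.2.1.2, y.2.2.2⟩
      left_inv := fun x => rfl
      right_inv := fun y => rfl }
  rw [Nat.card_congr e1, Nat.card_sigma]
  have h2 : ∀ p : E, Nat.card ({v // v ∈ vtx p} × {f // f ∈ fac p}) = 4 := by
    intro p
    rw [Nat.card_prod, Nat.card_eq_fintype_card, Nat.card_eq_fintype_card, Fintype.card_coe,
      Fintype.card_coe, two_v, two_f]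
  simp only [h2]
  rw [Finset.sum_const, Finset.card_univ, smul_eq_mul, Nat.card_eq_fintype_card, mul_comm]

private theorem parity_of_invol4 {Y : Type} [Finite Y] (τ : Y → Y) (h : ∀ y, τ (τ y) = y) :
    Nat.card Y % 2 = Nat.card {y // τ y = y} % 2 := by
  classical
  have := Fintype.ofFinite Y
  have h1 : Nat.card Y = Nat.card {y // τ y = y} + Nat.card {y // ¬ τ y = y} := by
    rw [Nat.card_eq_fintype_card, Nat.card_eq_fintype_card, Nat.card_eq_fintype_card]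
    rw [← Fintype.card_sum]
    exact Fintype.card_congr (Equiv.sumCompl (fun y => τ y = y)).symm
  have h2 : Even (Nat.card {y // ¬ τ y = y}) := by
    refine even_of_invol4 (Y := {y // ¬ τ y = y})
      (fun y => ⟨τ y.1, fun g => y.2 (by rw [h] at g; exact g.symm)⟩) ?_ ?_
    · intro y
      exact Subtype.ext (h y.1)
    · intro y g
      exact y.2 (congrArg Subtype.val g)
  obtain ⟨k, hk⟩ := h2
  omega

/-- U2 -/
theorem graph4_of [Fintype V] [Fintype E] [Fintype Φ]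
    (invol : ∀ (X : Type) [Finite X],
      ∃ τ : X → X, (∀ x, τ (τ x) = x) ∧ Nat.card {x // τ x = x} = Nat.card X % 2)
    (core4 : ∀ {X : Type} [Fintype X] {α β γ : X → X} {v : X → V} {e : X → E}
      {f : X → Φ} (_ : Sys α β γ v e f) (T : Finset V) (T' : Finset Φ)
      (_ : Nat.card X = 4 * Nat.card E) (_ : Nat.card {x // γ x = x} = T.card * T'.card)
      (_ : ∀ x, γ x = x → v x ∈ T ∧ f x ∈ T')
      (_ : ∀ x y, γ x = x → γ y = y → v x = v y → f x = f y → x = y)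
      (_ : ∀ O : Set X, Cl α β γ O → O.Nonempty → ∃ x ∈ O, γ x = x)
      (_ : Nat.card V + Nat.card Φ = Nat.card E + 3) (_ : T.card = 4),
      ∃ (n : ℕ) (q : X → Fin n), T'.card ≤ n + 1 ∧
        (∀ x, q (α x) = q x ∧ q (β x) = q x ∧ q (γ x) = q x) ∧
        ∀ i, 4 ≤ Nat.card {x // q x = i ∧ γ x = x})
    (vtx : E → Finset V) (fac : E → Finset Φ)
    (two_v : ∀ p, (vtx p).card = 2) (two_f : ∀ p, (fac p).card = 2) (iso_v : NoIso vtx)
    (iso_f : NoIso fac) (T : Finset V) (T' : Finset Φ)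
    (hn : ∀ v f, Nat.card {p // v ∈ vtx p ∧ f ∈ fac p} % 2 = 1 ↔ v ∈ T ∧ f ∈ T')
    (h0 : ∀ D : Set E, (∀ v f, Even (Nat.card {p // p ∈ D ∧ v ∈ vtx p ∧ f ∈ fac p})) → D = ∅)
    (heul : Nat.card V + Nat.card Φ = Nat.card E + 3) (hT : T.card = 4) :
    ∃ (n : ℕ) (c : E → Fin n), T'.card ≤ n + 1 ∧
      (∀ i, 4 ≤ Nat.card {x : V × Φ // Od vtx fac {p | c p = i} x.1 x.2}) ∧
      (∀ i v f, Od vtx fac {p | c p = i} v f → v ∈ T ∧ f ∈ T') ∧
      (∀ v f, v ∈ T → f ∈ T' → ∃! i, Od vtx fac {p | c p = i} v f) := by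
  classical
  choose a ha1 ha2 ha3 using fun x : Flag vtx fac =>
    other_end4 (vtx x.1.2.1) (two_v _) x.1.1 x.2.1
  choose b hb1 hb2 hb3 using fun x : Flag vtx fac =>
    other_end4 (fac x.1.2.1) (two_f _) x.1.2.2 x.2.2
  choose τ hτ1 hτ2 using fun (v : V) (f : Φ) => invol {p // v ∈ vtx p ∧ f ∈ fac p}
  set α : Flag vtx fac → Flag vtx fac := fun x => ⟨(a x, x.1.2.1, x.1.2.2), ha1 x, x.2.2⟩ with hα
  set β : Flag vtx fac → Flag vtx fac := fun x => ⟨(x.1.1, x.1.2.1, b x), x.2.1, hb1 x⟩ with hβ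
  set γ : Flag vtx fac → Flag vtx fac := fun x =>
    ⟨(x.1.1, (τ x.1.1 x.1.2.2 ⟨x.1.2.1, x.2⟩).1, x.1.2.2), (τ x.1.1 x.1.2.2 ⟨x.1.2.1, x.2⟩).2⟩
    with hγ
  -- fixed flags
  have fix : ∀ x : Flag vtx fac, γ x = x ↔
      τ x.1.1 x.1.2.2 ⟨x.1.2.1, x.2⟩ = ⟨x.1.2.1, x.2⟩ := by
    intro x
    constructor
    · intro h
      apply Subtype.ext
      exact congrArg (fun z : Flag vtx fac => z.1.2.1) h
    · intro h
      apply Subtype.ext
      refine Prod.ext rfl (Prod.ext ?_ rfl)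
      exact congrArg Subtype.val h
  have hfT : ∀ x, γ x = x → x.1.1 ∈ T ∧ x.1.2.2 ∈ T' := by
    intro x hx
    apply (hn x.1.1 x.1.2.2).1
    rw [← hτ2]
    have h1 : 0 < Nat.card {y // τ x.1.1 x.1.2.2 y = y} := by
      have : Nonempty {y // τ x.1.1 x.1.2.2 y = y} := ⟨⟨_, (fix x).1 hx⟩⟩
      exact Nat.card_pos
    have h2 := hτ2 x.1.1 x.1.2.2
    omega
  have hinj : ∀ x y : Flag vtx fac, γ x = x → γ y = y → x.1.1 = y.1.1 → x.1.2.2 = y.1.2.2 →
      x = y := by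
    rintro ⟨⟨v, p, f⟩, h1⟩ ⟨⟨v', p', f'⟩, h1'⟩ hx hy hv hf
    simp only at hv hf
    subst hv
    subst hf
    have h2 := (fix _).1 hx
    have h3 := (fix _).1 hy
    simp only at h2 h3
    have h4 : Nat.card {y // τ v f y = y} ≤ 1 := by
      rw [hτ2]
      omega
    have h5 : Subsingleton {y // τ v f y = y} := by
      rw [Nat.card_eq_fintype_card] at h4
      exact Fintype.card_le_one_iff_subsingleton.1 h4
    have h6 : (⟨_, h2⟩ : {y // τ v f y = y}) = ⟨_, h3⟩ := Subsingleton.elim _ _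
    have h7 : p = p' := congrArg (fun z : {y // τ v f y = y} => z.1.1) h6
    subst h7
    rfl
  have hfix : Nat.card {x // γ x = x} = T.card * T'.card := by
    rw [← Finset.card_product, ← Fintype.card_coe, ← Nat.card_eq_fintype_card]
    refine Nat.card_eq_of_bijective
      (fun x : {x // γ x = x} => (⟨(x.1.1.1, x.1.1.2.2), Finset.mem_product.2 (hfT x.1 x.2)⟩ :
        {y // y ∈ T ×ˢ T'})) ⟨?_, ?_⟩
    · intro x y hxy
      have h1 := congrArg Subtype.val hxy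
      simp only [Prod.mk.injEq] at h1
      exact Subtype.ext (hinj x.1 y.1 x.2 y.2 h1.1 h1.2)
    · rintro ⟨⟨v, f⟩, hvf⟩
      have h1 := (hn v f).2 (Finset.mem_product.1 hvf)
      rw [← hτ2] at h1
      have h2 : 0 < Nat.card {y // τ v f y = y} := by omega
      obtain ⟨⟨⟨p, hp⟩, hp2⟩⟩ := (Nat.card_pos_iff.1 h2).1
      exact ⟨⟨⟨(v, p, f), hp⟩, (fix ⟨(v, p, f), hp⟩).2 hp2⟩, rfl⟩
  have hαα : ∀ x, α (α x) = x := by
    intro x
    apply Subtype.ext
    refine Prod.ext ?_ rfl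
    rcases ha3 x (a (α x)) (ha1 (α x)) with h | h
    · exact h
    · exact absurd h (ha2 (α x))
  have hββ : ∀ x, β (β x) = x := by
    intro x
    apply Subtype.ext
    refine Prod.ext rfl (Prod.ext rfl ?_)
    rcases hb3 x (b (β x)) (hb1 (β x)) with h | h
    · exact h
    · exact absurd h (hb2 (β x))
  have hsys : Sys α β γ (fun x : Flag vtx fac => x.1.1) (fun x => x.1.2.1) (fun x => x.1.2.2) := by
    refine ⟨hαα, hββ, ?_, ?_, ?_, fun _ => rfl, fun _ => rfl, fun _ => rfl, fun _ => rfl,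
      fun _ => rfl, fun _ => rfl, ?_, ?_, ?_, ?_⟩
    · intro x
      apply Subtype.ext
      refine Prod.ext rfl (Prod.ext ?_ rfl)
      exact congrArg Subtype.val (hτ1 x.1.1 x.1.2.2 ⟨x.1.2.1, x.2⟩)
    · intro x hx
      exact ha2 x (congrArg (fun z : Flag vtx fac => z.1.1) hx)
    · intro x hx
      exact hb2 x (congrArg (fun z : Flag vtx fac => z.1.2.2) hx)
    · rintro ⟨⟨v, p, f⟩, h1⟩ ⟨⟨v', p', f'⟩, h1'⟩ hp
      simp only at hp
      subst hp
      have hb : ∀ z w : Flag vtx fac, z.1.2.1 = w.1.2.1 → z.1.1 = w.1.1 →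
          z.1.2.2 = w.1.2.2 → z = w := by
        intro z w g1 g2 g3
        exact Subtype.ext (Prod.ext g2 (Prod.ext g1 g3))
      rcases ha3 ⟨(v, p, f), h1⟩ v' h1'.1 with g | g
      · rcases hb3 ⟨(v, p, f), h1⟩ f' h1'.2 with g' | g'
        · exact Or.inl (hb _ _ rfl g g')
        · exact Or.inr (Or.inr (Or.inl (hb _ _ rfl g g')))
      · rcases hb3 ⟨(v, p, f), h1⟩ f' h1'.2 with g' | g'
        · exact Or.inr (Or.inl (hb _ _ rfl g g'))
        · refine Or.inr (Or.inr (Or.inr (hb _ _ rfl ?_ g')))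
          rcases ha3 (β ⟨(v, p, f), h1⟩) v' h1'.1 with k | k
          · exfalso
            have k2 : v' = v := k
            have k3 : a ⟨(v, p, f), h1⟩ ≠ v := ha2 ⟨(v, p, f), h1⟩
            exact k3 (g.symm.trans k2)
          · exact k
    · intro v
      obtain ⟨p, hp⟩ := iso_v v
      have h1 : (fac p).Nonempty := by
        rw [← Finset.card_pos, two_f]
        norm_num
      obtain ⟨f, hf⟩ := h1
      exact ⟨⟨(v, p, f), hp, hf⟩, rfl⟩
    · intro p
      have h1 : (fac p).Nonempty := by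
        rw [← Finset.card_pos, two_f]
        norm_num
      have h2 : (vtx p).Nonempty := by
        rw [← Finset.card_pos, two_v]
        norm_num
      obtain ⟨f, hf⟩ := h1
      obtain ⟨v, hv⟩ := h2
      exact ⟨⟨(v, p, f), hv, hf⟩, rfl⟩
    · intro f
      obtain ⟨p, hp⟩ := iso_f f
      have h1 : (vtx p).Nonempty := by
        rw [← Finset.card_pos, two_v]
        norm_num
      obtain ⟨v, hv⟩ := h1
      exact ⟨⟨(v, p, f), hv, hp⟩, rfl⟩
  have hO : ∀ O : Set (Flag vtx fac), Cl α β γ O → O.Nonempty → ∃ x ∈ O, γ x = x := by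
    intro O hc hne
    by_contra hcon
    push Not at hcon
    -- all flags at an edge of a flag in `O` are in `O`
    have hall : ∀ x ∈ O, ∀ y : Flag vtx fac, x.1.2.1 = y.1.2.1 → y ∈ O := by
      intro x hx y hxy
      rcases hsys.flags x y hxy with h | h | h | h
      · rw [h]; exact hx
      · rw [h]; exact (hc x hx).1
      · rw [h]; exact (hc x hx).2.1
      · rw [h]; exact (hc _ (hc x hx).2.1).1
    have hD := h0 {p | ∃ x ∈ O, x.1.2.1 = p} ?_
    · obtain ⟨x, hx⟩ := hne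
      have : x.1.2.1 ∈ ({p | ∃ x ∈ O, x.1.2.1 = p} : Set E) := ⟨x, hx, rfl⟩
      rw [hD] at this
      exact this
    · intro v f
      have hmem : ∀ p, (hp : v ∈ vtx p ∧ f ∈ fac p) →
          p ∈ ({p | ∃ x ∈ O, x.1.2.1 = p} : Set E) →
          (⟨(v, p, f), hp⟩ : Flag vtx fac) ∈ O := by
        rintro p hp ⟨x, hx, hxp⟩
        exact hall x hx _ hxp
      refine even_of_invol4 (Y := {p // p ∈ {p | ∃ x ∈ O, x.1.2.1 = p} ∧ v ∈ vtx p ∧ f ∈ fac p})
        (fun y => ⟨(τ v f ⟨y.1, y.2.2⟩).1,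
          ⟨_, (hc _ (hmem y.1 y.2.2 y.2.1)).2.2, rfl⟩, (τ v f ⟨y.1, y.2.2⟩).2⟩) ?_ ?_
      · intro y
        apply Subtype.ext
        have h1 := congrArg (fun z : {p // v ∈ vtx p ∧ f ∈ fac p} => z.1) (hτ1 v f ⟨y.1, y.2.2⟩)
        exact h1
      · intro y hy
        apply hcon _ (hmem y.1 y.2.2 y.2.1)
        rw [fix]
        apply Subtype.ext
        have h1 := congrArg Subtype.val hy
        exact h1
  obtain ⟨n, r, hn1, hr, hr4⟩ := core4 hsys T T' (card_flag4 vtx fac two_v two_f) hfix hfT hinj hO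
    heul hT
  -- all flags of an edge have the same class
  have hsame : ∀ x y : Flag vtx fac, x.1.2.1 = y.1.2.1 → r y = r x := by
    intro x y hxy
    rcases hsys.flags x y hxy with h | h | h | h
    · rw [h]
    · rw [h]; exact (hr x).1
    · rw [h]; exact (hr x).2.1
    · rw [h, (hr _).1]; exact (hr x).2.1
  choose φ hφ using hsys.e_surj
  have hc : ∀ x : Flag vtx fac, r (φ x.1.2.1) = r x := fun x => hsame x _ (hφ _).symm
  -- the involution on the edges of class `i` at `v`, `f`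
  have hfixcount : ∀ i v f, Nat.card {p // p ∈ {p : E | r (φ p) = i} ∧ v ∈ vtx p ∧ f ∈ fac p} % 2 =
      Nat.card {y : {p // p ∈ {p : E | r (φ p) = i} ∧ v ∈ vtx p ∧ f ∈ fac p} //
        (τ v f ⟨y.1, y.2.2⟩).1 = y.1} % 2 := by
    intro i v f
    have hmem : ∀ y : {p // p ∈ {p : E | r (φ p) = i} ∧ v ∈ vtx p ∧ f ∈ fac p},
        r (φ (τ v f ⟨y.1, y.2.2⟩).1) = i := by
      intro y
      have h1 : r (φ y.1) = i := y.2.1
      have h2 := hc (γ ⟨(v, y.1, f), y.2.2⟩)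
      have h3 := (hr ⟨(v, y.1, f), y.2.2⟩).2.2
      have h4 := hc ⟨(v, y.1, f), y.2.2⟩
      exact h2.trans (h3.trans (h4.symm.trans h1))
    have h1 := parity_of_invol4
      (Y := {p // p ∈ {p : E | r (φ p) = i} ∧ v ∈ vtx p ∧ f ∈ fac p})
      (fun y => ⟨(τ v f ⟨y.1, y.2.2⟩).1, hmem y, (τ v f ⟨y.1, y.2.2⟩).2⟩) (by
        intro y
        apply Subtype.ext
        have h1 := congrArg (fun z : {p // v ∈ vtx p ∧ f ∈ fac p} => z.1) (hτ1 v f ⟨y.1, y.2.2⟩)
        exact h1)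
    rw [h1]
    congr 1
    exact Nat.card_congr (Equiv.subtypeEquivRight (fun y => Subtype.ext_iff))
  have hOd : ∀ i v f, Od vtx fac {p | r (φ p) = i} v f ↔
      ∃ x : Flag vtx fac, γ x = x ∧ r x = i ∧ x.1.1 = v ∧ x.1.2.2 = f := by
    intro i v f
    unfold Od
    rw [hfixcount i v f]
    constructor
    · intro h1
      have h2 : 0 < Nat.card {y : {p // p ∈ {p : E | r (φ p) = i} ∧ v ∈ vtx p ∧ f ∈ fac p} //
          (τ v f ⟨y.1, y.2.2⟩).1 = y.1} := by omega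
      obtain ⟨⟨⟨⟨p, hp1, hp2⟩, hp3⟩⟩, -⟩ := Nat.card_pos_iff.1 h2
      exact ⟨⟨(v, p, f), hp2⟩, (fix ⟨(v, p, f), hp2⟩).2 (Subtype.ext hp3),
        (hc ⟨(v, p, f), hp2⟩).symm.trans hp1, rfl, rfl⟩
    · rintro ⟨⟨⟨v', p, f'⟩, hx⟩, hxf, hxi, hv, hf⟩
      simp only at hv hf
      subst hv
      subst hf
      have h4 : Nat.card {y // τ v' f' y = y} ≤ 1 := by
        rw [hτ2]
        omega
      have h5 : Nat.card {y : {p // p ∈ {p : E | r (φ p) = i} ∧ v' ∈ vtx p ∧ f' ∈ fac p} //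
          (τ v' f' ⟨y.1, y.2.2⟩).1 = y.1} ≤ Nat.card {y // τ v' f' y = y} := by
        refine Nat.card_le_card_of_injective
          (fun y => (⟨⟨y.1.1, y.1.2.2⟩, Subtype.ext y.2⟩ : {y // τ v' f' y = y})) ?_
        intro y z hyz
        have h6 := congrArg (fun w : {y // τ v' f' y = y} => w.1.1) hyz
        exact Subtype.ext (Subtype.ext h6)
      have h7 : 0 < Nat.card {y : {p // p ∈ {p : E | r (φ p) = i} ∧ v' ∈ vtx p ∧ f' ∈ fac p} //
          (τ v' f' ⟨y.1, y.2.2⟩).1 = y.1} := by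
        have h8 := (fix ⟨(v', p, f'), hx⟩).1 hxf
        have h9 : r (φ p) = i := (hc ⟨(v', p, f'), hx⟩).trans hxi
        have : Nonempty {y : {p // p ∈ {p : E | r (φ p) = i} ∧ v' ∈ vtx p ∧ f' ∈ fac p} //
          (τ v' f' ⟨y.1, y.2.2⟩).1 = y.1} := ⟨⟨⟨p, h9, hx⟩, congrArg Subtype.val h8⟩⟩
        exact Nat.card_pos
      omega
  refine ⟨n, fun p => r (φ p), hn1, fun i => ?_, fun i v f h => ?_, fun v f hv hf => ?_⟩
  · refine le_trans (hr4 i) (Nat.card_le_card_of_injective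
      (fun x : {x // r x = i ∧ γ x = x} => (⟨(x.1.1.1, x.1.1.2.2),
        (hOd i x.1.1.1 x.1.1.2.2).2 ⟨x.1, x.2.2, x.2.1, rfl, rfl⟩⟩ :
        {x : V × Φ // Od vtx fac {p | r (φ p) = i} x.1 x.2})) ?_)
    intro x y hxy
    have h1 := congrArg Subtype.val hxy
    simp only [Prod.mk.injEq] at h1
    exact Subtype.ext (hinj x.1 y.1 x.2.2 y.2.2 h1.1 h1.2)
  · obtain ⟨x, hx, -, hv, hf⟩ := (hOd i v f).1 h
    have h1 := hfT x hx
    rw [hv, hf] at h1
    exact h1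
  · have h1 := (hn v f).2 ⟨hv, hf⟩
    rw [← hτ2] at h1
    have h2 : 0 < Nat.card {y // τ v f y = y} := by omega
    obtain ⟨⟨⟨p, hp⟩, hp2⟩⟩ := (Nat.card_pos_iff.1 h2).1
    have h3 : γ ⟨(v, p, f), hp⟩ = ⟨(v, p, f), hp⟩ := (fix ⟨(v, p, f), hp⟩).2 hp2
    refine ⟨r ⟨(v, p, f), hp⟩, (hOd _ v f).2 ⟨_, h3, rfl, rfl, rfl⟩, ?_⟩
    intro i hi
    obtain ⟨x, hx, hxi, hxv, hxf⟩ := (hOd i v f).1 hi
    rw [← hxi, hinj x ⟨(v, p, f), hp⟩ hx h3 hxv hxf]

end Pool.Agent.H34.GC
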