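import Pool.Agent.H34.GC.Def3

set_option autoImplicit false

/-! # [H34 GC U4] the class with eight odd corners (helper36) -/

namespace Pool.Agent.H34.GC

open Pool.Agent.H34.PM Finset

variable {V E Φ : Type}

/-- the set covered exactly once by disjoint pairs -/
private theorem card_cover {A B : Type} [DecidableEq B] (N : Finset A) (w : A → Finset B)
    (hw : ∀ p ∈ N, (w p).card = 2) (R : Finset B)
    (h1 : ∀ p ∈ N, w p ⊆ R) (h2 : ∀ v ∈ R, ∃! p, p ∈ N ∧ v ∈ w p) : R.card = 2 * N.card := by
  classical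
  have h3 : R = N.biUnion w := by
    ext v
    rw [Finset.mem_biUnion]
    constructor
    · intro hv
      obtain ⟨p, hp, -⟩ := h2 v hv
      exact ⟨p, hp.1, hp.2⟩
    · rintro ⟨p, hp, hv⟩
      exact h1 p hp hv
  rw [h3, Finset.card_biUnion, Finset.sum_congr rfl hw, Finset.sum_const, smul_eq_mul, mul_comm]
  intro p hp q hq hpq
  show Disjoint (w p) (w q)
  rw [Finset.disjoint_left]
  intro v hv hv'
  exact hpq ((h2 v (h1 p hp hv)).unique ⟨hp, hv⟩ ⟨hq, hv'⟩)

/-- U4 -/
theorem case8 [DecidableEq Φ] [Fintype V] [Fintype E] [Fintype Φ] (vtx : E → Finset V)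
    (fac : E → Finset Φ)
    (two_v : ∀ p, (vtx p).card = 2) (two_f : ∀ p, (fac p).card = 2) (S : Finset V) (T : Finset Φ)
    (hS : S.card = 4) (hTe : Even T.card) (D : Set E) (N : Finset E)
    (hDN : ∀ p, p ∈ N ↔ p ∉ D) (hN : N.card + 2 = T.card)
    (hvN : ∀ p ∈ N, vtx p ⊆ S ∧ fac p ⊆ T)
    (hDS : ∀ v f, Od vtx fac D v f → v ∈ S ∧ f ∈ T)
    (hpart : ∀ v ∈ S, ∀ f ∈ T, (Od vtx fac D v f ∧ ∀ p ∈ N, ¬ (v ∈ vtx p ∧ f ∈ fac p)) ∨
      (¬ Od vtx fac D v f ∧ ∃! p, p ∈ N ∧ v ∈ vtx p ∧ f ∈ fac p))
    (hrow : ∀ v ∈ S, Nat.card {f // Od vtx fac D v f} = 2)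
    (par_v : ∀ p q, p ≠ q → vtx p ≠ vtx q) (par_f : ∀ p q, p ≠ q → fac p ≠ fac q)
    (hst : ∀ f ∈ T, (∀ v, ¬ Od vtx fac D v f) → ∀ p, f ∈ fac p → p ∈ N) :
    T.card = 2 ∨
    (∃ p q, p ≠ q ∧ (∀ v, v ∈ S ↔ ¬ (v ∈ vtx p ↔ v ∈ vtx q)) ∧
      (∀ f, f ∈ T ↔ ¬ (f ∈ fac p ↔ f ∈ fac q))) ∨
    (T.card = 4 ∧ ∃ g a b p q, Gad fac T g a b p q) ∨
    (T.card = 6 ∧ ∃ g a b p q g' a' b' p' q', Gad fac T g a b p q ∧ Gad fac T g' a' b' p' q' ∧
      ({g', a', b'} : Finset Φ) ∩ {g, a, b} = ∅) := by
  classical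
  -- number of `N`-edges at a face
  set n : Φ → ℕ := fun f => (N.filter (fun p => f ∈ fac p)).card with hn
  -- the vertices not odd at `f`
  have hcov : ∀ f ∈ T, (S.filter (fun v => ¬ Od vtx fac D v f)).card = 2 * n f := by
    intro f hf
    apply card_cover (N.filter (fun p => f ∈ fac p)) vtx
    · intro p _
      exact two_v p
    · intro p hp v hv
      rw [Finset.mem_filter] at hp ⊢
      refine ⟨(hvN p hp.1).1 hv, ?_⟩
      rcases hpart v ((hvN p hp.1).1 hv) f hf with h | h
      · exact absurd ⟨hv, hp.2⟩ (h.2 p hp.1)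
      · exact h.1
    · intro v hv
      rw [Finset.mem_filter] at hv
      rcases hpart v hv.1 f hf with h | h
      · exact absurd h.1 hv.2
      · obtain ⟨p, ⟨hp1, hp2, hp3⟩, hp4⟩ := h.2
        refine ⟨p, ⟨Finset.mem_filter.2 ⟨hp1, hp3⟩, hp2⟩, ?_⟩
        rintro q ⟨hq1, hq2⟩
        rw [Finset.mem_filter] at hq1
        exact hp4 q ⟨hq1.1, hq2, hq1.2⟩
  have hn2 : ∀ f ∈ T, n f ≤ 2 := by
    intro f hf
    have h1 := hcov f hf
    have h2 := Finset.card_filter_le S (fun v => ¬ Od vtx fac D v f)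
    omega
  -- double counting
  have hsum : ∑ f ∈ T, n f = 2 * N.card := by
    have h1 : ∑ f ∈ T, n f = ∑ p ∈ N, (T.filter (fun f => f ∈ fac p)).card := by
      simp only [hn, Finset.card_filter]
      rw [Finset.sum_comm]
    rw [h1]
    have h2 : ∀ p ∈ N, (T.filter (fun f => f ∈ fac p)).card = 2 := by
      intro p hp
      rw [← two_f p]
      congr 1
      ext f
      rw [Finset.mem_filter]
      exact ⟨fun h => h.2, fun h => ⟨(hvN p hp).2 h, h⟩⟩
    rw [Finset.sum_congr rfl h2, Finset.sum_const, smul_eq_mul, mul_comm]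
  -- types
  set T0 := T.filter (fun f => n f = 0) with hT0
  set T1 := T.filter (fun f => n f = 1) with hT1
  set T2 := T.filter (fun f => n f = 2) with hT2
  have hcardT : T.card = T0.card + T1.card + T2.card := by
    rw [hT0, hT1, hT2, Finset.card_filter, Finset.card_filter, Finset.card_filter,
      ← Finset.sum_add_distrib, ← Finset.sum_add_distrib, Finset.card_eq_sum_ones]
    apply Finset.sum_congr rfl
    intro f hf
    have := hn2 f hf
    interval_cases h : n f <;> simp
  have hsumT : T1.card + 2 * T2.card = 2 * N.card := by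
    rw [← hsum, hT1, hT2, Finset.card_filter, Finset.card_filter, Finset.mul_sum,
      ← Finset.sum_add_distrib]
    apply Finset.sum_congr rfl
    intro f hf
    have := hn2 f hf
    interval_cases h : n f <;> simp
  -- faces of type 2
  have hg : ∀ g ∈ T2, ∃ p q, p ≠ q ∧ p ∈ N ∧ q ∈ N ∧ g ∈ fac p ∧ g ∈ fac q ∧
      (∀ r, g ∈ fac r → r = p ∨ r = q) ∧ ∀ v, v ∈ S → (v ∈ vtx p ↔ v ∉ vtx q) := by
    intro g hg
    rw [hT2, Finset.mem_filter] at hg
    obtain ⟨p, q, hpq, hNg⟩ := Finset.card_eq_two.1 hg.2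
    have hp : p ∈ N.filter (fun p => g ∈ fac p) := by rw [hNg]; simp
    have hq : q ∈ N.filter (fun p => g ∈ fac p) := by rw [hNg]; simp
    rw [Finset.mem_filter] at hp hq
    have hall : ∀ v ∈ S, ¬ Od vtx fac D v g := by
      have h1 := hcov g hg.1
      rw [hg.2] at h1
      have h2 : S.filter (fun v => ¬ Od vtx fac D v g) = S :=
        Finset.eq_of_subset_of_card_le (Finset.filter_subset _ _) (by omega)
      intro v hv
      rw [← h2, Finset.mem_filter] at hv
      exact hv.2
    have hall' : ∀ v, ¬ Od vtx fac D v g := fun v hv => hall v (hDS v g hv).1 hv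
    refine ⟨p, q, hpq, hp.1, hq.1, hp.2, hq.2, ?_, ?_⟩
    · intro r hr
      have h1 : r ∈ N.filter (fun p => g ∈ fac p) :=
        Finset.mem_filter.2 ⟨hst g hg.1 hall' r hr, hr⟩
      rw [hNg] at h1
      simpa using h1
    · intro v hv
      rcases hpart v hv g hg.1 with h | h
      · exact absurd h.1 (hall v hv)
      · obtain ⟨r, ⟨hr1, hr2, hr3⟩, hr4⟩ := h.2
        have h1 : r ∈ N.filter (fun p => g ∈ fac p) := Finset.mem_filter.2 ⟨hr1, hr3⟩
        rw [hNg] at h1
        simp only [Finset.mem_insert, Finset.mem_singleton] at h1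
        constructor
        · intro hvp hvq
          exact hpq ((hr4 p ⟨hp.1, hvp, hp.2⟩).trans (hr4 q ⟨hq.1, hvq, hq.2⟩).symm)
        · intro hvq
          rcases h1 with h1 | h1
          · rw [h1] at hr2
            exact hr2
          · rw [h1] at hr2
            exact absurd hr2 hvq
  -- an edge of `N` is not between two faces of type 2
  have hnot : ∀ p ∈ N, ∀ g g', g ≠ g' → g ∈ fac p → g' ∈ fac p → g ∈ T2 → g' ∈ T2 → False := by
    intro p hp g g' hgg hgp hgp' hg2 hg2'
    have key : ∀ g, g ∈ T2 → g ∈ fac p → ∃ q, q ≠ p ∧ g ∈ fac q ∧ vtx q = S \ vtx p := by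
      intro g hg2 hgp
      obtain ⟨a, b, hab, ha, hb, hga, hgb, hr, hS2⟩ := hg g hg2
      have hv : ∀ a b : E, a ∈ N → b ∈ N → (∀ v, v ∈ S → (v ∈ vtx a ↔ v ∉ vtx b)) →
          vtx b = S \ vtx a := by
        intro a b ha hb h
        ext v
        rw [Finset.mem_sdiff]
        constructor
        · intro hvb
          have hvS := (hvN b hb).1 hvb
          exact ⟨hvS, fun h2 => (h v hvS).1 h2 hvb⟩
        · rintro ⟨h1, h2⟩
          by_contra h3
          exact h2 ((h v h1).2 h3)
      rcases hr p hgp with h | h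
      · refine ⟨b, fun h2 => hab (h.symm.trans h2.symm), hgb, ?_⟩
        rw [h]
        exact hv a b ha hb hS2
      · refine ⟨a, fun h2 => hab (h2.trans h), hga, ?_⟩
        rw [h]
        exact hv b a hb ha (fun v hvS => by rw [hS2 v hvS]; tauto)
    obtain ⟨q, hqp, hgq, hvq⟩ := key g hg2 hgp
    obtain ⟨q', hqp', hgq', hvq'⟩ := key g' hg2' hgp'
    have h1 : q = q' := by
      by_contra h2
      exact par_v q q' h2 (hvq.trans hvq'.symm)
    rw [← h1] at hgq'
    have h2 : ∀ r : E, g ∈ fac r → g' ∈ fac r → fac r = {g, g'} := by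
      intro r h3 h4
      symm
      apply Finset.eq_of_subset_of_card_le
      · intro x hx
        simp only [Finset.mem_insert, Finset.mem_singleton] at hx
        rcases hx with rfl | rfl
        · exact h3
        · exact h4
      · rw [two_f, Finset.card_pair hgg]
    exact par_f q p hqp ((h2 q hgq hgq').trans (h2 p hgp hgp').symm)
  -- types of the ends
  have htype : ∀ p ∈ N, ∀ f ∈ fac p, f ∈ T1 ∨ f ∈ T2 := by
    intro p hp f hf
    have h1 := (hvN p hp).2 hf
    have h2 := hn2 f h1
    have h3 : 0 < n f := Finset.card_pos.2 ⟨p, Finset.mem_filter.2 ⟨hp, hf⟩⟩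
    rw [hT1, hT2, Finset.mem_filter, Finset.mem_filter]
    rcases (by omega : n f = 1 ∨ n f = 2) with h | h
    · exact Or.inl ⟨h1, h⟩
    · exact Or.inr ⟨h1, h⟩
  have hT1u : ∀ f ∈ T1, ∀ p ∈ N, ∀ q ∈ N, f ∈ fac p → f ∈ fac q → p = q := by
    intro f hf p hp q hq hfp hfq
    rw [hT1, Finset.mem_filter] at hf
    exact Finset.card_le_one.1 (le_of_eq hf.2) p (Finset.mem_filter.2 ⟨hp, hfp⟩) q
      (Finset.mem_filter.2 ⟨hq, hfq⟩)
  have hend : ∀ p ∈ N, ∃ f, f ∈ fac p ∧ f ∈ T1 := by
    intro p hp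
    obtain ⟨x, y, hxy, hf⟩ := Finset.card_eq_two.1 (two_f p)
    have hx : x ∈ fac p := by rw [hf]; simp
    have hy : y ∈ fac p := by rw [hf]; simp
    rcases htype p hp x hx with h | h
    · exact ⟨x, hx, h⟩
    · rcases htype p hp y hy with h' | h'
      · exact ⟨y, hy, h'⟩
      · exact (hnot p hp x y hxy hx hy h h').elim
  have hNle : N.card ≤ T1.card := by
    have hend' : ∀ p, ∃ f, p ∈ N → f ∈ fac p ∧ f ∈ T1 := by
      intro p
      by_cases hp : p ∈ N
      · obtain ⟨f, h1, h2⟩ := hend p hp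
        exact ⟨f, fun _ => ⟨h1, h2⟩⟩
      · obtain ⟨x, y, -, -⟩ := Finset.card_eq_two.1 (two_f p)
        exact ⟨x, fun h => absurd h hp⟩
    choose e he using hend'
    refine Finset.card_le_card_of_injOn e (fun p hp => (he p hp).2) ?_
    intro p hp q hq hpq
    exact hT1u (e p) (he p hp).2 p hp q hq (he p hp).1 (by
      have := (he q hq).1
      rw [← hpq] at this
      exact this)
  -- gadgets
  have hgad : ∀ g ∈ T2, ∃ a b p q, Gad fac T g a b p q ∧ a ∈ T1 ∧ b ∈ T1 ∧ p ∈ N ∧ q ∈ N := by
    intro g hg2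
    obtain ⟨p, q, hpq, hp, hq, hgp, hgq, hr, -⟩ := hg g hg2
    have hother : ∀ p ∈ N, g ∈ fac p → ∃ a, a ∈ T1 ∧ g ≠ a ∧ fac p = {g, a} := by
      intro p hp hgp
      obtain ⟨x, y, hxy, hf⟩ := Finset.card_eq_two.1 (two_f p)
      have hx : x ∈ fac p := by rw [hf]; simp
      have hy : y ∈ fac p := by rw [hf]; simp
      have hgg := hgp
      rw [hf] at hgg
      simp only [Finset.mem_insert, Finset.mem_singleton] at hgg
      rcases hgg with h | h
      · refine ⟨y, ?_, by rw [h]; exact hxy, by rw [h, hf]⟩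
        rcases htype p hp y hy with h' | h'
        · exact h'
        · exact (hnot p hp g y (by rw [h]; exact hxy) hgp hy hg2 h').elim
      · refine ⟨x, ?_, by rw [h]; exact hxy.symm, by rw [h, hf, Finset.pair_comm]⟩
        rcases htype p hp x hx with h' | h'
        · exact h'
        · exact (hnot p hp g x (by rw [h]; exact hxy.symm) hgp hx hg2 h').elim
    obtain ⟨a, ha1, ha2, ha3⟩ := hother p hp hgp
    obtain ⟨b, hb1, hb2, hb3⟩ := hother q hq hgq
    have hab : a ≠ b := by
      intro h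
      apply par_f p q hpq
      rw [ha3, hb3, h]
    refine ⟨a, b, p, q, ⟨hpq, ha2, hb2, hab, (Finset.mem_filter.1 hg2).1,
      (Finset.mem_filter.1 ha1).1, (Finset.mem_filter.1 hb1).1, ha3, hb3, hr⟩, ha1, hb1, hp, hq⟩
  have hdisj : ∀ f, f ∈ T1 → f ∈ T2 → False := by
    intro f h1 h2
    have h3 := (Finset.mem_filter.1 h1).2
    have h4 := (Finset.mem_filter.1 h2).2
    omega
  obtain ⟨k, hk⟩ := hTe
  -- cases
  have hcases : T.card = 2 ∨ (T.card = 4 ∧ T2.card = 0) ∨ (T.card = 4 ∧ T2.card = 1) ∨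
      (T.card = 6 ∧ T2.card = 2) := by omega
  rcases hcases with h | h | h | h
  · exact Or.inl h
  · right; left
    have hN2 : N.card = 2 := by omega
    have hT1c : T1.card = 4 := by omega
    have hT1T : T1 = T := Finset.eq_of_subset_of_card_le (Finset.filter_subset _ _) (by omega)
    obtain ⟨p, q, hpq, hNpq⟩ := Finset.card_eq_two.1 hN2
    have hp : p ∈ N := by rw [hNpq]; simp
    have hq : q ∈ N := by rw [hNpq]; simp
    refine ⟨p, q, hpq, ?_, ?_⟩
    · -- each vertex of `S` is on exactly one of the two edges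
      intro v
      constructor
      · intro hv
        have h1 : (T.filter (fun f => ¬ Od vtx fac D v f)).card =
            2 * (N.filter (fun p => v ∈ vtx p)).card := by
          apply card_cover (N.filter (fun p => v ∈ vtx p)) fac
          · intro p _
            exact two_f p
          · intro r hr f hf
            rw [Finset.mem_filter] at hr ⊢
            refine ⟨(hvN r hr.1).2 hf, ?_⟩
            rcases hpart v hv f ((hvN r hr.1).2 hf) with h | h
            · exact absurd ⟨hr.2, hf⟩ (h.2 r hr.1)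
            · exact h.1
          · intro f hf
            rw [Finset.mem_filter] at hf
            rcases hpart v hv f hf.1 with h | h
            · exact absurd h.1 hf.2
            · obtain ⟨r, ⟨hr1, hr2, hr3⟩, hr4⟩ := h.2
              refine ⟨r, ⟨Finset.mem_filter.2 ⟨hr1, hr2⟩, hr3⟩, ?_⟩
              rintro r' ⟨hr1', hr2'⟩
              rw [Finset.mem_filter] at hr1'
              exact hr4 r' ⟨hr1'.1, hr1'.2, hr2'⟩
        have h2 : (T.filter (fun f => Od vtx fac D v f)).card = 2 := by
          rw [← hrow v hv, Nat.card_eq_fintype_card, Fintype.card_subtype]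
          congr 1
          ext f
          simp only [Finset.mem_filter, Finset.mem_univ, true_and]
          exact ⟨fun h => h.2, fun h => ⟨(hDS v f h).2, h⟩⟩
        have h3 := Finset.card_filter_add_card_filter_not (s := T) (fun f => Od vtx fac D v f)
        have h4 : (N.filter (fun p => v ∈ vtx p)).card = 1 := by omega
        obtain ⟨r, hr⟩ := Finset.card_eq_one.1 h4
        intro hiff
        have hrm : r ∈ N.filter (fun p => v ∈ vtx p) := by rw [hr]; simp
        rw [Finset.mem_filter, hNpq] at hrm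
        have hpm : v ∈ vtx p → p = r := by
          intro hvp
          have : p ∈ N.filter (fun p => v ∈ vtx p) := Finset.mem_filter.2 ⟨hp, hvp⟩
          rw [hr] at this
          simpa using this
        have hqm : v ∈ vtx q → q = r := by
          intro hvq
          have : q ∈ N.filter (fun p => v ∈ vtx p) := Finset.mem_filter.2 ⟨hq, hvq⟩
          rw [hr] at this
          simpa using this
        simp only [Finset.mem_insert, Finset.mem_singleton] at hrm
        rcases hrm with ⟨h5 | h5, h6⟩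
        · rw [h5] at h6
          exact hpq ((hpm h6).trans (hqm (hiff.1 h6)).symm)
        · rw [h5] at h6
          exact hpq ((hpm (hiff.2 h6)).trans (hqm h6).symm)
      · intro hv
        by_contra hvS
        apply hv
        constructor
        · intro h5
          exact absurd ((hvN p hp).1 h5) hvS
        · intro h5
          exact absurd ((hvN q hq).1 h5) hvS
    · intro f
      constructor
      · intro hf hiff
        rw [← hT1T] at hf
        have h5 := (Finset.mem_filter.1 hf).2
        obtain ⟨r, hr⟩ := Finset.card_eq_one.1 h5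
        have hrm : r ∈ N.filter (fun p => f ∈ fac p) := by rw [hr]; simp
        rw [Finset.mem_filter] at hrm
        have hrN := hrm.1
        rw [hNpq] at hrN
        simp only [Finset.mem_insert, Finset.mem_singleton] at hrN
        rcases hrN with h6 | h6
        · rw [h6] at hrm
          exact hpq (hT1u f hf p hp q hq hrm.2 (hiff.1 hrm.2))
        · rw [h6] at hrm
          exact hpq (hT1u f hf p hp q hq (hiff.2 hrm.2) hrm.2)
      · intro hv
        by_contra hvS
        apply hv
        constructor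
        · intro h5
          exact absurd ((hvN p hp).2 h5) hvS
        · intro h5
          exact absurd ((hvN q hq).2 h5) hvS
  · right; right; left
    obtain ⟨g, hg1⟩ := Finset.card_eq_one.1 h.2
    have hg2 : g ∈ T2 := by rw [hg1]; simp
    obtain ⟨a, b, p, q, hG, -⟩ := hgad g hg2
    exact ⟨h.1, g, a, b, p, q, hG⟩
  · right; right; right
    obtain ⟨g, g', hgg, hg1⟩ := Finset.card_eq_two.1 h.2
    have hg2 : g ∈ T2 := by rw [hg1]; simp
    have hg2' : g' ∈ T2 := by rw [hg1]; simp
    obtain ⟨a, b, p, q, hG, ha, hb, hp, hq⟩ := hgad g hg2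
    obtain ⟨a', b', p', q', hG', ha', hb', hp', hq'⟩ := hgad g' hg2'
    refine ⟨h.1, g, a, b, p, q, g', a', b', p', q', hG, hG', ?_⟩
    obtain ⟨-, -, -, -, -, -, -, hfp, hfq, hr⟩ := hG
    obtain ⟨-, -, -, -, -, -, -, hfp', hfq', hr'⟩ := hG'
    -- the edges at `g` and `g'` are different
    have hne : ∀ r ∈ N, g ∈ fac r → g' ∈ fac r → False := fun r hrN h1 h2 =>
      hnot r hrN g g' hgg h1 h2 hg2 hg2'
    have hab : ∀ x, x ∈ T1 → ∀ r ∈ N, ∀ r' ∈ N, x ∈ fac r → x ∈ fac r' → g ∈ fac r →
        g' ∈ fac r' → False := by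
      intro x hx r hrN r' hrN' h1 h2 h3 h4
      have h5 := hT1u x hx r hrN r' hrN' h1 h2
      rw [← h5] at h4
      exact hne r hrN h3 h4
    have gp : g ∈ fac p := by rw [hfp]; simp
    have gq : g ∈ fac q := by rw [hfq]; simp
    have gp' : g' ∈ fac p' := by rw [hfp']; simp
    have gq' : g' ∈ fac q' := by rw [hfq']; simp
    have ap : a ∈ fac p := by rw [hfp]; simp
    have bq : b ∈ fac q := by rw [hfq]; simp
    have ap' : a' ∈ fac p' := by rw [hfp']; simp
    have bq' : b' ∈ fac q' := by rw [hfq']; simp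
    rw [← Finset.disjoint_iff_inter_eq_empty, Finset.disjoint_left]
    intro x hx hx'
    simp only [Finset.mem_insert, Finset.mem_singleton] at hx hx'
    rcases hx with rfl | rfl | rfl
    · rcases hx' with h1 | h1 | h1
      · exact hgg h1.symm
      · rw [h1] at hg2'
        exact hdisj _ ha hg2'
      · rw [h1] at hg2'
        exact hdisj _ hb hg2'
    · rcases hx' with h1 | h1 | h1
      · rw [h1] at ha'
        exact hdisj _ ha' hg2
      · rw [← h1] at ap
        exact hab _ ha' p hp p' hp' ap ap' gp gp'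
      · rw [← h1] at bq
        exact hab _ ha' q hq p' hp' bq ap' gq gp'
    · rcases hx' with h1 | h1 | h1
      · rw [h1] at hb'
        exact hdisj _ hb' hg2
      · rw [← h1] at ap
        exact hab _ hb' p hp q' hq' ap bq' gp gq'
      · rw [← h1] at bq
        exact hab _ hb' q hq q' hq' bq bq' gq gq'

end Pool.Agent.H34.GC
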