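import Pool.Agent.H34.GC.Def3

set_option autoImplicit false

/-!
# [H34 GC U5] classes of edges which miss a vertex of `S`
-/

namespace Pool.Agent.H34.GC

open Pool.Agent.H34.PM Finset Module Matroid

variable {X V E Φ : Type}

/-- U5 -/
theorem apart_of [Fintype V] [Fintype E] (vtx : E → Finset V) (iso_v : NoIso vtx) (S : Finset V)
    {n : ℕ} (c : E → Fin n)
    (h1 : ∀ v, v ∉ S → ∀ p q, v ∈ vtx p → v ∈ vtx q → c p = c q)
    (h2 : ∀ i, ∃ s ∈ S, ∀ p, c p = i → s ∉ vtx p) : Apart vtx S := by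
  choose s hs hs' using h2
  choose e he using iso_v
  refine ⟨fun v => s (c (e v)), fun v hv => ⟨hs _, fun p hp w hw => ⟨?_, fun hwS => ?_⟩⟩⟩
  · rintro rfl
    exact hs' _ p (h1 v hv p (e v) hp (he v)) hw
  · show s (c (e w)) = s (c (e v))
    rw [h1 w hwS (e w) p (he w) hw, h1 v hv p (e v) hp (he v)]

end Pool.Agent.H34.GC
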