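import Pool.Agent.H34.GC.Def3

set_option autoImplicit false

/-! # [H34 GC U6] A vertex has an even number of odd corners -/

namespace Pool.Agent.H34.GC

open Pool.Agent.H34.PM Finset

variable {V E Φ : Type}

/-- U6 -/
theorem row_even [Fintype E] [Fintype Φ] (vtx : E → Finset V) (fac : E → Finset Φ)
    (two_f : ∀ p, (fac p).card = 2) (D : Set E) (v : V) :
    Even (Nat.card {f // Od vtx fac D v f}) := by
  classical
  obtain ⟨n, hn⟩ : ∃ n : Φ → ℕ, n = fun f => Nat.card {p // p ∈ D ∧ v ∈ vtx p ∧ f ∈ fac p} :=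
    ⟨_, rfl⟩
  have hn1 : ∀ f, n f = ∑ p, (if p ∈ D ∧ v ∈ vtx p ∧ f ∈ fac p then 1 else 0) := by
    intro f
    rw [hn]
    show Nat.card {p // p ∈ D ∧ v ∈ vtx p ∧ f ∈ fac p} = _
    rw [Nat.card_eq_fintype_card, Fintype.card_subtype, Finset.card_filter]
  have hrow : Even (∑ f, n f) := by
    simp only [hn1]
    rw [Finset.sum_comm]
    refine Finset.even_sum _ fun p _ => ?_
    by_cases h1 : p ∈ D ∧ v ∈ vtx p
    · have h2 : ∑ f, (if p ∈ D ∧ v ∈ vtx p ∧ f ∈ fac p then 1 else 0) = (fac p).card := by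
        rw [← Finset.card_filter]
        congr 1
        ext f
        rw [Finset.mem_filter]
        exact ⟨fun h3 => h3.2.2.2, fun h3 => ⟨Finset.mem_univ _, h1.1, h1.2, h3⟩⟩
      rw [h2, two_f]
      exact even_two
    · have h2 : ∑ f, (if p ∈ D ∧ v ∈ vtx p ∧ f ∈ fac p then 1 else 0) = 0 :=
        Finset.sum_eq_zero fun f _ => if_neg fun h3 => h1 ⟨h3.1, h3.2.1⟩
      rw [h2]
      exact Even.zero
  have hO : (∑ f, n f % 2) % 2 = 0 := by
    rw [← Finset.sum_nat_mod]
    exact Nat.even_iff.mp hrow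
  rw [Nat.even_iff, Nat.card_eq_fintype_card, Fintype.card_subtype, Finset.card_filter]
  have h0 : (∑ f, if Od vtx fac D v f then 1 else 0) = ∑ f, n f % 2 := by
    refine Finset.sum_congr rfl fun f _ => ?_
    have h1 : Od vtx fac D v f ↔ n f % 2 = 1 := by
      rw [hn]
      rfl
    rcases Nat.mod_two_eq_zero_or_one (n f) with h2 | h2
    · rw [h2, if_neg (fun h3 => by rw [h1, h2] at h3; omega)]
    · rw [h2, if_pos (h1.2 h2)]
  rw [h0]
  exact hO

end Pool.Agent.H34.GC
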