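import Pool.Agent.H34.GC.Def3

set_option autoImplicit false

/-!
# [H34 GC U7] Double counting of the odd corners of the classes
-/

namespace Pool.Agent.H34.GC

open Pool.Agent.H34.PM Finset Module Matroid

variable {X V E Φ : Type}

/-- U7 -/
theorem odd_sum [Fintype V] [Fintype E] [Fintype Φ] (vtx : E → Finset V) (fac : E → Finset Φ)
    (S : Finset V) (T : Finset Φ) {n : ℕ} (c : E → Fin n)
    (h1 : ∀ i v f, Od vtx fac {p | c p = i} v f → v ∈ S ∧ f ∈ T)
    (h2 : ∀ v f, v ∈ S → f ∈ T → ∃! i, Od vtx fac {p | c p = i} v f) :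
    ∑ i, Nat.card {x : V × Φ // Od vtx fac {p | c p = i} x.1 x.2} = S.card * T.card := by
  classical
  have e1 : ∀ i, Nat.card {x : V × Φ // Od vtx fac {p | c p = i} x.1 x.2} =
      ∑ x : V × Φ, if Od vtx fac {p | c p = i} x.1 x.2 then 1 else 0 := by
    intro i
    rw [Nat.card_eq_fintype_card, Fintype.card_subtype, Finset.sum_boole]
    simp
  rw [Finset.sum_congr rfl fun i _ => e1 i, Finset.sum_comm, ← Finset.card_product]
  have e2 : ∀ x : V × Φ, (∑ i, if Od vtx fac {p | c p = i} x.1 x.2 then 1 else 0) =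
      if x ∈ S ×ˢ T then 1 else 0 := by
    intro x
    split_ifs with h
    · obtain ⟨h3, h4⟩ := Finset.mem_product.1 h
      obtain ⟨i, hi, hu⟩ := h2 x.1 x.2 h3 h4
      rw [Finset.sum_eq_single i]
      · exact if_pos hi
      · intro j _ hj
        exact if_neg fun h => hj (hu j h)
      · intro h
        exact absurd (Finset.mem_univ _) h
    · refine Finset.sum_eq_zero fun i _ => if_neg fun h5 => h (Finset.mem_product.2 (h1 i _ _ h5))
  rw [Finset.sum_congr rfl fun x _ => e2 x, Finset.sum_boole, Nat.cast_id]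
  congr 1
  ext x
  rw [Finset.mem_filter]
  exact ⟨fun h => h.2, fun h => ⟨Finset.mem_univ _, h⟩⟩

end Pool.Agent.H34.GC
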