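import Pool.Agent.H34.GC.Def3

set_option autoImplicit false

/-! # [H34 GC U8] No parallel elements -/

namespace Pool.Agent.H34.GC

open Pool.Agent.H34.PM Finset Module Matroid

/-- U8 -/
theorem no_par {E : Type} {W : Type} [Fintype W] [Fintype E] (u : Option E → Finset W)
    (h3 : ThreeConnected (cyc u)) (hcard : 3 ≤ Fintype.card E) (o o' : Option E) (hne : o ≠ o') :
    u o ≠ u o' := by
  classical
  intro he
  have hE : (cyc u).E = Set.univ := rfl
  have hX : (cyc u).eRk {o, o'} ≤ 1 := by
    obtain ⟨I, hI⟩ := (cyc u).exists_isBasis {o, o'} (by rw [hE]; exact Set.subset_univ _)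
    rw [← hI.encard_eq_eRk, Set.encard_le_one_iff]
    intro a b ha hb
    by_contra hab
    have hi : LinearIndepOn (ZMod 2) (inc u) I := hI.indep
    have h1 : inc u a = inc u b := by
      have ha' := hI.subset ha
      have hb' := hI.subset hb
      have : u a = u b := by
        rcases ha' with rfl | ha' <;> rcases hb' with rfl | hb'
        · rfl
        · rw [Set.mem_singleton_iff] at hb'; rw [hb', he]
        · rw [Set.mem_singleton_iff] at ha'; rw [ha', he]
        · rw [Set.mem_singleton_iff] at ha' hb'; rw [ha', hb']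
      funext x
      simp [inc, this]
    exact hab (hi.injOn ha hb h1)
  refine h3 2 (Or.inr rfl) {o, o'} {o, o'}ᶜ (by rw [hE, Set.union_compl_self]) disjoint_compl_right ?_ ?_ ?_
  · rw [Set.encard_pair hne]; norm_num
  · have h1 : ({o, o'}ᶜ : Set (Option E)) = ((Finset.univ \ {o, o'} : Finset (Option E)) : Set (Option E)) := by
      ext x; simp
    rw [h1, Set.encard_coe_eq_coe_finsetCard, Finset.card_univ_sdiff, Finset.card_pair hne, Fintype.card_option]
    norm_cast
    omega
  · calc (cyc u).eRk {o, o'} + (cyc u).eRk {o, o'}ᶜ + 1 ≤ 1 + (cyc u).eRank + 1 := by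
          gcongr
          exact (cyc u).eRk_le_eRank _
      _ = (cyc u).eRank + ((2 : ℕ) : ℕ∞) := by
          rw [add_comm 1, add_assoc]; norm_num

end Pool.Agent.H34.GC
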