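import Pool.Agent.H34.GC.Def3

set_option autoImplicit false

/-! # [H34 GC U9] the twist at a vertex of degree two -/

namespace Pool.Agent.H34.GC

open Pool.Agent.H34.PM Finset Module Matroid

variable {X V E Φ : Type}

private lemma u9_inc {A B : Type} [DecidableEq B] (e : A → Finset B) (o : A) (x : B) :
    inc e o x = if x ∈ e o then 1 else 0 := by
  by_cases h : x ∈ e o
  · simp [inc, h]
  · simp [inc, h]

private lemma u9_out {Φ : Type} [DecidableEq Φ] (s : Finset Φ) (g a b : Φ) (x : Φ) (hg : g ∉ s) :
    (if x ∈ s then (1 : ZMod 2) else 0) + (if x = a ∨ x = b then (if g ∈ s then 1 else 0) else 0) =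
      if x ∈ s then 1 else 0 := by
  rw [if_neg hg, ite_self, add_zero]

/-- U9 -/
theorem twist [DecidableEq Φ] [DecidableEq E] [Fintype E] [Fintype Φ] (fac : E → Finset Φ)
    (T : Finset Φ) (g a b : Φ) (p q : E) (h : Gad fac T g a b p q) :
    cyc (fun o : Option E => o.elim T fac) =
      cyc (fun o : Option E => o.elim ((T.erase a).erase b)
        (fun r => if r = p then {g, b} else if r = q then {g, a} else fac r)) := by
  obtain ⟨hpq, hga, hgb, hab, hgT, haT, hbT, hp, hq, hr⟩ := h
  let φ : (Φ → ZMod 2) →ₗ[ZMod 2] (Φ → ZMod 2) :=
    { toFun := fun y x => y x + (if x = a ∨ x = b then y g else 0)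
      map_add' := by
        intro y z
        funext x
        simp only [Pi.add_apply]
        split_ifs
        · ring
        · ring
      map_smul' := by
        intro c y
        funext x
        simp only [Pi.smul_apply, smul_eq_mul, RingHom.id_apply]
        split_ifs
        · ring
        · ring }
  have hφ : ∀ y x, φ y x = y x + (if x = a ∨ x = b then y g else 0) := fun _ _ => rfl
  have hgab : ¬ (g = a ∨ g = b) := by
    rintro (h | h)
    · exact hga h
    · exact hgb h
  have hinv : ∀ y, φ (φ y) = y := by
    intro y
    funext x
    rw [hφ, hφ, hφ, if_neg hgab, add_zero]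
    have key : ∀ s t : ZMod 2, s + t + t = s := by decide
    split_ifs
    · exact key _ _
    · rw [add_zero, add_zero]
  have hinj : Function.Injective φ := Function.LeftInverse.injective hinv
  have hcomp : ∀ o, φ (inc (fun o : Option E => o.elim T fac) o) =
      inc (fun o : Option E => o.elim ((T.erase a).erase b)
        (fun r => if r = p then {g, b} else if r = q then {g, a} else fac r)) o := by
    intro o
    funext x
    rw [hφ, u9_inc, u9_inc, u9_inc]
    rcases o with _ | r
    · change (if x ∈ T then (1 : ZMod 2) else 0) +
        (if x = a ∨ x = b then (if g ∈ T then 1 else 0) else 0) =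
        if x ∈ (T.erase a).erase b then 1 else 0
      rw [if_pos hgT]
      simp only [Finset.mem_erase]
      by_cases hxa : x = a
      · rw [hxa, if_pos haT, if_pos (Or.inl rfl), if_neg (fun h => h.2.1 rfl)]
        decide
      · by_cases hxb : x = b
        · rw [hxb, if_pos hbT, if_pos (Or.inr rfl), if_neg (fun h => h.1 rfl)]
          decide
        · rw [if_neg (fun h : x = a ∨ x = b => h.elim hxa hxb), add_zero]
          by_cases hxT : x ∈ T
          · rw [if_pos hxT, if_pos ⟨hxb, hxa, hxT⟩]
          · rw [if_neg hxT, if_neg (fun h => hxT h.2.2)]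
    · change (if x ∈ fac r then (1 : ZMod 2) else 0) +
        (if x = a ∨ x = b then (if g ∈ fac r then 1 else 0) else 0) =
        if x ∈ (if r = p then {g, b} else if r = q then {g, a} else fac r : Finset Φ) then 1 else 0
      by_cases hrp : r = p
      · rw [if_pos hrp, hrp, hp]
        simp only [Finset.mem_insert, Finset.mem_singleton, true_or, if_true]
        by_cases hxa : x = a
        · rw [hxa, if_pos (Or.inr rfl), if_pos (Or.inl rfl),
            if_neg (fun h : a = g ∨ a = b => h.elim (fun h => hga h.symm) hab)]
          decide
        · by_cases hxb : x = b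
          · rw [hxb, if_neg (fun h : b = g ∨ b = a => h.elim (fun h => hgb h.symm)
              (fun h => hab h.symm)), if_pos (Or.inr rfl), if_pos (Or.inr rfl), zero_add]
          · rw [if_neg (fun h : x = a ∨ x = b => h.elim hxa hxb), add_zero]
            by_cases hxg : x = g
            · rw [if_pos (Or.inl hxg), if_pos (Or.inl hxg)]
            · rw [if_neg (fun h : x = g ∨ x = a => h.elim hxg hxa),
                if_neg (fun h : x = g ∨ x = b => h.elim hxg hxb)]
      · by_cases hrq : r = q
        · rw [if_neg hrp, if_pos hrq, hrq, hq]
          simp only [Finset.mem_insert, Finset.mem_singleton, true_or, if_true]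
          by_cases hxa : x = a
          · rw [hxa, if_neg (fun h : a = g ∨ a = b => h.elim (fun h => hga h.symm) hab),
              if_pos (Or.inl rfl), if_pos (Or.inr rfl), zero_add]
          · by_cases hxb : x = b
            · rw [hxb, if_pos (Or.inr rfl), if_pos (Or.inr rfl),
                if_neg (fun h : b = g ∨ b = a => h.elim (fun h => hgb h.symm)
                (fun h => hab h.symm))]
              decide
            · rw [if_neg (fun h : x = a ∨ x = b => h.elim hxa hxb), add_zero]
              by_cases hxg : x = g
              · rw [if_pos (Or.inl hxg), if_pos (Or.inl hxg)]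
              · rw [if_neg (fun h : x = g ∨ x = b => h.elim hxg hxb),
                  if_neg (fun h : x = g ∨ x = a => h.elim hxg hxa)]
        · have hgr : g ∉ fac r := fun h => (hr r h).elim hrp hrq
          rw [if_neg hrp, if_neg hrq]
          exact u9_out (fac r) g a b x hgr
  have hcomp' : (inc (fun o : Option E => o.elim ((T.erase a).erase b)
        (fun r => if r = p then {g, b} else if r = q then {g, a} else fac r))) =
      φ ∘ (inc (fun o : Option E => o.elim T fac)) := by
    funext o
    exact (hcomp o).symm
  refine Matroid.ext_indep rfl ?_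
  intro I _
  unfold cyc
  rw [lin_indep, lin_indep, hcomp']
  exact (LinearMap.linearIndepOn_iff_of_injOn φ hinj.injOn).symm

end Pool.Agent.H34.GC
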