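import Pool.Agent.H34.GC.Core4
import Pool.Agent.H34.GC.Fin6
import Pool.Agent.H34.PM.Fin
import Pool.Agent.H34.GC.U2
import Pool.Agent.H34.GC.U4
import Pool.Agent.H34.GC.U5
import Pool.Agent.H34.GC.U6
import Pool.Agent.H34.GC.U7
import Pool.Agent.H34.GC.U8
import Pool.Agent.H34.GC.U9
import Pool.Agent.H34.GC.U10

set_option autoImplicit false

/-!
# [H34 GC Fin4] The case `|S| = 4`
-/

namespace Pool.Agent.H34.GC

open Pool.Agent.H34.PM Finset Module Matroid

variable {V E Φ : Type}

theorem even_of_not_od {vtx : E → Finset V} {fac : E → Finset Φ} {D : Set E} {v : V} {f : Φ}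
    (h : ¬ Od vtx fac D v f) : Even (Nat.card {p // p ∈ D ∧ v ∈ vtx p ∧ f ∈ fac p}) := by
  rw [Nat.even_iff]
  unfold Od at h
  omega

theorem card_fib [Fintype V] [Fintype Φ] (P : V → Φ → Prop) :
    Nat.card {x : V × Φ // P x.1 x.2} = ∑ v, Nat.card {f // P v f} := by
  classical
  have e : {x : V × Φ // P x.1 x.2} ≃ Σ v, {f // P v f} :=
    { toFun := fun x => ⟨x.1.1, x.1.2, x.2⟩
      invFun := fun y => ⟨(y.1, y.2.1), y.2.2⟩
      left_inv := fun x => rfl
      right_inv := fun y => rfl }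
  rw [Nat.card_congr e, Nat.card_sigma]

theorem regular_of_dual {M : Matroid (Option E)} [Finite E] (h : Regular M✶) : Regular M := by
  have h2 := Pool.Agent.H36.TX.regular_dual M✶ h
  rw [Matroid.dual_dual] at h2
  exact h2

theorem reg_of_card2 [Finite E] [Finite V] {u : E → Finset V} (two : ∀ p, (u p).card = 2)
    {S : Finset V} (hS : S.card = 2) : Regular (cyc (fun o : Option E => o.elim S u)) := by
  refine cyc_regular fun o => ?_
  rcases o with _ | p
  · exact hS
  · exact two p

theorem four_case [Fintype V] [Fintype E] [Fintype Φ] {vtx : E → Finset V}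
    {fac : E → Finset Φ} (iso_v : NoIso vtx) (iso_f : NoIso fac) {t : V → ZMod 2}
    {t' : Φ → ZMod 2} (hp : GPair vtx fac t) (hp' : GPair fac vtx t') (S : Finset V)
    (T : Finset Φ) (hS : ∀ v, v ∈ S ↔ t v ≠ 0) (hT : ∀ f, f ∈ T ↔ t' f ≠ 0)
    (hn : ∀ v f, Nat.card {p // v ∈ vtx p ∧ f ∈ fac p} % 2 = 1 ↔ v ∈ S ∧ f ∈ T)
    (heul : Fintype.card V + Fintype.card Φ = Fintype.card E + 3) (S4 : S.card = 4)
    (eT : Even T.card) (hcard : 3 ≤ Fintype.card E) (M : Matroid (Option E))
    (hM : M = cyc (fun o : Option E => o.elim S vtx))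
    (hM' : M✶ = cyc (fun o : Option E => o.elim T fac))
    (h3 : ThreeConnected M) : Regular M ∨ Apart vtx S := by
  classical
  obtain ⟨n, c, hn1, h4, hodd, huniq⟩ := graph4_of exists_invol
    (fun h T T' a b c d e f g => core4 h T T' a b c d e f g) vtx fac hp.two_v hp.two_f iso_v
    iso_f S T hn (fun D hD => hp.h0 D hD) (by simpa only [Nat.card_eq_fintype_card] using heul) S4
  have hsum := odd_sum vtx fac S T c hodd (fun v f hv hf => huniq v f hv hf)
  rw [S4] at hsum
  by_cases hA : ∀ i, ∃ s ∈ S, ∀ p, c p = i → s ∉ vtx p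
  · right
    refine apart_of vtx iso_v S c (fun v hv p q hpv hqv => ?_) hA
    rcases hp.star_cases {r | c r = c p} v
      (fun f => even_of_not_od fun h => hv (hodd _ v f h).1) with h | ⟨-, h⟩
    · exact absurd hpv (h p rfl)
    · exact (h q hqv).symm
  left
  push Not at hA
  obtain ⟨i0, hi0⟩ := hA
  by_cases hT2 : T.card = 2
  · apply regular_of_dual
    rw [hM']
    exact reg_of_card2 hp.two_f hT2
  let D : Set E := {p | c p = i0}
  -- rows
  have hrow2 : ∀ s ∈ S, 2 ≤ Nat.card {f // Od vtx fac D s f} := by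
    intro s hs
    have he := row_even vtx fac hp.two_f D s
    have hne : Nat.card {f // Od vtx fac D s f} ≠ 0 := by
      intro h0
      rw [Nat.card_eq_zero] at h0
      have h5 : ∀ f, ¬ Od vtx fac D s f := by
        intro f hf
        rcases h0 with h0 | h0
        · exact h0.false ⟨f, hf⟩
        · exact h0.not_finite inferInstance
      obtain ⟨p, hpi, hps⟩ := hi0 s hs
      rcases hp.star_cases D s (fun f => even_of_not_od (h5 f)) with h | ⟨h, -⟩
      · exact h p hpi hps
      · exact (hS s).1 hs h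
    rcases he with ⟨k, hk⟩
    omega
  have hm0 : 8 ≤ Nat.card {x : V × Φ // Od vtx fac D x.1 x.2} := by
    rw [card_fib (fun v f => Od vtx fac D v f)]
    calc 8 = ∑ v ∈ S, 2 := by rw [Finset.sum_const, S4]; rfl
      _ ≤ ∑ v ∈ S, Nat.card {f // Od vtx fac D v f} := Finset.sum_le_sum hrow2
      _ ≤ _ := Finset.sum_le_sum_of_subset (Finset.subset_univ _)
  have hsplit : ∑ i, Nat.card {x : V × Φ // Od vtx fac {p | c p = i} x.1 x.2} =
      Nat.card {x : V × Φ // Od vtx fac D x.1 x.2} +
        ∑ i ∈ univ.erase i0, Nat.card {x : V × Φ // Od vtx fac {p | c p = i} x.1 x.2} :=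
    (Finset.add_sum_erase _ _ (Finset.mem_univ i0)).symm
  have hcn : (univ.erase i0 : Finset (Fin n)).card = n - 1 := by
    rw [Finset.card_erase_of_mem (Finset.mem_univ _), Finset.card_univ, Fintype.card_fin]
  have hn0 : 1 ≤ n := by
    have := i0.2
    omega
  have hge : 4 * (n - 1) ≤
      ∑ i ∈ univ.erase i0, Nat.card {x : V × Φ // Od vtx fac {p | c p = i} x.1 x.2} := by
    rw [← hcn, mul_comm, ← smul_eq_mul, ← Finset.sum_const]
    exact Finset.sum_le_sum fun i _ => h4 i
  have hm8 : Nat.card {x : V × Φ // Od vtx fac D x.1 x.2} = 8 := by omega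
  have hnT : n + 1 = T.card := by omega
  have hm4 : ∀ j, j ≠ i0 → Nat.card {x : V × Φ // Od vtx fac {p | c p = j} x.1 x.2} = 4 := by
    intro j hj
    have h5 : ∑ i ∈ univ.erase i0,
        Nat.card {x : V × Φ // Od vtx fac {p | c p = i} x.1 x.2} = 4 * (n - 1) := by omega
    have h6 := Finset.add_sum_erase (univ.erase i0)
      (fun i => Nat.card {x : V × Φ // Od vtx fac {p | c p = i} x.1 x.2})
      (Finset.mem_erase.2 ⟨hj, Finset.mem_univ j⟩)
    have h7 : 4 * (n - 2) ≤ ∑ i ∈ (univ.erase i0).erase j,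
        Nat.card {x : V × Φ // Od vtx fac {p | c p = i} x.1 x.2} := by
      have h8 : ((univ.erase i0).erase j : Finset (Fin n)).card = n - 2 := by
        rw [Finset.card_erase_of_mem (Finset.mem_erase.2 ⟨hj, Finset.mem_univ j⟩), hcn]
        omega
      rw [← h8, mul_comm, ← smul_eq_mul, ← Finset.sum_const]
      exact Finset.sum_le_sum fun i _ => h4 i
    have h9 := h4 j
    have h10 : 2 ≤ n := by
      have := i0.2
      have := j.2
      by_contra hcon
      apply hj
      ext
      omega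
    omega
  have hrow : ∀ s ∈ S, Nat.card {f // Od vtx fac D s f} = 2 := by
    intro s hs
    have h5 : ∑ v ∈ S, Nat.card {f // Od vtx fac D v f} ≤ 8 := by
      rw [← hm8, card_fib (fun v f => Od vtx fac D v f)]
      exact Finset.sum_le_sum_of_subset (Finset.subset_univ _)
    have h6 := Finset.add_sum_erase S (fun v => Nat.card {f // Od vtx fac D v f}) hs
    have h7 : 2 * 3 ≤ ∑ v ∈ S.erase s, Nat.card {f // Od vtx fac D v f} := by
      have h8 : (S.erase s).card = 3 := by rw [Finset.card_erase_of_mem hs, S4]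
      rw [← h8, mul_comm, ← smul_eq_mul, ← Finset.sum_const]
      exact Finset.sum_le_sum fun v hv => hrow2 v (Finset.mem_of_mem_erase hv)
    have h9 := hrow2 s hs
    omega
  have hDne : D.Nonempty := by
    obtain ⟨s, hs⟩ : S.Nonempty := Finset.card_pos.1 (by omega)
    obtain ⟨p, hpi, -⟩ := hi0 s hs
    exact ⟨p, hpi⟩
  have hsub : ∀ j, j ≠ i0 → {p : E | c p = j}.Subsingleton := by
    intro j hj
    obtain ⟨a, b, hab⟩ := two_rows vtx fac hp.two_f {p : E | c p = j} (hm4 j hj)
    refine two_sep hp.two_v hp.conn_v S (by rw [S4]; decide) (hM ▸ h3) _ a b ?_ ?_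
    · intro v hva hvb
      rcases hp.star_cases {p : E | c p = j} v (hab v hva hvb) with h | ⟨h1, h2⟩
      · exact Or.inl h
      · exact Or.inr ⟨fun h => (hS v).1 h h1, h2⟩
    · obtain ⟨p, hpD⟩ := hDne
      exact ⟨p, fun h => hj (h.symm.trans hpD)⟩
  have hsing : ∀ p, c p ≠ i0 → {r : E | c r = c p} = {p} := fun p hpc =>
    Set.Subsingleton.eq_singleton_of_mem (hsub _ hpc) rfl
  have hodp : ∀ p, c p ≠ i0 → ∀ v f, Od vtx fac {r | c r = c p} v f ↔ v ∈ vtx p ∧ f ∈ fac p := by
    intro p hpc v f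
    rw [hsing p hpc]
    unfold Od
    constructor
    · intro h
      have h5 : Nat.card {q // q ∈ ({p} : Set E) ∧ v ∈ vtx q ∧ f ∈ fac q} ≠ 0 := by omega
      obtain ⟨⟨q, hq1, hq2⟩⟩ := (Nat.card_ne_zero.1 h5).1
      rw [Set.mem_singleton_iff] at hq1
      exact hq1 ▸ hq2
    · intro h
      have h5 : Nat.card {q // q ∈ ({p} : Set E) ∧ v ∈ vtx q ∧ f ∈ fac q} = 1 := by
        rw [Nat.card_eq_one_iff_unique]
        exact ⟨⟨fun x y => Subtype.ext (x.2.1.trans y.2.1.symm)⟩, ⟨p, rfl, h⟩⟩
      rw [h5]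
  let N : Finset E := univ.filter fun p => c p ≠ i0
  have hNm : ∀ p, p ∈ N ↔ c p ≠ i0 := fun p => by simp [N]
  have hNcard : N.card + 2 = T.card := by
    have h5 : N.card = (univ.erase i0 : Finset (Fin n)).card := by
      refine Finset.card_bij (fun p _ => c p) (fun p hpN => ?_) (fun p hpN q hqN h => ?_)
        (fun j hj => ?_)
      · exact Finset.mem_erase.2 ⟨(hNm p).1 hpN, Finset.mem_univ _⟩
      · exact hsub _ ((hNm q).1 hqN) h rfl
      · obtain ⟨p, hpj⟩ := fib_nonempty (by
          have := hm4 j (Finset.ne_of_mem_erase hj)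
          exact this)
        exact ⟨p, (hNm p).2 (by rw [show c p = j from hpj]; exact Finset.ne_of_mem_erase hj), hpj⟩
    rw [h5, hcn]
    omega
  have hcase := case8 vtx fac hp.two_v hp.two_f S T S4 eT D N
    (fun p => by rw [hNm]; rfl) hNcard
    (fun p hpN => by
      have hpc := (hNm p).1 hpN
      obtain ⟨v0, hv0⟩ := Finset.card_pos.1 (by rw [hp.two_v p]; norm_num : 0 < (vtx p).card)
      obtain ⟨f0, hf0⟩ := Finset.card_pos.1 (by rw [hp.two_f p]; norm_num : 0 < (fac p).card)
      exact ⟨fun v hv => (hodd _ v f0 ((hodp p hpc v f0).2 ⟨hv, hf0⟩)).1,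
        fun f hf => (hodd _ v0 f ((hodp p hpc v0 f).2 ⟨hv0, hf⟩)).2⟩)
    (fun v f h => hodd i0 v f h)
    (fun v hv f hf => by
      obtain ⟨i, hi, hiu⟩ := huniq v f hv hf
      by_cases hii : i = i0
      · left
        subst hii
        refine ⟨hi, fun p hpN hvf => ?_⟩
        have hpc := (hNm p).1 hpN
        exact hpc (hiu (c p) ((hodp p hpc v f).2 hvf))
      · right
        refine ⟨fun h => hii (hiu i0 h).symm, ?_⟩
        have h5 : Nat.card {q // q ∈ {r | c r = i} ∧ v ∈ vtx q ∧ f ∈ fac q} ≠ 0 := by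
          have : Nat.card {q // q ∈ {r | c r = i} ∧ v ∈ vtx q ∧ f ∈ fac q} % 2 = 1 := hi
          omega
        obtain ⟨⟨q, hq1, hq2⟩⟩ := (Nat.card_ne_zero.1 h5).1
        have hqc : c q = i := hq1
        refine ⟨q, ⟨(hNm q).2 (by rw [hqc]; exact hii), hq2⟩, fun r hr => ?_⟩
        have hrc := (hNm r).1 hr.1
        have h6 : c r = i := hiu (c r) ((hodp r hrc v f).2 hr.2)
        exact hsub i hii h6 hqc)
    hrow
    (fun p q hpq h => no_par _ (hM ▸ h3) hcard (some p) (some q)
      (fun h => hpq (Option.some_injective E h)) h)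
    (fun p q hpq h => no_par _ (hM' ▸ three_dual h3) hcard (some p) (some q)
      (fun h => hpq (Option.some_injective E h)) h)
    (fun f hf hno p hpf => by
      rw [hNm]
      intro hpc
      rcases hp'.star_cases D f (fun v => by
        have := even_of_not_od (hno v)
        have e : {p // p ∈ D ∧ f ∈ fac p ∧ v ∈ vtx p} ≃ {p // p ∈ D ∧ v ∈ vtx p ∧ f ∈ fac p} :=
          Equiv.subtypeEquivRight fun p => and_congr_right fun _ => and_comm
        rwa [Nat.card_congr e]) with h | ⟨h, -⟩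
      · exact h p hpc hpf
      · exact (hT f).1 hf h)
  have hle := Finset.card_le_univ S
  have hle' := Finset.card_le_univ T
  apply regular_of_dual
  rcases hcase with h | ⟨p, q, hpq, h1, h2⟩ | ⟨hc4, g, a, b, p, q, hG⟩ |
    ⟨hc6, g, a, b, p, q, g', a', b', p', q', hG, hG', hdis⟩
  · exact absurd h hT2
  · refine absurd (no_tri vtx fac S T hM hM' h3 p q hpq h1 h2 ?_) not_false
    obtain ⟨k, hk⟩ := eT
    have : T.card ≠ 0 := by
      intro h0
      rw [h0] at hnT
      omega
    omega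
  · rw [hM', twist fac T g a b p q hG]
    obtain ⟨hpq, hga, hgb, hab, hgT, haT, hbT, hfp, hfq, hst⟩ := hG
    refine reg_of_card2 (fun r => ?_) ?_
    · split_ifs
      · exact Finset.card_pair hgb
      · exact Finset.card_pair hga
      · exact hp.two_f r
    · rw [Finset.card_erase_of_mem (Finset.mem_erase.2 ⟨hab.symm, hbT⟩),
        Finset.card_erase_of_mem haT, hc4]
  · rw [hM', twist fac T g a b p q hG]
    obtain ⟨hpq, hga, hgb, hab, hgT, haT, hbT, hfp, hfq, hst⟩ := hG
    obtain ⟨hpq', hga', hgb', hab', hgT', haT', hbT', hfp', hfq', hst'⟩ := hG'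
    have hd : ∀ x ∈ ({g', a', b'} : Finset Φ), x ≠ g ∧ x ≠ a ∧ x ≠ b := by
      intro x hx
      have key : x ∉ ({g, a, b} : Finset Φ) := by
        intro h
        have : x ∈ ({g', a', b'} : Finset Φ) ∩ {g, a, b} := Finset.mem_inter.2 ⟨hx, h⟩
        rw [hdis] at this
        exact absurd this (Finset.notMem_empty _)
      simpa [not_or] using key
    obtain ⟨g1, g2, g3⟩ := hd g' (by simp)
    obtain ⟨a1, a2, a3⟩ := hd a' (by simp)
    obtain ⟨b1, b2, b3⟩ := hd b' (by simp)
    have hp'p : p' ≠ p := by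
      rintro rfl
      rw [hfp'] at hfp
      have : g' ∈ ({g, a} : Finset Φ) := hfp ▸ (by simp)
      simp [g1, g2] at this
    have hp'q : p' ≠ q := by
      rintro rfl
      rw [hfp'] at hfq
      have : g' ∈ ({g, b} : Finset Φ) := hfq ▸ (by simp)
      simp [g1, g3] at this
    have hq'p : q' ≠ p := by
      rintro rfl
      rw [hfq'] at hfp
      have : g' ∈ ({g, a} : Finset Φ) := hfp ▸ (by simp)
      simp [g1, g2] at this
    have hq'q : q' ≠ q := by
      rintro rfl
      rw [hfq'] at hfq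
      have : g' ∈ ({g, b} : Finset Φ) := hfq ▸ (by simp)
      simp [g1, g3] at this
    have hG2 : Gad (fun r => if r = p then ({g, b} : Finset Φ) else if r = q then {g, a} else fac r)
        ((T.erase a).erase b) g' a' b' p' q' := by
      refine ⟨hpq', hga', hgb', hab', ?_, ?_, ?_, ?_, ?_, ?_⟩
      · exact Finset.mem_erase.2 ⟨g3, Finset.mem_erase.2 ⟨g2, hgT'⟩⟩
      · exact Finset.mem_erase.2 ⟨a3, Finset.mem_erase.2 ⟨a2, haT'⟩⟩
      · exact Finset.mem_erase.2 ⟨b3, Finset.mem_erase.2 ⟨b2, hbT'⟩⟩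
      · simp [hp'p, hp'q, hfp']
      · simp [hq'p, hq'q, hfq']
      · intro r hr
        simp only at hr
        split_ifs at hr with h1 h2
        · simp [g1, g3] at hr
        · simp [g1, g2] at hr
        · exact hst' r hr
    rw [twist _ _ g' a' b' p' q' hG2]
    refine reg_of_card2 (fun r => ?_) ?_
    · split_ifs
      · exact Finset.card_pair hgb'
      · exact Finset.card_pair hga'
      · exact Finset.card_pair hgb
      · exact Finset.card_pair hga
      · exact hp.two_f r
    · have e1 : (T.erase a).card = 5 := by rw [Finset.card_erase_of_mem haT, hc6]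
      have e2 : ((T.erase a).erase b).card = 4 := by
        rw [Finset.card_erase_of_mem (Finset.mem_erase.2 ⟨hab.symm, hbT⟩), e1]
      have m1 : a' ∈ (T.erase a).erase b :=
        Finset.mem_erase.2 ⟨a3, Finset.mem_erase.2 ⟨a2, haT'⟩⟩
      have m2 : b' ∈ ((T.erase a).erase b).erase a' :=
        Finset.mem_erase.2 ⟨hab'.symm, Finset.mem_erase.2 ⟨b3, Finset.mem_erase.2 ⟨b2, hbT'⟩⟩⟩
      rw [Finset.card_erase_of_mem m2, Finset.card_erase_of_mem m1, e2]

end Pool.Agent.H34.GC
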