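import Pool.Agent.H34.GC.Fin
import Pool.Agent.H34.GC.Fin4

set_option autoImplicit false

/-!
# [H34 GC Fin8] Graphic deletion and cographic contraction: the list
-/

namespace Pool.Agent.H34.GC

open Pool.Agent.H34.PM Finset Module Matroid

variable {V E Φ : Type}

theorem main_list [Fintype V] [Fintype E] [Fintype Φ] (vtx : E → Finset V)
    (fac : E → Finset Φ) (two_v : ∀ p, (vtx p).card = 2) (two_f : ∀ p, (fac p).card = 2)
    (iso_v : NoIso vtx) (iso_f : NoIso fac) (hcard : 3 ≤ Fintype.card E)
    (M : Matroid (Option E)) (hE : M.E = Set.univ) (hb : Rep (ZMod 2) M)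
    (h3 : ThreeConnected M)
    (hd : M ＼ {none} = (cyc vtx).map some (Option.some_injective E).injOn)
    (hc : M ／ {none} = ((cyc fac)✶).map some (Option.some_injective E).injOn) :
    ∃ (S : Finset V) (T : Finset Φ),
      M = cyc (fun o : Option E => o.elim S vtx) ∧ M✶ = cyc (fun o : Option E => o.elim T fac) ∧
      (∀ v f, Nat.card {p // v ∈ vtx p ∧ f ∈ fac p} % 2 = 1 ↔ v ∈ S ∧ f ∈ T) ∧
      Fintype.card V + Fintype.card Φ = Fintype.card E + 3 ∧
      Even S.card ∧ Even T.card ∧
      (S.card = 2 ∨ T.card = 2 ∨ S.card = 4 ∨ T.card = 4 ∨ (S.card = 6 ∧ T.card = 6)) ∧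
      (¬ Regular M → (S.card = 4 ∧ Apart vtx S) ∨ (T.card = 4 ∧ Apart fac T)) := by
  classical
  have he : none ∈ M.E := by rw [hE]; trivial
  have hc3 : 3 ≤ (M.E \ {none}).encard := by
    have h1 : M.E \ {none} = Set.range (some : E → Option E) := by
      rw [hE]
      ext x
      cases x <;> simp
    rw [h1, ← Set.image_univ, (Option.some_injective E).encard_image, Set.encard_univ,
      ENat.card_eq_coe_fintype_card]
    exact_mod_cast hcard
  obtain ⟨hl, hcl⟩ := not_loop_of_three he h3 hc3
  have h1 := conn1_contract he h3 hc3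
  have h2 := conn1_delete he h3 hc3
  rw [hc] at h1
  rw [hd] at h2
  obtain ⟨c1, c2⟩ := conn_of_conn1 two_v iso_v (conn1_of_map_some h2)
  have h5 : Conn1 (cyc fac) := by
    have := conn1_dual (conn1_of_map_some h1)
    rwa [Matroid.dual_dual] at this
  obtain ⟨c3, c4⟩ := conn_of_conn1 two_f iso_f h5
  have hE' : M✶.E = Set.univ := hE
  have hb' : Rep (ZMod 2) M✶ := Pool.Agent.H36.TX.rep_dual M (ZMod 2) hb
  have hcl' : ¬ M✶.IsColoop none := by
    rwa [Matroid.dual_isColoop_iff_isLoop]
  have hd' : M✶ ＼ {none} = (cyc fac).map some (Option.some_injective E).injOn := by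
    have := congrArg Matroid.dual hc
    rw [Matroid.dual_contract, Matroid.map_dual] at this
    simpa only [Matroid.dual_dual] using this
  obtain ⟨t, ht, jt⟩ := exists_graft hE hb hcl hd
  obtain ⟨t', ht', jt'⟩ := exists_graft hE' hb' hcl' hd'
  have horth : ∀ v f, t v * t' f + ∑ p, inc vtx p v * inc fac p f = 0 := by
    intro v f
    have := orth (gft vtx t) (gft fac t') (by rw [← ht, ← ht']) v f
    rw [Fintype.sum_option] at this
    exact this
  have hprod : ∀ v f, ∑ p, inc vtx p v * inc fac p f = t v * t' f := by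
    intro v f
    have h := horth v f
    rcases zcases (t v * t' f) with h1 | h1 <;>
      rcases zcases (∑ p, inc vtx p v * inc fac p f) with h2 | h2 <;> rw [h1, h2] at h ⊢ <;>
      revert h <;> decide
  have hne : t ≠ 0 := by
    rintro rfl
    apply hl
    rw [ht, ← Matroid.singleton_dep, Matroid.dep_iff]
    refine ⟨fun h => ?_, fun _ _ => trivial⟩
    rw [lin_indep, linearIndepOn_singleton_iff] at h
    exact h rfl
  have hne' : t' ≠ 0 := by
    rintro rfl
    apply hcl
    rw [← Matroid.dual_isLoop_iff_isColoop, ht', ← Matroid.singleton_dep, Matroid.dep_iff]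
    refine ⟨fun h => ?_, fun _ _ => trivial⟩
    rw [lin_indep, linearIndepOn_singleton_iff] at h
    exact h rfl
  have hc' := hc
  rw [ht] at hc'
  have hp : GPair vtx fac t := ⟨two_v, two_f, c1, c3, c2, c4, fun c => rel_of_contract hne hc' c,
    hne, jt⟩
  have hc'' : M✶ ／ {none} = ((cyc vtx)✶).map some (Option.some_injective E).injOn := by
    have := congrArg Matroid.dual hd
    rw [Matroid.dual_delete, Matroid.map_dual] at this
    exact this
  have hc3' := hc''
  rw [ht'] at hc3'
  have hp' : GPair fac vtx t' := ⟨two_f, two_v, c3, c1, c4, c2,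
    fun c => rel_of_contract hne' hc3' c, hne', jt'⟩
  obtain ⟨v0, hv0⟩ : ∃ v, t v ≠ 0 := by
    by_contra hcon
    push Not at hcon
    exact hne (funext hcon)
  obtain ⟨f0, hf0⟩ : ∃ f, t' f ≠ 0 := by
    by_contra hcon
    push Not at hcon
    exact hne' (funext hcon)
  have : Nonempty V := ⟨v0⟩
  have : Nonempty Φ := ⟨f0⟩
  have heul := hp.euler
  let S : Finset V := univ.filter fun v => t v ≠ 0
  let T : Finset Φ := univ.filter fun f => t' f ≠ 0
  have hS : ∀ v, v ∈ S ↔ t v ≠ 0 := fun v => by simp [S]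
  have hT : ∀ f, f ∈ T ↔ t' f ≠ 0 := fun f => by simp [T]
  have hn : ∀ v f, Nat.card {p // v ∈ vtx p ∧ f ∈ fac p} % 2 = 1 ↔ v ∈ S ∧ f ∈ T := by
    intro v f
    rw [odd_iff, ← inc_mul, hprod, hS, hT]
    exact mul_ne_zero_iff
  have hcore := core_graph vtx fac two_v two_f iso_v iso_f S T hn (fun D hD => hp.h0 D hD)
    (by simpa only [Nat.card_eq_fintype_card] using heul)
  have eS := even_of_join two_v hS jt
  have eT := even_of_join two_f hT jt'
  have hSn : S.card ≠ 0 := by
    rw [Ne, Finset.card_eq_zero]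
    intro h
    have := (hS v0).2 hv0
    rw [h] at this
    exact absurd this (Finset.notMem_empty _)
  have hTn : T.card ≠ 0 := by
    rw [Ne, Finset.card_eq_zero]
    intro h
    have := (hT f0).2 hf0
    rw [h] at this
    exact absurd this (Finset.notMem_empty _)
  have hM : M = cyc (fun o : Option E => o.elim S vtx) := by
    rw [ht, gft_eq vtx t S hS]
    rfl
  have hM' : M✶ = cyc (fun o : Option E => o.elim T fac) := by
    rw [ht', gft_eq fac t' T hT]
    rfl
  have hreg : S.card = 2 ∨ T.card = 2 → Regular M := by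
    rintro (h | h)
    · rw [hM]
      refine cyc_regular fun o => ?_
      rcases o with _ | p
      · exact h
      · exact two_v p
    · have h1 : Pool.Agent.H36.TX.Regular M✶ := by
        rw [hM']
        refine cyc_regular fun o => ?_
        rcases o with _ | p
        · exact h
        · exact two_f p
      have h2 := Pool.Agent.H36.TX.regular_dual _ h1
      rw [Matroid.dual_dual] at h2
      exact h2
  have hsix : S.card = 6 → T.card = 6 → Regular M := fun S6 T6 =>
    regular_of_six iso_v iso_f hp S T hS hn heul S6 T6 M hM h3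
      ((Matroid.not_isLoop_iff he).mp hl) hd hc
  have har := fin_arith eS eT hSn hTn hcore
  have hn' : ∀ f v, Nat.card {p // f ∈ fac p ∧ v ∈ vtx p} % 2 = 1 ↔ f ∈ T ∧ v ∈ S := by
    intro f v
    rw [and_comm (a := f ∈ T), ← hn v f]
    have e : {p // f ∈ fac p ∧ v ∈ vtx p} ≃ {p // v ∈ vtx p ∧ f ∈ fac p} :=
      Equiv.subtypeEquivRight fun p => and_comm
    rw [Nat.card_congr e]
  have h4 : S.card = 4 → Regular M ∨ Apart vtx S := fun S4 =>
    four_case iso_v iso_f hp hp' S T hS hT hn heul S4 eT hcard M hM hM' h3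
  have h4' : T.card = 4 → Regular M✶ ∨ Apart fac T := fun T4 =>
    four_case iso_f iso_v hp' hp T S hT hS hn' (by omega) T4 eS hcard M✶ hM'
      (by rw [Matroid.dual_dual]; exact hM) (three_dual h3)
  refine ⟨S, T, hM, hM', hn, heul, eS, eT, har, fun hr => ?_⟩
  rcases har with h | h | h | h | h
  · exact absurd (hreg (Or.inl h)) hr
  · exact absurd (hreg (Or.inr h)) hr
  · exact Or.inl ⟨h, (h4 h).resolve_left hr⟩
  · exact Or.inr ⟨h, (h4' h).resolve_left fun h5 => hr (regular_of_dual h5)⟩
  · exact absurd (hsix h.1 h.2) hr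

end Pool.Agent.H34.GC
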