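import Pool.Agent.H34.GC.Def4
import Pool.Agent.H85.TG.Twist

set_option autoImplicit false

/-! # [H34 GC K] Grafts on four vertices: regular if and only if some pair is not linked -/

namespace Pool.Agent.H34.GC

open Pool.Agent.H34.PM Finset Module Matroid

private theorem k_regular {α : Type} [Finite α] {N : Matroid α} (h : Pool.Agent.H85.TG.Graphic N) :
    Regular N := by
  obtain ⟨U, _, _, a, b, h⟩ := h
  intro F _
  refine ⟨U → F, inferInstance, inferInstance, Pool.Agent.H18.SG.vec F a b, fun I hI => ?_⟩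
  rw [h I hI, Pool.Agent.H18.SG.gr (ZMod 2) F]

private theorem k_rk {α : Type} [Finite α] (N : Matroid α) (X : Set α) : ∃ a : ℕ, N.eRk X = a := by
  obtain ⟨a, ha⟩ := ENat.ne_top_iff_exists.1
    (ne_top_of_le_ne_top (Set.encard_ne_top_iff.2 (Set.toFinite X)) (N.eRk_le_encard X))
  exact ⟨a, ha.symm⟩

/-- K -/
theorem regular_iff_lk {V E : Type} [Fintype V] [Fintype E] {vtx : E → Finset V}
    (two : ∀ p, (vtx p).card = 2) (hc : Conn vtx) (S : Finset V) (S4 : S.card = 4) (c : V → V)
    (hA : ApartBy vtx S c) (h3 : ThreeConnected (cyc (fun o : Option E => o.elim S vtx))) :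
    Regular (cyc (fun o : Option E => o.elim S vtx)) ↔
      ∃ a ∈ S, ∃ b ∈ S, a ≠ b ∧ ¬ Lk vtx S c a b := by
  classical
  have hends : ∀ q, ∃ a b, a ≠ b ∧ vtx q = {a, b} := fun q => Finset.card_eq_two.1 (two q)
  choose s t hst hvt using hends
  have hmem : ∀ q v, v ∈ vtx q ↔ v = s q ∨ v = t q := by
    intro q v
    rw [hvt q, Finset.mem_insert, Finset.mem_singleton]
  obtain ⟨e⟩ : Nonempty (S ≃ Fin 4) := ⟨S.equivFinOfCardEq S4⟩
  obtain ⟨p, hpdef⟩ : ∃ p : Fin 4 → V, p = fun i => (e.symm i).1 := ⟨_, rfl⟩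
  have hpS : ∀ i, p i ∈ S := fun i => by rw [hpdef]; exact (e.symm i).2
  have hp : Function.Injective p := by
    intro i j h
    rw [hpdef] at h
    exact e.symm.injective (Subtype.ext h)
  have hps : ∀ v ∈ S, ∃ i, p i = v := by
    intro v hv
    refine ⟨e ⟨v, hv⟩, ?_⟩
    rw [hpdef]
    show (e.symm (e ⟨v, hv⟩)).1 = v
    rw [Equiv.symm_apply_apply]
  have hnS : ∀ v, (∀ i, p i ≠ v) ↔ v ∉ S := by
    intro v
    constructor
    · intro h hv
      obtain ⟨i, hi⟩ := hps v hv
      exact h i hi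
    · intro h i hi
      exact h (hi ▸ hpS i)
  have hcol0 : ∀ v, ∃ i, v ∉ S → p i = c v := by
    intro v
    by_cases hv : v ∈ S
    · exact ⟨0, fun h => absurd hv h⟩
    · obtain ⟨i, hi⟩ := hps (c v) (hA v hv).1
      exact ⟨i, fun _ => hi⟩
  choose c' hc' using hcol0
  have hcol : Pool.Agent.H85.TG.Coloured s t p c' := by
    intro f
    refine ⟨fun h1 h2 => ?_, fun i hi h2 hcon => ?_, fun i hi h2 hcon => ?_⟩
    · have h1' := (hnS _).1 h1
      have h2' := (hnS _).1 h2
      apply hp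
      rw [hc' _ h1', hc' _ h2']
      exact (((hA _ h1').2 f ((hmem f _).2 (Or.inl rfl)) (t f) ((hmem f _).2 (Or.inr rfl))).2 h2').symm
    · have h2' := (hnS _).1 h2
      have h4 := ((hA _ h2').2 f ((hmem f _).2 (Or.inr rfl)) (s f) ((hmem f _).2 (Or.inl rfl))).1
      apply h4
      rw [← hi, ← hcon]
      exact hc' _ h2'
    · have h2' := (hnS _).1 h2
      have h4 := ((hA _ h2').2 f ((hmem f _).2 (Or.inl rfl)) (t f) ((hmem f _).2 (Or.inr rfl))).1
      apply h4
      rw [← hi, ← hcon]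
      exact hc' _ h2'
  have hconn : Pool.Agent.H85.TG.Conn s t := by
    intro Z hZ hZc
    by_contra hcon
    push Not at hcon
    have h1 : Z = Set.univ := by
      apply hc Z hZ
      intro q x hx hxZ y hy
      rw [hmem] at hx hy
      have h2 := hcon q
      rcases hx with rfl | rfl <;> rcases hy with rfl | rfl
      · exact hxZ
      · exact h2.1 hxZ
      · exact h2.2 hxZ
      · exact hxZ
    rw [h1, Set.compl_univ] at hZc
    exact Set.not_nonempty_empty hZc
  have hvec : ∀ o : Option E, Pool.Agent.H85.TG.ev s t p o = inc (fun o : Option E => o.elim S vtx) o := by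
    intro o
    funext v
    rcases o with _ | f
    · show (∑ i, (Pi.single (p i) 1 : V → ZMod 2)) v = _
      rw [Finset.sum_apply]
      by_cases hv : v ∈ S
      · obtain ⟨i, rfl⟩ := hps v hv
        rw [Finset.sum_eq_single i]
        · simp [inc, hv]
        · intro j _ hj
          rw [Pi.single_eq_of_ne]
          exact fun h => hj (hp h).symm
        · intro h
          exact absurd (Finset.mem_univ i) h
      · rw [Finset.sum_eq_zero]
        · simp [inc, hv]
        · intro i _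
          rw [Pi.single_eq_of_ne]
          rintro rfl
          exact hv (hpS i)
    · show (Pi.single (s f) 1 - Pi.single (t f) 1 : V → ZMod 2) v = inc vtx f v
      have h1 : inc vtx f v = if v = s f ∨ v = t f then 1 else 0 := by
        by_cases h2 : v = s f ∨ v = t f
        · rw [if_pos h2]
          simp [inc, (hmem f v).2 h2]
        · rw [if_neg h2]
          have h4 : v ∉ vtx f := fun h5 => h2 ((hmem f v).1 h5)
          simp [inc, h4]
      rw [h1, Pi.sub_apply]
      have h5 := hst f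
      by_cases h6 : v = s f
      · subst h6
        rw [if_pos (Or.inl rfl), Pi.single_eq_same, Pi.single_eq_of_ne h5, sub_zero]
      · by_cases h7 : v = t f
        · subst h7
          rw [if_pos (Or.inr rfl), Pi.single_eq_same, Pi.single_eq_of_ne h6]
          decide
        · rw [if_neg (by tauto), Pi.single_eq_of_ne h6, Pi.single_eq_of_ne h7, sub_zero]
  have hM : cyc (fun o : Option E => o.elim S vtx) = Pool.Agent.H85.TG.graft s t p := by
    refine Matroid.ext_indep rfl fun I _ => ?_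
    rw [cyc, lin_indep, Pool.Agent.H85.TG.graft, Pool.Agent.H18.SG.linMat_indep]
    have h1 : Pool.Agent.H85.TG.ev s t p = inc (fun o : Option E => o.elim S vtx) := funext hvec
    rw [h1]
  have h3' : Pool.Agent.H36.TX.ThreeConn (Pool.Agent.H85.TG.graft s t p) := by
    rw [← hM]
    intro k hk X Y hXY hd hX hY
    have h2 := h3 k hk X Y hXY hd hX hY
    obtain ⟨a, ha⟩ := k_rk (cyc (fun o : Option E => o.elim S vtx)) X
    obtain ⟨b, hb⟩ := k_rk (cyc (fun o : Option E => o.elim S vtx)) Y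
    obtain ⟨m, hm⟩ := k_rk (cyc (fun o : Option E => o.elim S vtx))
      (cyc (fun o : Option E => o.elim S vtx)).E
    rw [eRk_ground] at hm
    rw [ha, hb, hm] at h2 ⊢
    norm_cast at h2 ⊢
    omega
  have hside : ∀ i j v, v ∈ Pool.Agent.H85.TG.side p c' i j ↔
      v = p i ∨ v = p j ∨ (v ∉ S ∧ c v ≠ p i ∧ c v ≠ p j) := by
    intro i j v
    show (v = p i ∨ v = p j ∨ ((∀ m, p m ≠ v) ∧ c' v ≠ i ∧ c' v ≠ j)) ↔ _
    rw [hnS]
    have h1 : v ∉ S → ∀ k, c' v ≠ k ↔ c v ≠ p k := by
      intro hv k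
      rw [← hc' v hv]
      exact (hp.ne_iff (x := c' v) (y := k)).symm
    constructor
    · rintro (h | h | ⟨h2, h4, h5⟩)
      · exact Or.inl h
      · exact Or.inr (Or.inl h)
      · exact Or.inr (Or.inr ⟨h2, (h1 h2 i).1 h4, (h1 h2 j).1 h5⟩)
    · rintro (h | h | ⟨h2, h4, h5⟩)
      · exact Or.inl h
      · exact Or.inr (Or.inl h)
      · exact Or.inr (Or.inr ⟨h2, (h1 h2 i).2 h4, (h1 h2 j).2 h5⟩)
  have hlk : ∀ i j, Lk vtx S c (p i) (p j) ↔ Pool.Agent.H85.TG.Linked s t p c' i j := by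
    intro i j
    constructor
    · intro h Z hi hj
      obtain ⟨q, h1, v, hv, w, hw, hvZ, hwZ⟩ := h Z hi hj
      refine ⟨q, (hside i j _).2 (h1 _ ((hmem q _).2 (Or.inl rfl))),
        (hside i j _).2 (h1 _ ((hmem q _).2 (Or.inr rfl))), ?_⟩
      rw [hmem] at hv hw
      rcases hv with rfl | rfl <;> rcases hw with rfl | rfl
      · exact absurd hvZ hwZ
      · exact Or.inl ⟨hvZ, hwZ⟩
      · exact Or.inr ⟨hvZ, hwZ⟩
      · exact absurd hvZ hwZ
    · intro h Z hi hj
      obtain ⟨q, h1, h2, h4⟩ := h Z hi hj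
      refine ⟨q, fun v hv => ?_, ?_⟩
      · rw [hmem] at hv
        rcases hv with rfl | rfl
        · exact (hside i j _).1 h1
        · exact (hside i j _).1 h2
      · rcases h4 with ⟨h5, h6⟩ | ⟨h5, h6⟩
        · exact ⟨s q, (hmem q _).2 (Or.inl rfl), t q, (hmem q _).2 (Or.inr rfl), h5, h6⟩
        · exact ⟨t q, (hmem q _).2 (Or.inr rfl), s q, (hmem q _).2 (Or.inl rfl), h5, h6⟩
  have hoff := Pool.Agent.H85.TG.off_of_three h3' hconn (Pool.Agent.H85.TG.card_of_conn hconn hp)
  rw [hM]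
  constructor
  · intro hreg
    by_contra hcon
    push Not at hcon
    have h2 : Pool.Agent.H36.TX.Rep (Pool.Agent.H85.TG.graft s t p) ℚ := hreg ℚ
    refine Pool.Agent.H85.TG.nonrep (c := c') hoff hconn hp (fun i j hij => ?_) (two_ne_zero : (2 : ℚ) ≠ 0) h2
    exact ((hlk i j).1 (hcon (p i) (hpS i) (p j) (hpS j) (fun h => hij (hp h)))).mem
  · rintro ⟨a, ha, b, hb, hab, h⟩
    obtain ⟨i, rfl⟩ := hps a ha
    obtain ⟨j, rfl⟩ := hps b hb
    exact k_regular (Pool.Agent.H85.TG.graphic_of_not_linked hp hcol (fun h4 => hab (by rw [h4]))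
      (fun h4 => h ((hlk i j).2 h4)))

end Pool.Agent.H34.GC
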