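import Pool.Agent.H34.GC.Fin8
import Pool.Agent.H34.GC.K

set_option autoImplicit false

/-!
# [H34 GC Fin9] Graphic deletion and cographic contraction: the classification
-/

namespace Pool.Agent.H34.GC

open Pool.Agent.H34.PM Finset Module Matroid

variable {V E Φ : Type}

theorem main_iff [Fintype V] [Fintype E] [Fintype Φ] (vtx : E → Finset V)
    (fac : E → Finset Φ) (two_v : ∀ p, (vtx p).card = 2) (two_f : ∀ p, (fac p).card = 2)
    (iso_v : NoIso vtx) (iso_f : NoIso fac) (hcard : 3 ≤ Fintype.card E)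
    (M : Matroid (Option E)) (hE : M.E = Set.univ) (hb : Rep (ZMod 2) M)
    (h3 : ThreeConnected M)
    (hd : M ＼ {none} = (cyc vtx).map some (Option.some_injective E).injOn)
    (hc : M ／ {none} = ((cyc fac)✶).map some (Option.some_injective E).injOn) :
    ∃ (S : Finset V) (T : Finset Φ),
      M = cyc (fun o : Option E => o.elim S vtx) ∧ M✶ = cyc (fun o : Option E => o.elim T fac) ∧
      (∀ v f, Nat.card {p // v ∈ vtx p ∧ f ∈ fac p} % 2 = 1 ↔ v ∈ S ∧ f ∈ T) ∧
      Fintype.card V + Fintype.card Φ = Fintype.card E + 3 ∧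
      Even S.card ∧ Even T.card ∧
      (S.card = 2 ∨ T.card = 2 ∨ S.card = 4 ∨ T.card = 4 ∨ (S.card = 6 ∧ T.card = 6)) ∧
      (¬ Regular M ↔ Quad vtx S ∨ Quad fac T) := by
  classical
  have he : none ∈ M.E := by rw [hE]; trivial
  have hc3 : 3 ≤ (M.E \ {none}).encard := by
    have h1 : M.E \ {none} = Set.range (some : E → Option E) := by
      rw [hE]
      ext x
      cases x <;> simp
    rw [h1, ← Set.image_univ, (Option.some_injective E).encard_image, Set.encard_univ,
      ENat.card_eq_coe_fintype_card]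
    exact_mod_cast hcard
  have h1 := conn1_contract he h3 hc3
  have h2 := conn1_delete he h3 hc3
  rw [hc] at h1
  rw [hd] at h2
  obtain ⟨c1, -⟩ := conn_of_conn1 two_v iso_v (conn1_of_map_some h2)
  have h5 : Conn1 (cyc fac) := by
    have := conn1_dual (conn1_of_map_some h1)
    rwa [Matroid.dual_dual] at this
  obtain ⟨c3, -⟩ := conn_of_conn1 two_f iso_f h5
  obtain ⟨S, T, hM, hM', hn, heul, eS, eT, hl, hr⟩ :=
    main_list vtx fac two_v two_f iso_v iso_f hcard M hE hb h3 hd hc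
  refine ⟨S, T, hM, hM', hn, heul, eS, eT, hl, fun h => ?_, ?_⟩
  · rcases hr h with ⟨S4, c, hA⟩ | ⟨T4, c, hA⟩
    · left
      refine ⟨S4, c, hA, fun a ha b hb' hab => ?_⟩
      by_contra hL
      exact h (hM ▸ (regular_iff_lk two_v c1 S S4 c hA (hM ▸ h3)).2 ⟨a, ha, b, hb', hab, hL⟩)
    · right
      refine ⟨T4, c, hA, fun a ha b hb' hab => ?_⟩
      by_contra hL
      exact h (regular_of_dual (hM' ▸ (regular_iff_lk two_f c3 T T4 c hA
        (hM' ▸ three_dual h3)).2 ⟨a, ha, b, hb', hab, hL⟩))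
  · rintro (⟨S4, c, hA, hL⟩ | ⟨T4, c, hA, hL⟩) hreg
    · obtain ⟨a, ha, b, hb', hab, hn'⟩ :=
        (regular_iff_lk two_v c1 S S4 c hA (hM ▸ h3)).1 (hM ▸ hreg)
      exact hn' (hL a ha b hb' hab)
    · have hreg' : Regular M✶ := Pool.Agent.H36.TX.regular_dual M hreg
      obtain ⟨a, ha, b, hb', hab, hn'⟩ :=
        (regular_iff_lk two_f c3 T T4 c hA (hM' ▸ three_dual h3)).1 (hM' ▸ hreg')
      exact hn' (hL a ha b hb' hab)

end Pool.Agent.H34.GC
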