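import Pool.Agent.H34.GC.R10

set_option autoImplicit false

/-!
# [H34 GC K33] grafts on `K_{3,3}` with all vertices (helper36)
-/

namespace Pool.Agent.H34.GC

open Finset
open Pool.Agent.H34.PM
open Pool.Agent.H18.SG (vec)
open Pool.Agent.H34.GC.R10 (rv q s3 t3 indep_iff)

theorem regular_of_k33 {V E : Type} [Fintype V] [Fintype E] (vtx : E → Finset V) (T : V → ZMod 2)
    (hT : ∀ v, T v = 1) (gv : V ≃ Fin 3 ⊕ Fin 3) (ge : E → Fin 3 × Fin 3)
    (hge : Function.Injective ge)
    (h : ∀ p v, v ∈ vtx p ↔ v = gv.symm (Sum.inl (ge p).1) ∨ v = gv.symm (Sum.inr (ge p).2)) :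
    Regular (lin (ZMod 2) (gft vtx T)) := by
  classical
  intro F _
  refine ⟨Fin 3 ⊕ Fin 3 → F, inferInstance, inferInstance, fun o => rv F (o.map ge), ?_⟩
  intro I _
  rw [lin_indep]
  set L : (Fin 3 ⊕ Fin 3 → ZMod 2) ≃ₗ[ZMod 2] (V → ZMod 2) :=
    LinearEquiv.funCongrLeft (ZMod 2) (ZMod 2) gv with hL
  have h1 : gft vtx T = fun o => L (rv (ZMod 2) (o.map ge)) := by
    funext o v
    rcases o with _ | p
    · show T v = q (ZMod 2) (gv v)
      rw [hT]
      rcases gv v with i | j
      · rfl
      · show (1 : ZMod 2) = -1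
        decide
    · show inc vtx p v = vec (ZMod 2) s3 t3 (ge p) (gv v)
      have e1 : inc vtx p v = if v ∈ vtx p then 1 else 0 := by
        simp only [inc]
      rw [e1]
      simp only [h]
      show _ = (Pi.single (Sum.inl (ge p).1) 1 - Pi.single (Sum.inr (ge p).2) 1 :
        Fin 3 ⊕ Fin 3 → ZMod 2) (gv v)
      rw [Pi.sub_apply, Pi.single_apply, Pi.single_apply, Equiv.eq_symm_apply,
        Equiv.eq_symm_apply]
      by_cases g1 : gv v = Sum.inl (ge p).1
      · have g2 : ¬ (gv v = Sum.inr (ge p).2) := by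
          rw [g1]
          exact Sum.inl_ne_inr
        simp [g1]
      · by_cases g2 : gv v = Sum.inr (ge p).2
        · rw [if_pos (Or.inr g2), if_neg g1, if_pos g2]
          decide
        · rw [if_neg (by tauto), if_neg g1, if_neg g2]
          decide
  have hinj : Function.Injective (Option.map ge) := Option.map_injective hge
  have h2 : ∀ (K : Type) [Field K], LinearIndepOn K (fun o : Option E => rv K (o.map ge)) I ↔
      LinearIndepOn K (rv K) (Option.map ge '' I) := by
    intro K _
    constructor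
    · intro g
      exact LinearIndepOn.image_of_comp (Option.map ge) (rv K) g
    · intro g
      exact g.comp_of_image hinj.injOn
  have h3 : LinearIndepOn (ZMod 2) (fun o => L (rv (ZMod 2) (o.map ge))) I ↔
      LinearIndepOn (ZMod 2) (fun o : Option E => rv (ZMod 2) (o.map ge)) I := by
    exact L.toLinearMap.linearIndepOn_iff_of_injOn L.injective.injOn
  rw [h1, h3, h2, h2, indep_iff F]

end Pool.Agent.H34.GC
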