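import Pool.Agent.H34.GC.Def2

set_option autoImplicit false

/-! # [H34 GC R1] bipartite graphs: incidence vectors without signs -/

namespace Pool.Agent.H34.GC

open Pool.Agent.H34.PM Finset Module Matroid

variable {V E Φ : Type}

/-- Joined by edges of `J`. -/
private def Jn (e : E → Finset V) (J : Set E) (x y : V) : Prop :=
  Relation.ReflTransGen (fun x y => ∃ q ∈ J, x ∈ e q ∧ y ∈ e q) x y

private theorem jn_symm {e : E → Finset V} {J : Set E} {x y : V} (h : Jn e J x y) : Jn e J y x := by
  induction h with
  | refl => exact Relation.ReflTransGen.refl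
  | tail _ h2 ih =>
    obtain ⟨q, hq, h3, h4⟩ := h2
    exact Relation.ReflTransGen.head ⟨q, hq, h4, h3⟩ ih

private theorem span_iff (F : Type) [Field F] [Finite V] [DecidableEq V] {vtx : E → Finset V}
    (a b : E → V) (hab : ∀ p, vtx p = {a p, b p}) (J : Set E) (p : E) :
    ((Pi.single (a p) 1 - Pi.single (b p) 1 : V → F) ∈
      Submodule.span F ((fun q => (Pi.single (a q) 1 - Pi.single (b q) 1 : V → F)) '' J)) ↔
      Jn vtx J (a p) (b p) := by
  classical
  have := Fintype.ofFinite V
  constructor
  · intro h
    by_contra hn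
    let S : Finset V := Finset.univ.filter fun x => Jn vtx J (a p) x
    let f : (V → F) →ₗ[F] F := ∑ x ∈ S, LinearMap.proj x
    have hf : ∀ x y : V, f (Pi.single x 1 - Pi.single y 1 : V → F) =
        (if x ∈ S then 1 else 0) - (if y ∈ S then 1 else 0) := by
      intro x y
      simp only [f, LinearMap.sum_apply, LinearMap.proj_apply, Pi.sub_apply, Finset.sum_sub_distrib,
        Pi.single_apply]
      simp
    have hker : Submodule.span F
        ((fun q => (Pi.single (a q) 1 - Pi.single (b q) 1 : V → F)) '' J) ≤ LinearMap.ker f := by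
      rw [Submodule.span_le]
      rintro _ ⟨q, hq, rfl⟩
      show f _ = 0
      rw [hf]
      have h1 : a q ∈ S ↔ b q ∈ S := by
        simp only [S, Finset.mem_filter, Finset.mem_univ, true_and]
        constructor
        · intro h2
          exact Relation.ReflTransGen.tail h2 ⟨q, hq, by rw [hab]; simp, by rw [hab]; simp⟩
        · intro h2
          exact Relation.ReflTransGen.tail h2 ⟨q, hq, by rw [hab]; simp, by rw [hab]; simp⟩
      by_cases h2 : a q ∈ S
      · rw [if_pos h2, if_pos (h1.1 h2), sub_self]
      · rw [if_neg h2, if_neg (fun h3 => h2 (h1.2 h3)), sub_self]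
    have h1 : f (Pi.single (a p) 1 - Pi.single (b p) 1 : V → F) = 0 := hker h
    rw [hf, if_pos, if_neg] at h1
    · simp at h1
    · simp only [S, Finset.mem_filter, Finset.mem_univ, true_and]
      exact hn
    · simp only [S, Finset.mem_filter, Finset.mem_univ, true_and]
      exact Relation.ReflTransGen.refl
  · intro h
    have key : ∀ y, Jn vtx J (a p) y → (Pi.single (a p) 1 - Pi.single y 1 : V → F) ∈
        Submodule.span F ((fun q => (Pi.single (a q) 1 - Pi.single (b q) 1 : V → F)) '' J) := by
      intro y hy
      induction hy with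
      | refl => rw [sub_self]; exact zero_mem _
      | @tail y z _ h2 ih =>
        obtain ⟨q, hq, h3, h4⟩ := h2
        have e1 : (Pi.single (a p) 1 - Pi.single z 1 : V → F) =
            (Pi.single (a p) 1 - Pi.single y 1) + (Pi.single y 1 - Pi.single z 1) := by abel
        rw [e1]
        refine add_mem ih ?_
        have hv : (Pi.single (a q) 1 - Pi.single (b q) 1 : V → F) ∈
            Submodule.span F ((fun q => (Pi.single (a q) 1 - Pi.single (b q) 1 : V → F)) '' J) :=
          Submodule.subset_span ⟨q, hq, rfl⟩
        rw [hab] at h3 h4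
        rw [Finset.mem_insert, Finset.mem_singleton] at h3 h4
        rcases h3 with rfl | rfl <;> rcases h4 with rfl | rfl
        · rw [sub_self]; exact zero_mem _
        · exact hv
        · rw [← neg_sub]; exact neg_mem hv
        · rw [sub_self]; exact zero_mem _
    exact key _ h

private theorem indep_iff_forest (F : Type) [Field F] [Finite V] [DecidableEq V]
    {vtx : E → Finset V} (a b : E → V) (hab : ∀ p, vtx p = {a p, b p}) (I : Set E) :
    LinearIndepOn F (fun q => (Pi.single (a q) 1 - Pi.single (b q) 1 : V → F)) I ↔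
      ∀ p ∈ I, ¬ Jn vtx (I \ {p}) (a p) (b p) := by
  rw [linearIndepOn_iff_notMem_span]
  refine forall₂_congr fun p _ => ?_
  rw [span_iff F a b hab]

private theorem inc_eq [DecidableEq V] {vtx : E → Finset V} (a b : E → V)
    (hab : ∀ p, vtx p = {a p, b p}) (hne : ∀ p, a p ≠ b p) :
    inc vtx = fun q => (Pi.single (a q) 1 - Pi.single (b q) 1 : V → ZMod 2) := by
  funext q x
  simp only [inc, hab, Finset.mem_insert, Finset.mem_singleton, Pi.sub_apply, Pi.single_apply]
  by_cases h1 : x = a q
  · have h2 : x ≠ b q := fun h => hne q (h1.symm.trans h)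
    simp [h1, hne q]
  · by_cases h2 : x = b q
    · have h3 : b q ≠ a q := fun h => hne q h.symm
      simp [h2, h3]
    · simp [h1, h2]

/-- R1 -/
theorem bip_indep [Fintype V] [Fintype E] {vtx : E → Finset V} (two : ∀ p, (vtx p).card = 2)
    (hy : ∃ y : V → ZMod 2, ∀ p, ∑ v, y v * inc vtx p v = 1) (F : Type) [Field F] (I : Set E) :
    LinearIndepOn F (incF F vtx) I ↔ LinearIndepOn (ZMod 2) (inc vtx) I := by
  classical
  obtain ⟨y, hy⟩ := hy
  have hch : ∀ p, ∃ a b, a ≠ b ∧ vtx p = {a, b} ∧ y a = 1 ∧ y b = 0 := by
    intro p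
    obtain ⟨a, b, hne, hab⟩ := Finset.card_eq_two.mp (two p)
    have h1 : y a + y b = 1 := by
      rw [← hy p]
      have e : ∀ v, y v * inc vtx p v = (if v = a then y v else 0) + (if v = b then y v else 0) := by
        intro v
        simp only [inc, hab, Finset.mem_insert, Finset.mem_singleton]
        by_cases h1 : v = a
        · have h2 : v ≠ b := fun h => hne (h1.symm.trans h)
          simp [h1, hne]
        · by_cases h2 : v = b
          · simp [h2, hne.symm]
          · simp [h1, h2]
      rw [Finset.sum_congr rfl fun v _ => e v, Finset.sum_add_distrib, Finset.sum_ite_eq',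
        Finset.sum_ite_eq']
      simp
    have h2 : ∀ s t : ZMod 2, s + t = 1 → (s = 1 ∧ t = 0) ∨ (t = 1 ∧ s = 0) := by decide
    rcases h2 _ _ h1 with ⟨h3, h4⟩ | ⟨h3, h4⟩
    · exact ⟨a, b, hne, hab, h3, h4⟩
    · exact ⟨b, a, hne.symm, by rw [hab, Finset.pair_comm], h3, h4⟩
  choose a b hne hab ya yb using hch
  rw [inc_eq a b hab hne, indep_iff_forest (ZMod 2) a b hab, ← indep_iff_forest F a b hab]
  let D : (V → F) →ₗ[F] (V → F) :=
    { toFun := fun u v => (if y v = 1 then (1 : F) else -1) * u v
      map_add' := fun u w => by funext v; simp [mul_add]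
      map_smul' := fun c u => by funext v; simp [mul_left_comm] }
  have hD : LinearMap.ker D = ⊥ := by
    rw [LinearMap.ker_eq_bot']
    intro u hu
    funext v
    have h1 : (if y v = 1 then (1 : F) else -1) * u v = 0 := congrFun hu v
    rcases mul_eq_zero.mp h1 with h2 | h2
    · split_ifs at h2 <;> simp at h2
    · exact h2
  have e : (fun q => (Pi.single (a q) 1 - Pi.single (b q) 1 : V → F)) = D ∘ incF F vtx := by
    funext q x
    show _ = (if y x = 1 then (1 : F) else -1) * incF F vtx q x
    simp only [incF, hab, Finset.mem_insert, Finset.mem_singleton, Pi.sub_apply, Pi.single_apply]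
    by_cases h1 : x = a q
    · subst h1
      simp [hne q, ya q]
    · by_cases h2 : x = b q
      · subst h2
        simp [(hne q).symm, yb q]
      · simp [h1, h2]
  rw [e]
  exact (LinearMap.linearIndependent_iff (v := fun x : I => incF F vtx x) D hD).symm

end Pool.Agent.H34.GC
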