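import Pool.Agent.H34.GC.Def
import Pool.Agent.H18.SG.Gr

set_option autoImplicit false

/-!
# [H34 GC R10] the graft of `K_{3,3}` with all six vertices is regular (helper36)
-/

namespace Pool.Agent.H34.GC.R10

open Finset Submodule
open Pool.Agent.H18.SG (vec gr)

/-- membership in the span of the incidence vectors of a set of edges, by closed sets of vertices -/
theorem mem_iff {F V E : Type} [Field F] [Fintype V] [DecidableEq V] (s t : E → V) (J : Set E)
    (x : V → F) : x ∈ span F (vec F s t '' J) ↔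
      ∀ Z : Finset V, (∀ f ∈ J, (s f ∈ Z ↔ t f ∈ Z)) → ∑ v ∈ Z, x v = 0 := by
  constructor
  · intro hx Z hZ
    induction hx using Submodule.span_induction with
    | mem y hy =>
      obtain ⟨f, hf, rfl⟩ := hy
      have := hZ f hf
      simp only [vec, Pi.sub_apply, Finset.sum_sub_distrib, Pi.single_apply]
      simp only [Finset.sum_ite_eq']
      by_cases h : s f ∈ Z
      · rw [if_pos h, if_pos (this.1 h), sub_self]
      · rw [if_neg h, if_neg (fun h2 => h (this.2 h2)), sub_self]
    | zero => simp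
    | add y z _ _ hy hz => simp only [Pi.add_apply, Finset.sum_add_distrib, hy, hz, add_zero]
    | smul c y _ hy => simp only [Pi.smul_apply, smul_eq_mul, ← Finset.mul_sum, hy, mul_zero]
  · intro h
    by_contra hx
    obtain ⟨ψ, h1, h2⟩ := Submodule.exists_le_ker_of_notMem hx
    apply h1
    classical
    have h3 : ψ x = ∑ v, x v * ψ (Pi.single v 1) := by
      conv_lhs => rw [← Finset.univ_sum_single x]
      rw [map_sum]
      apply Finset.sum_congr rfl
      intro v _
      have : (Pi.single v (x v) : V → F) = x v • Pi.single v 1 := by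
        rw [← Pi.single_smul, smul_eq_mul, mul_one]
      rw [this, map_smul, smul_eq_mul]
    rw [h3, ← Finset.sum_fiberwise_of_maps_to (g := fun v => ψ (Pi.single v 1))
      (t := Finset.univ.image (fun v => ψ (Pi.single v 1)))
      (fun v _ => Finset.mem_image_of_mem _ (Finset.mem_univ v))]
    apply Finset.sum_eq_zero
    intro c _
    have h4 : ∑ v ∈ Finset.univ.filter (fun v => ψ (Pi.single v 1) = c), x v = 0 := by
      apply h
      intro f hf
      have h5 : ψ (vec F s t f) = 0 := h2 (subset_span ⟨f, hf, rfl⟩)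
      unfold vec at h5
      rw [map_sub, sub_eq_zero] at h5
      simp only [Finset.mem_filter, Finset.mem_univ, true_and]
      rw [h5]
    calc ∑ v ∈ Finset.univ.filter (fun v => ψ (Pi.single v 1) = c), x v * ψ (Pi.single v 1)
        = ∑ v ∈ Finset.univ.filter (fun v => ψ (Pi.single v 1) = c), x v * c := by
          apply Finset.sum_congr rfl
          intro v hv
          rw [(Finset.mem_filter.1 hv).2]
      _ = 0 := by rw [← Finset.sum_mul, h4, zero_mul]

/-- first end -/
def s3 (e : Fin 3 × Fin 3) : Fin 3 ⊕ Fin 3 := Sum.inl e.1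

/-- second end -/
def t3 (e : Fin 3 × Fin 3) : Fin 3 ⊕ Fin 3 := Sum.inr e.2

/-- the vector of the added element -/
def q (F : Type) [Field F] : Fin 3 ⊕ Fin 3 → F := Sum.elim (fun _ => 1) (fun _ => -1)

/-- the vectors -/
def rv (F : Type) [Field F] : Option (Fin 3 × Fin 3) → (Fin 3 ⊕ Fin 3 → F)
  | none => q F
  | some e => vec F s3 t3 e

/-- closed sets, as Boolean functions -/
def clo (b00 b01 b02 b10 b11 b12 b20 b21 b22 x0 x1 x2 y0 y1 y2 : Bool) : Bool :=
  (!b00 || x0 == y0) && (!b01 || x0 == y1) && (!b02 || x0 == y2) &&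
  (!b10 || x1 == y0) && (!b11 || x1 == y1) && (!b12 || x1 == y2) &&
  (!b20 || x2 == y0) && (!b21 || x2 == y1) && (!b22 || x2 == y2)

theorem finite_check : ∀ b00 b01 b02 b10 b11 b12 b20 b21 b22 : Bool,
    (∀ x0 x1 x2 y0 y1 y2 : Bool, clo b00 b01 b02 b10 b11 b12 b20 b21 b22 x0 x1 x2 y0 y1 y2 = true →
      x0.toNat + x1.toNat + x2.toNat ≠ y0.toNat + y1.toNat + y2.toNat + 1 ∧
      x0.toNat + x1.toNat + x2.toNat + 1 ≠ y0.toNat + y1.toNat + y2.toNat) →
    (∀ x0 x1 x2 y0 y1 y2 : Bool, clo b00 b01 b02 b10 b11 b12 b20 b21 b22 x0 x1 x2 y0 y1 y2 = true →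
      x0.toNat + x1.toNat + x2.toNat = y0.toNat + y1.toNat + y2.toNat) := by
  decide +kernel

/-- the sum over a set of vertices -/
theorem sum_q (F : Type) [Field F] (Z : Finset (Fin 3 ⊕ Fin 3)) :
    ∑ v ∈ Z, q F v =
      (((decide (Sum.inl 0 ∈ Z)).toNat + (decide (Sum.inl 1 ∈ Z)).toNat +
        (decide (Sum.inl 2 ∈ Z)).toNat : ℕ) : F) -
      (((decide (Sum.inr 0 ∈ Z)).toNat + (decide (Sum.inr 1 ∈ Z)).toNat +
        (decide (Sum.inr 2 ∈ Z)).toNat : ℕ) : F) := by
  rw [← Finset.sum_filter_add_sum_filter_not Z (fun v => v ∈ Z)]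
  have h1 : ∑ v ∈ Z, q F v = ∑ v, if v ∈ Z then q F v else 0 := by
    rw [Finset.sum_ite_mem, Finset.univ_inter]
  have h0 : ∀ b : Prop, ∀ [Decidable b], (if b then (1 : F) else 0) = ((decide b).toNat : F) := by
    intro b _
    by_cases h : b
    · simp [h]
    · simp [h]
  have h0' : ∀ b : Prop, ∀ [Decidable b], (if b then (-1 : F) else 0) = -((decide b).toNat : F) := by
    intro b _
    by_cases h : b
    · simp [h]
    · simp [h]
  have h2 : ∑ v ∈ Z with v ∈ Z, q F v = ∑ v ∈ Z, q F v := by
    congr 1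
    ext v
    simp
  have h3 : ∑ v ∈ Z with v ∉ Z, q F v = 0 := by
    apply Finset.sum_eq_zero
    intro v hv
    simp at hv
  rw [h2, h3, add_zero, h1, Fintype.sum_sum_type, Fin.sum_univ_three, Fin.sum_univ_three]
  simp only [q, Sum.elim_inl, Sum.elim_inr, h0, h0']
  push_cast
  ring

theorem mem_iff_balanced (F : Type) [Field F] (J : Set (Fin 3 × Fin 3)) :
    q F ∈ span F (vec F s3 t3 '' J) ↔
      ∀ x0 x1 x2 y0 y1 y2 : Bool,
        (∀ i j, (i, j) ∈ J → ![x0, x1, x2] i = ![y0, y1, y2] j) →
        x0.toNat + x1.toNat + x2.toNat = y0.toNat + y1.toNat + y2.toNat := by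
  classical
  rw [mem_iff]
  constructor
  · intro h
    set b : Fin 3 → Fin 3 → Bool := fun i j => decide ((i, j) ∈ J) with hb
    have key := finite_check (b 0 0) (b 0 1) (b 0 2) (b 1 0) (b 1 1) (b 1 2) (b 2 0) (b 2 1) (b 2 2)
    have hclo : ∀ x0 x1 x2 y0 y1 y2 : Bool,
        clo (b 0 0) (b 0 1) (b 0 2) (b 1 0) (b 1 1) (b 1 2) (b 2 0) (b 2 1) (b 2 2)
          x0 x1 x2 y0 y1 y2 = true ↔
        (∀ i j, (i, j) ∈ J → ![x0, x1, x2] i = ![y0, y1, y2] j) := by
      intro x0 x1 x2 y0 y1 y2
      simp only [clo, Bool.and_eq_true, Bool.or_eq_true, Bool.not_eq_true', beq_iff_eq, hb,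
        decide_eq_false_iff_not]
      constructor
      · rintro ⟨⟨⟨⟨⟨⟨⟨⟨h00, h01⟩, h02⟩, h10⟩, h11⟩, h12⟩, h20⟩, h21⟩, h22⟩ i j hij
        fin_cases i <;> fin_cases j
        · exact h00.resolve_left (fun g => g hij)
        · exact h01.resolve_left (fun g => g hij)
        · exact h02.resolve_left (fun g => g hij)
        · exact h10.resolve_left (fun g => g hij)
        · exact h11.resolve_left (fun g => g hij)
        · exact h12.resolve_left (fun g => g hij)
        · exact h20.resolve_left (fun g => g hij)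
        · exact h21.resolve_left (fun g => g hij)
        · exact h22.resolve_left (fun g => g hij)
      · intro g
        refine ⟨⟨⟨⟨⟨⟨⟨⟨?_, ?_⟩, ?_⟩, ?_⟩, ?_⟩, ?_⟩, ?_⟩, ?_⟩, ?_⟩
        · exact (em _).symm.imp id (g 0 0)
        · exact (em _).symm.imp id (g 0 1)
        · exact (em _).symm.imp id (g 0 2)
        · exact (em _).symm.imp id (g 1 0)
        · exact (em _).symm.imp id (g 1 1)
        · exact (em _).symm.imp id (g 1 2)
        · exact (em _).symm.imp id (g 2 0)
        · exact (em _).symm.imp id (g 2 1)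
        · exact (em _).symm.imp id (g 2 2)
    intro x0 x1 x2 y0 y1 y2 hx
    refine key ?_ x0 x1 x2 y0 y1 y2 ((hclo _ _ _ _ _ _).2 hx)
    intro u0 u1 u2 w0 w1 w2 hu
    have hu' := (hclo _ _ _ _ _ _).1 hu
    have h1 := h (Finset.univ.filter (fun v => Sum.elim ![u0, u1, u2] ![w0, w1, w2] v = true)) ?_
    · rw [sum_q] at h1
      simp only [Finset.mem_filter, Finset.mem_univ, true_and, Sum.elim_inl, Sum.elim_inr,
        Matrix.cons_val_zero, Matrix.cons_val_one, Matrix.cons_val, Bool.decide_eq_true] at h1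
      constructor
      · intro h2
        rw [h2] at h1
        push_cast at h1
        rw [add_sub_cancel_left] at h1
        exact one_ne_zero h1
      · intro h2
        rw [← h2] at h1
        push_cast at h1
        have : (1 : F) = 0 := by linear_combination -h1
        exact one_ne_zero this
    · rintro ⟨i, j⟩ hij
      have := hu' i j hij
      simp only [s3, t3, Finset.mem_filter, Finset.mem_univ, true_and, Sum.elim_inl, Sum.elim_inr,
        this]
  · intro h Z hZ
    rw [sum_q, sub_eq_zero]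
    congr 1
    apply h
    intro i j hij
    have h1 := hZ (i, j) hij
    simp only [s3, t3] at h1
    have h2 : ∀ i : Fin 3, ![decide (Sum.inl 0 ∈ Z), decide (Sum.inl 1 ∈ Z),
        decide (Sum.inl 2 ∈ Z)] i = decide (Sum.inl i ∈ Z) := by
      intro i
      fin_cases i <;> rfl
    have h3 : ∀ i : Fin 3, ![decide (Sum.inr 0 ∈ Z), decide (Sum.inr 1 ∈ Z),
        decide (Sum.inr 2 ∈ Z)] i = decide (Sum.inr i ∈ Z) := by
      intro i
      fin_cases i <;> rfl
    rw [h2, h3]
    exact decide_eq_decide.2 h1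

/-- independence is the same over all fields -/
theorem indep_iff (F : Type) [Field F] (I : Set (Option (Fin 3 × Fin 3))) :
    LinearIndepOn (ZMod 2) (rv (ZMod 2)) I ↔ LinearIndepOn F (rv F) I := by
  have h0 : ∀ (K : Type) [Field K] (J : Set (Fin 3 × Fin 3)),
      LinearIndepOn K (rv K) (some '' J) ↔ LinearIndepOn K (vec K s3 t3) J := by
    intro K _ J
    constructor
    · intro h
      exact h.comp_of_image (Option.some_injective _).injOn
    · intro h
      exact LinearIndepOn.image_of_comp some (rv K) h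
  by_cases hn : none ∈ I
  · obtain ⟨J, hJ⟩ : ∃ J : Set (Fin 3 × Fin 3), I = insert none (some '' J) := by
      refine ⟨some ⁻¹' I, ?_⟩
      ext o
      rcases o with _ | e
      · simp [hn]
      · simp
    have hnJ : none ∉ some '' J := by simp
    have himg : ∀ (K : Type) [Field K], rv K '' (some '' J) = vec K s3 t3 '' J := by
      intro K _
      rw [Set.image_image]
      rfl
    rw [hJ, linearIndepOn_insert hnJ, linearIndepOn_insert hnJ, h0, h0, himg, himg,
      gr (ZMod 2) F]
    apply and_congr_right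
    intro _
    apply not_congr
    show q (ZMod 2) ∈ _ ↔ q F ∈ _
    rw [mem_iff_balanced, mem_iff_balanced]
  · obtain ⟨J, hJ⟩ : ∃ J : Set (Fin 3 × Fin 3), I = some '' J := by
      refine ⟨some ⁻¹' I, ?_⟩
      ext o
      rcases o with _ | e
      · simp [hn]
      · simp
    rw [hJ, h0, h0, gr (ZMod 2) F]

end Pool.Agent.H34.GC.R10
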